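import Pool.Graph.R_seed8.Y843.AC.Top
import Pool.Graph.R_seed8.Y843.HG.VGold
import Pool.Graph.R_seed8.Y843.HG.Core
import Pool.Graph.R_seed8.Y79.HS.Den

/-!
# The sieve product of arbitrary classes, compared with a product over the primes up to `X`
-/

set_option autoImplicit false

namespace Pool.Agent.KS6_51.AP

open Finset Filter
open Pool.Agent.Y843.HS (Pr VV Sv)
open Pool.Agent.Y843.HG (V1)

/-- the product of `1 - (|Z p| - 1) / (p - 1)` over the primes `z < p ≤ X` -/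
noncomputable def WW (z X : ℕ) (Z : ℕ → Finset ℕ) : ℝ :=
  ∏ p ∈ (Ioc z X).filter Nat.Prime, (1 - (((Z p).card : ℝ) - 1) / ((p : ℝ) - 1))

theorem fac_eq {p c : ℕ} (hp : p.Prime) : 1 - (c : ℝ) / p =
    (1 - 1 / (p : ℝ)) * (1 - ((c : ℝ) - 1) / ((p : ℝ) - 1)) := by
  have h1 : (p : ℝ) ≠ 0 := by exact_mod_cast hp.ne_zero
  have h2 : (p : ℝ) - 1 ≠ 0 := by
    have : (1 : ℝ) < p := by exact_mod_cast hp.one_lt
    linarith
  field_simp
  ring

theorem fac_bd {p c : ℕ} (hp : p.Prime) (h1 : 1 ≤ c) (h2 : c < p) :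
    0 < 1 - ((c : ℝ) - 1) / ((p : ℝ) - 1) ∧ 1 - ((c : ℝ) - 1) / ((p : ℝ) - 1) ≤ 1 := by
  have h3 : (0 : ℝ) < (p : ℝ) - 1 := by
    have : (1 : ℝ) < p := by exact_mod_cast hp.one_lt
    linarith
  have h4 : (1 : ℝ) ≤ c := by exact_mod_cast h1
  have h5 : (c : ℝ) < p := by exact_mod_cast h2
  constructor
  · rw [sub_pos, div_lt_one h3]
    linarith
  · have : 0 ≤ ((c : ℝ) - 1) / ((p : ℝ) - 1) := div_nonneg (by linarith) h3.le
    linarith

theorem WW_split (Z : ℕ → Finset ℕ) {z y X : ℕ} (h1 : z ≤ y) (h2 : y ≤ X) :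
    WW z y Z * WW y X Z = WW z X Z := by
  unfold WW
  rw [← prod_union]
  · congr 1
    ext p
    simp only [mem_union, mem_filter, mem_Ioc]
    constructor
    · rintro (⟨h, h'⟩ | ⟨h, h'⟩)
      · exact ⟨⟨h.1, h.2.trans h2⟩, h'⟩
      · exact ⟨⟨lt_of_le_of_lt h1 h.1, h.2⟩, h'⟩
    · rintro ⟨h, h'⟩
      rcases le_or_gt p y with h3 | h3
      · exact Or.inl ⟨⟨h.1, h3⟩, h'⟩
      · exact Or.inr ⟨⟨h3, h.2⟩, h'⟩
  · rw [disjoint_left]
    intro p hp hp'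
    rw [mem_filter, mem_Ioc] at hp hp'
    omega

theorem V1_split {z y : ℕ} (h : z ≤ y) :
    V1 z * ∏ p ∈ (Ioc z y).filter Nat.Prime, (1 - 1 / (p : ℝ)) = V1 y := by
  unfold V1 Pr
  rw [← prod_union]
  · congr 1
    ext p
    simp only [mem_union, mem_filter, mem_Ioc]
    constructor
    · rintro (⟨h1, h'⟩ | ⟨h1, h'⟩)
      · exact ⟨⟨h1.1, h1.2.trans h⟩, h'⟩
      · exact ⟨⟨lt_of_le_of_lt (Nat.zero_le _) h1.1, h1.2⟩, h'⟩
    · rintro ⟨h1, h'⟩
      rcases le_or_gt p z with h3 | h3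
      · exact Or.inl ⟨⟨h1.1, h3⟩, h'⟩
      · exact Or.inr ⟨⟨h3, h1.2⟩, h'⟩
  · rw [disjoint_left]
    intro p hp hp'
    rw [mem_filter, mem_Ioc] at hp hp'
    omega

theorem VV_eq (Z : ℕ → Finset ℕ) {z y : ℕ} :
    VV Z z y = (∏ p ∈ (Ioc z y).filter Nat.Prime, (1 - 1 / (p : ℝ))) * WW z y Z := by
  unfold VV WW Pr
  rw [← prod_mul_distrib]
  apply prod_congr rfl
  intro p hp
  rw [mem_filter] at hp
  exact fac_eq hp.2

/-- bounds for the part over the small primes -/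
theorem VV_small (z : ℕ) : ∃ c : ℝ, 0 < c ∧ ∀ Z : ℕ → Finset ℕ,
    (∀ p : ℕ, p.Prime → p ≤ z → (Z p).card < p) → c ≤ VV Z 0 z ∧ VV Z 0 z ≤ 1 := by
  refine ⟨∏ p ∈ Pr 0 z, (1 / (p : ℝ)), ?_, ?_⟩
  · apply prod_pos
    intro p hp
    unfold Pr at hp
    rw [mem_filter] at hp
    have : (0 : ℝ) < p := by exact_mod_cast hp.2.pos
    positivity
  · intro Z hZ
    constructor
    · unfold VV
      apply Finset.prod_le_prod
      · intro p _
        positivity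
      · intro p hp
        unfold Pr at hp
        rw [mem_filter, mem_Ioc] at hp
        have h1 : (0 : ℝ) < p := by exact_mod_cast hp.2.pos
        have h2 : ((Z p).card : ℝ) + 1 ≤ p := by exact_mod_cast hZ p hp.2 hp.1.2
        have e : 1 - ((Z p).card : ℝ) / p = (p - (Z p).card) / p := by field_simp
        rw [e]
        apply div_le_div_of_nonneg_right _ h1.le
        linarith
    · unfold VV
      apply prod_le_one
      · intro p hp
        unfold Pr at hp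
        rw [mem_filter, mem_Ioc] at hp
        have h1 : (0 : ℝ) < p := by exact_mod_cast hp.2.pos
        have h2 : ((Z p).card : ℝ) + 1 ≤ p := by exact_mod_cast hZ p hp.2 hp.1.2
        rw [sub_nonneg, div_le_one h1]
        linarith
      · intro p _
        have : 0 ≤ ((Z p).card : ℝ) / p := by positivity
        linarith

theorem floor_pow (κ : ℝ) (hκ : 0 < κ) (hκ1 : κ ≤ 1) : ∃ L X₀ : ℕ, 2 ≤ X₀ ∧ ∀ X : ℕ, X₀ ≤ X →
    ⌊(X : ℝ) ^ κ⌋₊ ≤ X ∧ X ≤ ⌊(X : ℝ) ^ κ⌋₊ ^ L ∧ 2 ≤ ⌊(X : ℝ) ^ κ⌋₊ ∧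
      κ / 2 * Real.log X ≤ Real.log (⌊(X : ℝ) ^ κ⌋₊ : ℕ) := by
  obtain ⟨L, hL⟩ := exists_nat_ge (2 / κ)
  have ht : Tendsto (fun X : ℕ => ((X : ℝ)) ^ (κ / 2)) atTop atTop :=
    (tendsto_rpow_atTop (by positivity)).comp tendsto_natCast_atTop_atTop
  obtain ⟨X₀, hX₀⟩ := (eventually_atTop.1 (ht.eventually_ge_atTop 2))
  refine ⟨L, max X₀ 2, le_max_right _ _, ?_⟩
  intro X hX
  rw [max_le_iff] at hX
  have h2 := hX₀ X hX.1
  have hX1 : (1 : ℝ) ≤ X := by exact_mod_cast (by omega : 1 ≤ X)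
  have hX0 : (0 : ℝ) < X := by linarith
  have e1 : (X : ℝ) ^ κ = (X : ℝ) ^ (κ / 2) * (X : ℝ) ^ (κ / 2) := by
    rw [← Real.rpow_add hX0]; ring_nf
  have hfl : (X : ℝ) ^ (κ / 2) ≤ (⌊(X : ℝ) ^ κ⌋₊ : ℕ) := by
    have h3 := Nat.lt_floor_add_one ((X : ℝ) ^ κ)
    nlinarith
  have hfl2 : 2 ≤ ⌊(X : ℝ) ^ κ⌋₊ := by
    have : (2 : ℝ) ≤ (⌊(X : ℝ) ^ κ⌋₊ : ℕ) := h2.trans hfl
    exact_mod_cast this
  refine ⟨?_, ?_, hfl2, ?_⟩
  · have h3 : (⌊(X : ℝ) ^ κ⌋₊ : ℝ) ≤ X := by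
      refine (Nat.floor_le (by positivity)).trans ?_
      calc (X : ℝ) ^ κ ≤ (X : ℝ) ^ (1 : ℝ) := Real.rpow_le_rpow_of_exponent_le hX1 hκ1
        _ = X := Real.rpow_one _
    exact_mod_cast h3
  · have h3 : (X : ℝ) ≤ ((⌊(X : ℝ) ^ κ⌋₊ : ℕ) : ℝ) ^ L := by
      calc (X : ℝ) = (X : ℝ) ^ (1 : ℝ) := (Real.rpow_one _).symm
        _ ≤ (X : ℝ) ^ (κ / 2 * L) := by
            apply Real.rpow_le_rpow_of_exponent_le hX1
            rw [div_le_iff₀ hκ] at hL
            linarith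
        _ = ((X : ℝ) ^ (κ / 2)) ^ L := by rw [Real.rpow_mul hX0.le, Real.rpow_natCast]
        _ ≤ _ := pow_le_pow_left₀ (by positivity) hfl L
    exact_mod_cast h3
  · calc κ / 2 * Real.log X = Real.log ((X : ℝ) ^ (κ / 2)) := (Real.log_rpow hX0 _).symm
      _ ≤ _ := Real.log_le_log (by positivity) hfl

/-- **The order of the sieve product** -/
theorem comp (z r : ℕ) (κ : ℝ) (hκ : 0 < κ) (hκ1 : κ ≤ 1) : ∃ c C : ℝ, 0 < c ∧ 0 < C ∧
    ∃ X₀ : ℕ, ∀ X : ℕ, X₀ ≤ X → ∀ Z : ℕ → Finset ℕ,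
    (∀ p : ℕ, p.Prime → (Z p).card < p ∧ ∀ c ∈ Z p, c < p) →
    (∀ p : ℕ, p.Prime → z < p → 1 ≤ (Z p).card ∧ (Z p).card ≤ r) →
    0 < WW z X Z ∧
    c * (WW z X Z / Real.log X) ≤ VV Z 0 ⌊(X : ℝ) ^ κ⌋₊ ∧
      VV Z 0 ⌊(X : ℝ) ^ κ⌋₊ ≤ C * (WW z X Z / Real.log X) := by
  obtain ⟨L, X₁, hX₁2, hfl⟩ := floor_pow κ hκ hκ1
  obtain ⟨c1, hc1, hsm⟩ := VV_small z
  obtain ⟨c2, C2, hc2, hC2, hV1⟩ := Pool.Agent.Y843.HG.V1_bounds
  obtain ⟨c3, hc3, R₀, hden⟩ := Pool.Agent.Y79.HS.den r L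
  have ht : Tendsto (fun X : ℕ => ⌊((X : ℝ)) ^ κ⌋₊) atTop atTop :=
    tendsto_nat_floor_atTop.comp ((tendsto_rpow_atTop hκ).comp tendsto_natCast_atTop_atTop)
  obtain ⟨X₂, hX₂⟩ := (eventually_atTop.1 (ht.eventually_ge_atTop (max z (R₀ + 2))))
  have hV1z : 0 < V1 z := Pool.Agent.Y843.HG.V1_pos z
  have hV1le : ∀ y : ℕ, V1 y ≤ 1 := by
    intro y
    unfold V1
    apply prod_le_one
    · intro p hp
      unfold Pr at hp
      rw [mem_filter] at hp
      have := (Pool.Agent.Y843.HG.fac1 hp.2).1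
      linarith
    · intro p hp
      unfold Pr at hp
      rw [mem_filter] at hp
      exact (Pool.Agent.Y843.HG.fac1 hp.2).2
  refine ⟨c1 * c2, C2 * (2 / κ) / (V1 z * c3), by positivity, by positivity, max X₁ X₂, ?_⟩
  intro X hX Z hZ hZr
  rw [max_le_iff] at hX
  obtain ⟨h1, h2, h3, h4⟩ := hfl X hX.1
  have h5 := hX₂ X hX.2
  rw [max_le_iff] at h5
  obtain ⟨y, hy⟩ : ∃ y, y = ⌊(X : ℝ) ^ κ⌋₊ := ⟨_, rfl⟩
  rw [← hy] at h1 h2 h3 h4 h5 ⊢
  have hlog : 0 < Real.log X := Real.log_pos (by exact_mod_cast (by omega : 1 < X))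
  have hlogy : 0 < Real.log y := Real.log_pos (by exact_mod_cast (by omega : 1 < y))
  have hpos : ∀ a b : ℕ, z ≤ a → 0 < WW a b Z := by
    intro a b hab
    unfold WW
    apply prod_pos
    intro p hp
    rw [mem_filter, mem_Ioc] at hp
    exact (fac_bd hp.2 (hZr p hp.2 (by omega)).1 (hZ p hp.2).1).1
  have hle : ∀ a b : ℕ, z ≤ a → WW a b Z ≤ 1 := by
    intro a b hab
    unfold WW
    apply prod_le_one
    · intro p hp
      rw [mem_filter, mem_Ioc] at hp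
      exact (fac_bd hp.2 (hZr p hp.2 (by omega)).1 (hZ p hp.2).1).1.le
    · intro p hp
      rw [mem_filter, mem_Ioc] at hp
      exact (fac_bd hp.2 (hZr p hp.2 (by omega)).1 (hZ p hp.2).1).2
  have hs := hsm Z (fun p hp _ => (hZ p hp).1)
  have hv1 := V1_split h5.1
  obtain ⟨P1, hP1⟩ : ∃ P1 : ℝ, P1 = ∏ p ∈ (Ioc z y).filter Nat.Prime, (1 - 1 / (p : ℝ)) := ⟨_, rfl⟩
  rw [← hP1] at hv1
  have hP1pos : 0 < P1 := by
    rw [hP1]
    apply prod_pos
    intro p hp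
    rw [mem_filter] at hp
    have := (Pool.Agent.Y843.HG.fac1 hp.2).1
    linarith
  have hVy := hV1 y (by omega)
  have e1 : VV Z 0 y = VV Z 0 z * (P1 * WW z y Z) := by
    rw [← Pool.Agent.Y843.HS.VV_split Z (Nat.zero_le z) h5.1, VV_eq Z (z := z) (y := y), hP1]
  have e2 := WW_split Z h5.1 h1
  have hdl : c3 ≤ WW y X Z := by
    have h6 := hden y X (by omega) h2 Z (by
      intro p hp
      unfold Pr at hp
      rw [mem_filter, mem_Ioc] at hp
      exact ⟨(hZr p hp.2 (by omega)).2, (hZ p hp.2).2⟩)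
    refine h6.trans ?_
    rw [VV_eq]
    have h7 : ∏ p ∈ (Ioc y X).filter Nat.Prime, (1 - 1 / (p : ℝ)) ≤ 1 := by
      apply prod_le_one
      · intro p hp
        rw [mem_filter] at hp
        have := (Pool.Agent.Y843.HG.fac1 hp.2).1
        linarith
      · intro p hp
        rw [mem_filter] at hp
        exact (Pool.Agent.Y843.HG.fac1 hp.2).2
    have h8 := (hpos y X h5.1).le
    nlinarith
  refine ⟨hpos z X le_rfl, ?_, ?_⟩
  · -- lower bound
    rw [e1]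
    have h6 : WW z X Z ≤ WW z y Z := by
      rw [← e2]
      have := hle y X h5.1
      have := (hpos z y le_rfl).le
      nlinarith
    have h7 : c2 / Real.log X ≤ P1 := by
      have h8 : c2 / Real.log X ≤ c2 / Real.log y := by
        apply div_le_div_of_nonneg_left hc2.le hlogy
        exact Real.log_le_log (by exact_mod_cast (by omega : 0 < y)) (by exact_mod_cast h1)
      have h9 : V1 y ≤ P1 := by
        rw [← hv1]
        have := hV1le z
        nlinarith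
      exact h8.trans (hVy.1.trans h9)
    calc c1 * c2 * (WW z X Z / Real.log X) = c1 * (c2 / Real.log X * WW z X Z) := by ring
      _ ≤ VV Z 0 z * (P1 * WW z y Z) := by
          apply mul_le_mul hs.1 _ (by
            have := (hpos z X le_rfl).le
            positivity) (hc1.le.trans hs.1)
          exact mul_le_mul h7 h6 (hpos z X le_rfl).le hP1pos.le
  · rw [e1]
    have h6 : WW z y Z ≤ WW z X Z / c3 := by
      rw [le_div_iff₀ hc3, ← e2]
      exact mul_le_mul_of_nonneg_left hdl (hpos z y le_rfl).le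
    have h7 : P1 ≤ C2 * (2 / κ) / V1 z / Real.log X := by
      have h8 : P1 = V1 y / V1 z := by
        rw [← hv1]; field_simp
      rw [h8]
      have h9 : V1 y ≤ C2 * (2 / κ) / Real.log X := by
        refine hVy.2.trans ?_
        rw [div_le_div_iff₀ hlogy hlog]
        calc C2 * Real.log X = C2 * (2 / κ) * (κ / 2 * Real.log X) := by field_simp
          _ ≤ C2 * (2 / κ) * Real.log y := mul_le_mul_of_nonneg_left h4 (by positivity)
      calc V1 y / V1 z ≤ C2 * (2 / κ) / Real.log X / V1 z :=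
            div_le_div_of_nonneg_right h9 hV1z.le
        _ = _ := by ring
    calc VV Z 0 z * (P1 * WW z y Z) ≤ 1 * (C2 * (2 / κ) / V1 z / Real.log X * (WW z X Z / c3)) := by
          apply mul_le_mul hs.2 _ (mul_nonneg hP1pos.le (hpos z y le_rfl).le) zero_le_one
          exact mul_le_mul h7 h6 (hpos z y le_rfl).le (by positivity)
      _ = _ := by
          field_simp

end Pool.Agent.KS6_51.AP
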