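import Pool.Agent.KS6_51.AP1

/-!
# Progressions in subsets of sifted sets, in closed windows
-/

set_option autoImplicit false

namespace Pool.Agent.KS6_51.AP

open Finset Filter
open Pool.Agent.Y843.HS (Pr VV Sv)
open Pool.Agent.Y843.AC (APs OK Av)
open Pool.Agent.Y843.HG (InAP Iso)

/-- the classes: not all of them, and between `1` and `r` for the primes `p > z` -/
def Cl (z r : ℕ) (Z : ℕ → Finset ℕ) : Prop :=
  (∀ p : ℕ, p.Prime → (Z p).card < p ∧ ∀ c ∈ Z p, c < p) ∧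
  (∀ p : ℕ, p.Prime → z < p → 1 ≤ (Z p).card ∧ (Z p).card ≤ r)

/-- the density -/
noncomputable def dn (z X : ℕ) (Z : ℕ → Finset ℕ) : ℝ := WW z X Z / Real.log X

theorem Cl.ok {z r : ℕ} {Z : ℕ → Finset ℕ} (h : Cl z r Z) (κ : ℝ) (X : ℕ) : OK (z + r) κ X Z := by
  intro p hp _
  refine ⟨?_, (h.1 p hp).1, (h.1 p hp).2⟩
  rcases le_or_gt p z with h1 | h1
  · have := (h.1 p hp).1
    omega
  · have := (h.2 p hp h1).2
    omega

theorem WW_pos {z r : ℕ} {Z : ℕ → Finset ℕ} (h : Cl z r Z) (X : ℕ) : 0 < WW z X Z := by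
  unfold WW
  apply prod_pos
  intro p hp
  rw [mem_filter, mem_Ioc] at hp
  exact (fac_bd hp.2 (h.2 p hp.2 (by omega)).1 (h.1 p hp.2).1).1

theorem WW_le_one {z r : ℕ} {Z : ℕ → Finset ℕ} (h : Cl z r Z) (X : ℕ) : WW z X Z ≤ 1 := by
  unfold WW
  apply prod_le_one
  · intro p hp
    rw [mem_filter, mem_Ioc] at hp
    exact (fac_bd hp.2 (h.2 p hp.2 (by omega)).1 (h.1 p hp.2).1).1.le
  · intro p hp
    rw [mem_filter, mem_Ioc] at hp
    exact (fac_bd hp.2 (h.2 p hp.2 (by omega)).1 (h.1 p hp.2).1).2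

/-- passing from `X` to `X + 1` -/
theorem WW_succ (z r : ℕ) : ∃ X₀ : ℕ, ∀ X : ℕ, X₀ ≤ X → ∀ Z : ℕ → Finset ℕ, Cl z r Z →
    WW z X Z / 2 ≤ WW z (X + 1) Z ∧ WW z (X + 1) Z ≤ WW z X Z := by
  refine ⟨max z (2 * r + 2), ?_⟩
  intro X hX Z hZ
  rw [max_le_iff] at hX
  have h1 := WW_split Z hX.1 (Nat.le_succ X)
  have h2 : 1 / 2 ≤ WW X (X + 1) Z ∧ WW X (X + 1) Z ≤ 1 := by
    unfold WW
    have e : Ioc X (X + 1) = {X + 1} := by
      ext a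
      rw [mem_Ioc, mem_singleton]
      omega
    rw [e]
    by_cases hp : (X + 1).Prime
    · rw [filter_true_of_mem (by intro a ha; rw [mem_singleton] at ha; rw [ha]; exact hp),
        prod_singleton]
      have h3 := hZ.2 (X + 1) hp (by omega)
      have h4 := fac_bd hp h3.1 (hZ.1 (X + 1) hp).1
      refine ⟨?_, h4.2⟩
      have h5 : ((X + 1 : ℕ) : ℝ) - 1 = X := by push_cast; ring
      rw [h5]
      have h6 : (0 : ℝ) < X := by exact_mod_cast (by omega : 0 < X)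
      have h7 : (((Z (X + 1)).card : ℝ) - 1) / X ≤ 1 / 2 := by
        rw [div_le_div_iff₀ h6 (by norm_num)]
        have h8 : ((Z (X + 1)).card : ℝ) ≤ r := by exact_mod_cast h3.2
        have h9 : (2 * r + 2 : ℝ) ≤ X := by exact_mod_cast hX.2
        linarith
      linarith
    · rw [filter_false_of_mem (by intro a ha; rw [mem_singleton] at ha; rw [ha]; exact hp),
        prod_empty]
      norm_num
  have h3 := WW_pos hZ X
  have e : WW z X.succ Z = WW z (X + 1) Z := rfl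
  rw [← e, ← h1]
  have e2 : WW X X.succ Z = WW X (X + 1) Z := rfl
  rw [e2]
  constructor
  · nlinarith
  · nlinarith

theorem log_succ : ∃ X₀ : ℕ, 3 ≤ X₀ ∧ ∀ X : ℕ, X₀ ≤ X → Real.log ((X + 1 : ℕ) : ℝ) ≤ 2 * Real.log X ∧
    Real.log X ≤ Real.log ((X + 1 : ℕ) : ℝ) ∧ 1 ≤ Real.log X := by
  refine ⟨3, le_rfl, ?_⟩
  intro X hX
  have h3 : (3 : ℝ) ≤ X := by exact_mod_cast hX
  refine ⟨?_, ?_, ?_⟩
  · rw [← Real.log_rpow (by linarith)]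
    apply Real.log_le_log (by positivity)
    push_cast
    rw [Real.rpow_two]
    nlinarith
  · apply Real.log_le_log (by linarith)
    push_cast
    linarith
  · rw [Real.le_log_iff_exp_le (by linarith)]
    have := Real.exp_one_lt_d9
    linarith

/-- `log ^ B (X + 1) ≤ log ^ (B + 1) X` -/
theorem logpow (B : ℕ) : ∃ X₀ : ℕ, ∀ X : ℕ, X₀ ≤ X →
    Real.log ((X + 1 : ℕ) : ℝ) ^ B ≤ Real.log X ^ (B + 1) := by
  obtain ⟨X₁, -, h1⟩ := log_succ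
  have ht : Tendsto (fun X : ℕ => Real.log X) atTop atTop :=
    Real.tendsto_log_atTop.comp tendsto_natCast_atTop_atTop
  obtain ⟨X₂, h2⟩ := eventually_atTop.1 (ht.eventually_ge_atTop ((2 : ℝ) ^ B))
  refine ⟨max X₁ X₂, ?_⟩
  intro X hX
  rw [max_le_iff] at hX
  have h3 := h1 X hX.1
  have h4 := h2 X hX.2
  have h5 : 0 ≤ Real.log ((X + 1 : ℕ) : ℝ) := by linarith
  calc Real.log ((X + 1 : ℕ) : ℝ) ^ B ≤ (2 * Real.log X) ^ B := pow_le_pow_left₀ h5 h3.1 B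
    _ = 2 ^ B * Real.log X ^ B := mul_pow _ _ _
    _ ≤ Real.log X * Real.log X ^ B := mul_le_mul_of_nonneg_right h4 (by positivity)
    _ = _ := by ring

/-- the density at `X` and at `X + 1` -/
theorem dn_succ (z r : ℕ) : ∃ X₀ : ℕ, 3 ≤ X₀ ∧ ∀ X : ℕ, X₀ ≤ X → ∀ Z : ℕ → Finset ℕ, Cl z r Z →
    0 < dn z X Z ∧ dn z X Z / 4 ≤ dn z (X + 1) Z ∧ dn z (X + 1) Z ≤ dn z X Z := by
  obtain ⟨X₁, h1⟩ := WW_succ z r
  obtain ⟨X₂, h2', h2⟩ := log_succ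
  refine ⟨max X₁ X₂, h2'.trans (le_max_right _ _), ?_⟩
  intro X hX Z hZ
  rw [max_le_iff] at hX
  have h3 := h1 X hX.1 Z hZ
  have h4 := h2 X hX.2
  have h5 := WW_pos hZ X
  have h6 := WW_pos hZ (X + 1)
  have h7 : 0 < Real.log X := by linarith
  have h8 : 0 < Real.log ((X + 1 : ℕ) : ℝ) := by linarith
  unfold dn
  refine ⟨by positivity, ?_, ?_⟩
  · rw [div_div, div_le_div_iff₀ (by positivity) h8]
    nlinarith [h3.1, h4.1, mul_le_mul h3.1 h4.1 h8.le h6.le]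
  · exact div_le_div₀ h5.le h3.2 h7 h4.2.1

/-- the elements avoid the classes modulo the primes `p ≤ (X + 1) ^ κ` -/
def Avd (κ : ℝ) (X : ℕ) (Z : ℕ → Finset ℕ) (S : Finset ℕ) : Prop :=
  ∀ n ∈ S, ∀ p : ℕ, p.Prime → (p : ℝ) ≤ ((X + 1 : ℕ) : ℝ) ^ κ → n % p ∉ Z p

theorem win {A X : ℕ} (hA : 1 ≤ A) {S : Finset ℕ} (h : S ⊆ Icc A (A + X)) :
    S ⊆ Ioc (A - 1) (A - 1 + (X + 1)) := by
  intro n hn
  have := h hn
  rw [mem_Icc] at this
  rw [mem_Ioc]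
  omega

/-- **Upper bound** -/
theorem upper (z r k : ℕ) (hk : 1 ≤ k) (κ : ℝ) (hκ : 0 < κ) (hκ1 : κ ≤ 1) : ∃ C : ℝ, 0 < C ∧
    ∃ B X₀ : ℕ, ∀ X A D : ℕ, X₀ ≤ X → 1 ≤ A → Real.log X ^ B ≤ D →
    ∀ Z : ℕ → Finset ℕ, Cl z r Z → ∀ S : Finset ℕ, S ⊆ Icc A (A + X) → Avd κ X Z S →
    ((APs k D S).card : ℝ) ≤ C * (X * D * dn z X Z ^ k) := by
  obtain ⟨c1, C1, hc1, hC1, X₁, hcomp⟩ := comp z r κ hκ hκ1
  obtain ⟨C2, hC2, B, X₂, hup⟩ := Pool.Agent.Y843.AC.upa_all (z + r) k κ hk hκ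
  obtain ⟨X₃, hX₃, hdn⟩ := dn_succ z r
  obtain ⟨X₄, hlp⟩ := logpow B
  refine ⟨C2 * 2 * C1 ^ k, by positivity, B + 1, max (max X₁ X₂) (max X₃ X₄), ?_⟩
  intro X A D hX hA hD Z hZ S hS hav
  rw [max_le_iff, max_le_iff, max_le_iff] at hX
  have h1 := (hcomp (X + 1) (by omega) Z hZ.1 hZ.2).2.2
  have h0 := (hcomp (X + 1) (by omega) Z hZ.1 hZ.2).2.1
  have h2 := hdn X hX.2.1 Z hZ
  have h2' := hdn (X + 1) (by omega) Z hZ
  have h3 := hup (X + 1) (A - 1) D (by omega) ((hlp X hX.2.2).trans hD) Z (hZ.ok κ (X + 1)) S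
    (win hA hS) hav
  refine h3.trans ?_
  have h4 : VV Z 0 ⌊((X + 1 : ℕ) : ℝ) ^ κ⌋₊ ≤ C1 * dn z X Z :=
    h1.trans (mul_le_mul_of_nonneg_left h2.2.2 hC1.le)
  have h5 : 0 ≤ VV Z 0 ⌊((X + 1 : ℕ) : ℝ) ^ κ⌋₊ :=
    le_trans (by have := h2'.1; unfold dn at this; positivity) h0
  have h6 : ((X + 1 : ℕ) : ℝ) ≤ 2 * X := by
    push_cast
    have : (1 : ℝ) ≤ X := by exact_mod_cast (by omega : 1 ≤ X)
    linarith
  calc C2 * ((X + 1 : ℕ) : ℝ) * D * VV Z 0 ⌊((X + 1 : ℕ) : ℝ) ^ κ⌋₊ ^ k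
      ≤ C2 * (2 * X) * D * (C1 * dn z X Z) ^ k := by
        apply mul_le_mul _ (pow_le_pow_left₀ h5 h4 k) (pow_nonneg h5 k) (by positivity)
        apply mul_le_mul_of_nonneg_right _ (Nat.cast_nonneg D)
        exact mul_le_mul_of_nonneg_left h6 hC2.le
    _ = _ := by rw [mul_pow]; ring

/-- **Lower bound** -/
theorem lower (z r k : ℕ) (hk : 1 ≤ k) (κ : ℝ) (hκ : 0 < κ) (hκ1 : κ ≤ 1) (η : ℝ) (hη : 0 < η) :
    ∃ c : ℝ, 0 < c ∧ ∃ B X₀ : ℕ, ∀ X A D : ℕ, X₀ ≤ X → 1 ≤ A → Real.log X ^ B ≤ D → D ≤ X →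
    ∀ Z : ℕ → Finset ℕ, Cl z r Z → ∀ S : Finset ℕ, S ⊆ Icc A (A + X) → Avd κ X Z S →
    η * (X * dn z X Z) ≤ S.card →
    c * (X * D * dn z X Z ^ k) ≤ ((APs k D S).card : ℝ) := by
  obtain ⟨c1, C1, hc1, hC1, X₁, hcomp⟩ := comp z r κ hκ hκ1
  obtain ⟨c2, hc2, B, X₂, hlo⟩ := Pool.Agent.Y843.AC.cnt_all (z + r) k κ (η / (2 * C1)) hk hκ
    (by positivity)
  obtain ⟨X₃, hX₃, hdn⟩ := dn_succ z r
  obtain ⟨X₄, hlp⟩ := logpow B
  refine ⟨c2 * (c1 / 4) ^ k, by positivity, B + 1, max (max X₁ X₂) (max X₃ X₄), ?_⟩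
  intro X A D hX hA hD hDX Z hZ S hS hav hcard
  rw [max_le_iff, max_le_iff, max_le_iff] at hX
  have h1 := (hcomp (X + 1) (by omega) Z hZ.1 hZ.2).2.2
  have h0 := (hcomp (X + 1) (by omega) Z hZ.1 hZ.2).2.1
  have h2 := hdn X hX.2.1 Z hZ
  have h6 : ((X + 1 : ℕ) : ℝ) ≤ 2 * X := by
    push_cast
    have : (1 : ℝ) ≤ X := by exact_mod_cast (by omega : 1 ≤ X)
    linarith
  have h4 : VV Z 0 ⌊((X + 1 : ℕ) : ℝ) ^ κ⌋₊ ≤ C1 * dn z X Z :=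
    h1.trans (mul_le_mul_of_nonneg_left h2.2.2 hC1.le)
  have h3 := hlo (X + 1) (A - 1) D (by omega) ((hlp X hX.2.2).trans hD) (by omega) Z
    (hZ.ok κ (X + 1)) S (win hA hS) hav (by
      refine le_trans ?_ hcard
      have e : η * (X * dn z X Z) = η / (2 * C1) * (2 * X) * (C1 * dn z X Z) := by
        field_simp
      rw [e]
      have h7 := h2.1
      apply mul_le_mul _ h4 (by
        have := (hdn (X + 1) (by omega) Z hZ).1
        exact le_trans (by unfold dn at this; positivity) h0) (by positivity)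
      exact mul_le_mul_of_nonneg_left h6 (by positivity))
  refine le_trans ?_ h3
  have h7 : c1 / 4 * dn z X Z ≤ VV Z 0 ⌊((X + 1 : ℕ) : ℝ) ^ κ⌋₊ := by
    refine le_trans ?_ h0
    have e : c1 / 4 * dn z X Z = c1 * (dn z X Z / 4) := by ring
    rw [e]
    exact mul_le_mul_of_nonneg_left h2.2.1 hc1.le
  have h8 : 0 ≤ c1 / 4 * dn z X Z := by
    have := h2.1
    positivity
  calc c2 * (c1 / 4) ^ k * (X * D * dn z X Z ^ k) = c2 * X * D * (c1 / 4 * dn z X Z) ^ k := by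
        rw [mul_pow]; ring
    _ ≤ c2 * ((X + 1 : ℕ) : ℝ) * D * VV Z 0 ⌊((X + 1 : ℕ) : ℝ) ^ κ⌋₊ ^ k := by
        apply mul_le_mul _ (pow_le_pow_left₀ h8 h7 k) (pow_nonneg h8 k) (by positivity)
        apply mul_le_mul_of_nonneg_right _ (Nat.cast_nonneg D)
        apply mul_le_mul_of_nonneg_left _ hc2.le
        push_cast
        linarith

/-- **Few elements outside of narrow progressions** -/
theorem isol (z r k : ℕ) (hk : 1 ≤ k) (κ : ℝ) (hκ : 0 < κ) (hκ1 : κ ≤ 1) (η : ℝ) (hη : 0 < η) :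
    ∃ B X₀ : ℕ, ∀ X A : ℕ, X₀ ≤ X → 1 ≤ A →
    ∀ Z : ℕ → Finset ℕ, Cl z r Z → ∀ S : Finset ℕ, S ⊆ Icc A (A + X) → Avd κ X Z S →
    ((Iso k (Real.log X ^ B) S).card : ℝ) ≤ η * (X * dn z X Z) := by
  obtain ⟨c1, C1, hc1, hC1, X₁, hcomp⟩ := comp z r κ hκ hκ1
  obtain ⟨B, X₂, hiso⟩ := Pool.Agent.Y843.HG.fin_iso hk (z + r) hκ (ε := η / (2 * C1)) (by positivity)
  obtain ⟨X₃, hX₃, hdn⟩ := dn_succ z r
  obtain ⟨X₄, hlp⟩ := logpow B
  refine ⟨B + 1, max (max X₁ X₂) (max X₃ X₄), ?_⟩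
  intro X A hX hA Z hZ S hS hav
  rw [max_le_iff, max_le_iff, max_le_iff] at hX
  have h1 := (hcomp (X + 1) (by omega) Z hZ.1 hZ.2).2.2
  have h0 := (hcomp (X + 1) (by omega) Z hZ.1 hZ.2).2.1
  have h2 := hdn X hX.2.1 Z hZ
  have h6 : ((X + 1 : ℕ) : ℝ) ≤ 2 * X := by
    push_cast
    have : (1 : ℝ) ≤ X := by exact_mod_cast (by omega : 1 ≤ X)
    linarith
  have h4 : VV Z 0 ⌊((X + 1 : ℕ) : ℝ) ^ κ⌋₊ ≤ C1 * dn z X Z :=
    h1.trans (mul_le_mul_of_nonneg_left h2.2.2 hC1.le)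
  have h3 := hiso (X + 1) (A - 1) (by omega) Z (hZ.ok κ (X + 1)) S (win hA hS) hav
  have h5 : ((Iso k (Real.log X ^ (B + 1)) S).card : ℝ) ≤
      ((Iso k (Real.log ((X + 1 : ℕ) : ℝ) ^ B) S).card : ℝ) := by
    have : Iso k (Real.log X ^ (B + 1)) S ⊆ Iso k (Real.log ((X + 1 : ℕ) : ℝ) ^ B) S := by
      classical
      intro n hn
      unfold Iso at hn ⊢
      rw [mem_filter] at hn ⊢
      exact ⟨hn.1, fun h => hn.2 (h.mono (hlp X hX.2.2) (Finset.Subset.refl S))⟩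
    exact_mod_cast card_le_card this
  refine h5.trans (h3.le.trans ?_)
  have h8 := (hdn (X + 1) (by omega) Z hZ).1
  calc η / (2 * C1) * ((X + 1 : ℕ) : ℝ) * VV Z 0 ⌊((X + 1 : ℕ) : ℝ) ^ κ⌋₊
      ≤ η / (2 * C1) * (2 * X) * (C1 * dn z X Z) := by
        apply mul_le_mul _ h4 (le_trans (by unfold dn at h8; positivity) h0) (by positivity)
        exact mul_le_mul_of_nonneg_left h6 (by positivity)
    _ = _ := by field_simp

end Pool.Agent.KS6_51.AP
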