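import Pool.Graph.R_seed8.Y261.CH.Blv
import Pool.Graph.R_seed8.Y261.CH.Core
import Pool.Graph.R_seed8.Y932.CH.Bvw
import Pool.Graph.R_seed8.Y48.CH.Mass
import Pool.Graph.R_seed8.Y484.CH.Num
import Pool.Graph.R_seed8.Y73.CH.Wt
import Pool.Graph.R_seed8.Y843.CH.Cls

/-!
# Chen's theorem inside sifted sets, part 1: residue classes
-/

set_option autoImplicit false

namespace Pool.Agent.KS6_51.CH

open Finset Pool.Agent.W23.DC Pool.Agent.Y660.RP Pool.Agent.Y843.CH

open Classical in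
/-- the forbidden residues of `n` modulo `p` -/
noncomputable def Fb (w : ℝ) (i j : ℕ) (E : ℕ → Finset ℕ) (p : ℕ) : Finset ℕ :=
  (range p).filter (fun c => ((p : ℝ) < w ∧ c ∈ E p) ∨ p ∣ c + i ∨ p ∣ c + j)

open Classical in
/-- the nonzero residues of `n + s` modulo `p` which correspond to them -/
noncomputable def cl (w : ℝ) (i j : ℕ) (E : ℕ → Finset ℕ) (s p : ℕ) : Finset ℕ :=
  (range p).filter (fun c => c ≠ 0 ∧ (c + (p - 1) * s) % p ∈ Fb w i j E p)

theorem shift_mod {p : ℕ} (hp : 0 < p) (n s : ℕ) : (n + s + (p - 1) * s) % p = n % p := by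
  obtain ⟨q, rfl⟩ : ∃ q, p = q + 1 := ⟨p - 1, by omega⟩
  have e : n + s + (q + 1 - 1) * s = n + (q + 1) * s := by
    rw [Nat.add_sub_cancel]; ring
  rw [e, Nat.add_mul_mod_self_left]

theorem shift_mod' {p : ℕ} (hp : 0 < p) (n s : ℕ) :
    ((n + s) % p + (p - 1) * s) % p = n % p := by
  rw [Nat.mod_add_mod, shift_mod hp]

theorem mem_cl {w : ℝ} {i j : ℕ} {E : ℕ → Finset ℕ} {s p c : ℕ} :
    c ∈ cl w i j E s p ↔ c < p ∧ c ≠ 0 ∧ (c + (p - 1) * s) % p ∈ Fb w i j E p := by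
  unfold cl
  rw [mem_filter, mem_range]

theorem mem_Fb {w : ℝ} {i j : ℕ} {E : ℕ → Finset ℕ} {p c : ℕ} :
    c ∈ Fb w i j E p ↔ c < p ∧ (((p : ℝ) < w ∧ c ∈ E p) ∨ p ∣ c + i ∨ p ∣ c + j) := by
  unfold Fb
  rw [mem_filter, mem_range]

theorem mod_mem_cl {w : ℝ} {i j : ℕ} {E : ℕ → Finset ℕ} {s p : ℕ} (hp : 0 < p) (n : ℕ) :
    (n + s) % p ∈ cl w i j E s p ↔ ¬ p ∣ n + s ∧ n % p ∈ Fb w i j E p := by
  rw [mem_cl, shift_mod' hp]
  constructor
  · rintro ⟨-, h2, h3⟩
    exact ⟨fun h => h2 (Nat.mod_eq_zero_of_dvd h), h3⟩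
  · rintro ⟨h1, h2⟩
    exact ⟨Nat.mod_lt _ hp, fun h => h1 (Nat.dvd_of_mod_eq_zero h), h2⟩

theorem card_cl {w : ℝ} {i j : ℕ} {E : ℕ → Finset ℕ} {s p : ℕ} (hp : p.Prime)
    (hs : s = i ∨ s = j) : (cl w i j E s p).card + 1 = (Fb w i j E p).card := by
  classical
  have hp0 := hp.pos
  set e0 := ((p - 1) * s) % p with he0
  have he : e0 ∈ Fb w i j E p := by
    rw [mem_Fb]
    refine ⟨Nat.mod_lt _ hp0, Or.inr ?_⟩
    have h1 : p ∣ e0 + s := by
      have h2 : (e0 + s) % p = 0 := by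
        rw [he0, Nat.mod_add_mod]
        obtain ⟨q, hq⟩ : ∃ q, p = q + 1 := ⟨p - 1, by omega⟩
        have e : (p - 1) * s + s = p * s := by
          rw [hq, Nat.add_sub_cancel]; ring
        rw [e, Nat.mul_mod_right]
      exact Nat.dvd_of_mod_eq_zero h2
    rcases hs with rfl | rfl
    · exact Or.inl h1
    · exact Or.inr h1
  have himg : (cl w i j E s p).image (fun c => (c + (p - 1) * s) % p) =
      (Fb w i j E p).erase e0 := by
    ext x
    rw [mem_image, mem_erase]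
    constructor
    · rintro ⟨c, hc, rfl⟩
      rw [mem_cl] at hc
      refine ⟨fun h => hc.2.1 ?_, hc.2.2⟩
      have h1 : c + (p - 1) * s ≡ 0 + (p - 1) * s [MOD p] := by
        show (c + (p - 1) * s) % p = (0 + (p - 1) * s) % p
        rw [h, zero_add]
      have h2 : c ≡ 0 [MOD p] := Nat.ModEq.add_right_cancel' _ h1
      exact Nat.eq_zero_of_dvd_of_lt ((Nat.modEq_zero_iff_dvd).1 h2) hc.1
    · rintro ⟨h1, h2⟩
      have hx := (mem_Fb.1 h2).1
      refine ⟨(x + s) % p, ?_, ?_⟩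
      · rw [mod_mem_cl hp0, Nat.mod_eq_of_lt hx]
        refine ⟨fun hd => h1 ?_, h2⟩
        have h3 : x + s + (p - 1) * s ≡ 0 + (p - 1) * s [MOD p] :=
          Nat.ModEq.add_right _ ((Nat.modEq_zero_iff_dvd).2 hd)
        have h4 : (x + s + (p - 1) * s) % p = ((p - 1) * s) % p := by
          have := h3
          unfold Nat.ModEq at this
          rwa [zero_add] at this
        rw [shift_mod hp0, Nat.mod_eq_of_lt hx] at h4
        exact h4
      · show ((x + s) % p + (p - 1) * s) % p = x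
        rw [shift_mod' hp0, Nat.mod_eq_of_lt hx]
  have hinj : Set.InjOn (fun c => (c + (p - 1) * s) % p) (cl w i j E s p : Set ℕ) := by
    intro a ha b hb hab
    have ha' := (mem_cl.1 (mem_coe.1 ha)).1
    have hb' := (mem_cl.1 (mem_coe.1 hb)).1
    have h1 : a + (p - 1) * s ≡ b + (p - 1) * s [MOD p] := hab
    have h2 : a ≡ b [MOD p] := Nat.ModEq.add_right_cancel' _ h1
    exact Nat.ModEq.eq_of_lt_of_lt h2 ha' hb'
  rw [← card_image_of_injOn hinj, himg, card_erase_of_mem he]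
  have := card_pos.2 ⟨e0, he⟩
  omega

theorem card_dvd_le {p : ℕ} (_hp : 0 < p) (i : ℕ) :
    ((range p).filter (fun c => p ∣ c + i)).card ≤ 1 := by
  rw [card_le_one]
  intro a ha b hb
  rw [mem_filter, mem_range] at ha hb
  have h1 : a + i ≡ b + i [MOD p] :=
    ((Nat.modEq_zero_iff_dvd).2 ha.2).trans ((Nat.modEq_zero_iff_dvd).2 hb.2).symm
  exact Nat.ModEq.eq_of_lt_of_lt (Nat.ModEq.add_right_cancel' _ h1) ha.1 hb.1

theorem card_Fb_le {w : ℝ} {i j K : ℕ} {E : ℕ → Finset ℕ} {p : ℕ} (hp : 0 < p)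
    (hE : (E p).card ≤ K) : (Fb w i j E p).card ≤ K + 2 := by
  classical
  have hsub : Fb w i j E p ⊆ E p ∪ ((range p).filter (fun c => p ∣ c + i) ∪
      (range p).filter (fun c => p ∣ c + j)) := by
    intro c hc
    rw [mem_Fb] at hc
    rw [mem_union, mem_union, mem_filter, mem_filter, mem_range]
    rcases hc.2 with h | h | h
    · exact Or.inl h.2
    · exact Or.inr (Or.inl ⟨hc.1, h⟩)
    · exact Or.inr (Or.inr ⟨hc.1, h⟩)
  refine (card_le_card hsub).trans ((card_union_le _ _).trans ?_)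
  have h1 := card_union_le ((range p).filter (fun c => p ∣ c + i))
    ((range p).filter (fun c => p ∣ c + j))
  have h2 := card_dvd_le hp i
  have h3 := card_dvd_le hp j
  omega

theorem card_Fb_eq {w : ℝ} {i j : ℕ} {E : ℕ → Finset ℕ} {p : ℕ} (hw : w ≤ p) (hp : 0 < p)
    (hi : i < p) (hj : j < p) (hij : i ≠ j) : (Fb w i j E p).card = 2 := by
  classical
  have hmem : ∀ s : ℕ, s < p → (p - s) % p ∈ (range p).filter (fun c => p ∣ c + s) := by
    intro s hs
    rw [mem_filter, mem_range]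
    refine ⟨Nat.mod_lt _ hp, ?_⟩
    apply Nat.dvd_of_mod_eq_zero
    rw [Nat.mod_add_mod, Nat.sub_add_cancel hs.le, Nat.mod_self]
  have hone : ∀ s : ℕ, s < p → (range p).filter (fun c => p ∣ c + s) = {(p - s) % p} := by
    intro s hs
    have h1 := card_dvd_le hp s
    have h2 := hmem s hs
    exact (eq_singleton_iff_unique_mem).2 ⟨h2, fun x hx => (card_le_one.1 h1) x hx _ h2⟩
  have hne : (p - i) % p ≠ (p - j) % p := by
    intro h
    have h1 := hmem i hi
    have h2 := hmem j hj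
    rw [mem_filter] at h1 h2
    rw [h] at h1
    have h3 : (p - j) % p + i ≡ (p - j) % p + j [MOD p] :=
      ((Nat.modEq_zero_iff_dvd).2 h1.2).trans ((Nat.modEq_zero_iff_dvd).2 h2.2).symm
    exact hij (Nat.ModEq.eq_of_lt_of_lt (Nat.ModEq.add_left_cancel' _ h3) hi hj)
  have heq : Fb w i j E p = {(p - i) % p, (p - j) % p} := by
    have e1 : Fb w i j E p = (range p).filter (fun c => p ∣ c + i) ∪
        (range p).filter (fun c => p ∣ c + j) := by
      ext c
      rw [mem_Fb, mem_union, mem_filter, mem_filter, mem_range]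
      constructor
      · rintro ⟨h0, h | h | h⟩
        · exact absurd h.1 (not_lt.2 hw)
        · exact Or.inl ⟨h0, h⟩
        · exact Or.inr ⟨h0, h⟩
      · rintro (⟨h0, h⟩ | ⟨h0, h⟩)
        · exact ⟨h0, Or.inr (Or.inl h)⟩
        · exact ⟨h0, Or.inr (Or.inr h)⟩
    rw [e1, hone i hi, hone j hj]
    rfl
  rw [heq, card_pair hne]

/-- the density -/
noncomputable def gg (w : ℝ) (i j : ℕ) (E : ℕ → Finset ℕ) (p : ℕ) : ℝ :=
  (((Fb w i j E p).card : ℝ) - 1) / ((p : ℝ) - 1)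

theorem gg_eq {w : ℝ} {i j : ℕ} {E : ℕ → Finset ℕ} {s p : ℕ} (hp : p.Prime)
    (hs : s = i ∨ s = j) :
    gg w i j E p = ((cl w i j E s p).card : ℝ) / ((p : ℝ) - 1) := by
  unfold gg
  rw [← card_cl (w := w) (E := E) hp hs]
  push_cast
  ring

theorem Dg_gg {w : ℝ} {i j K z : ℕ} {E : ℕ → Finset ℕ} (hi : i ≤ z) (hj : j ≤ z) (hij : i ≠ j)
    (hzw : (z : ℝ) < w) (hE : ∀ p : ℕ, p.Prime → z < p → (E p).card ≤ K) :
    Dg (K + 1) z w 1 (gg w i j E) := by
  constructor
  · intro p hp hzp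
    have h1 : (0 : ℝ) < (p : ℝ) - 1 := by
      have : (1 : ℝ) < p := by exact_mod_cast hp.one_lt
      linarith
    have h2 := card_Fb_le (w := w) (i := i) (j := j) hp.pos (hE p hp hzp)
    rw [gg_eq hp (Or.inl rfl)]
    constructor
    · positivity
    · apply div_le_div_of_nonneg_right _ h1.le
      have h3 := card_cl (w := w) (E := E) (i := i) (j := j) (s := i) hp (Or.inl rfl)
      have h4 : (cl w i j E i p).card ≤ K + 1 := by omega
      exact_mod_cast h4
  · intro p hp hwp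
    have hzp : z < p := by exact_mod_cast hzw.trans_le hwp
    rw [if_neg (fun h => hp.one_lt.ne' (Nat.dvd_one.1 h))]
    unfold gg
    rw [card_Fb_eq hwp hp.pos (hi.trans_lt hzp) (hj.trans_lt hzp) hij]
    norm_num

end Pool.Agent.KS6_51.CH
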