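import Pool.Agent.KS6_51.CH9

/-!
# Chen's theorem for tuples
-/

set_option autoImplicit false

namespace Pool.Agent.KS6_51.CH

open Finset Filter

/-- the number of prime factors of a number without small prime factors -/
theorem length_le {y : ℝ} (hy : 1 ≤ y) : ∀ (l : List ℕ), (∀ p ∈ l, y ≤ (p : ℝ)) →
    y ^ l.length ≤ (l.prod : ℝ)
  | [], _ => by simp
  | a :: l, h => by
    have h1 := length_le hy l (fun p hp => h p (List.mem_cons_of_mem _ hp))
    have h2 := h a (List.mem_cons_self ..)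
    rw [List.length_cons, List.prod_cons, pow_succ, Nat.cast_mul, mul_comm]
    exact mul_le_mul h2 h1 (by positivity) (by linarith)

theorem length_le' {X n r : ℕ} {δ : ℝ} (hδ : 0 < δ) (hX : 2 ≤ X) (hn : 0 < n) (hnX : n ≤ X ^ 2)
    (hr : 2 / δ ≤ r) (h : ∀ p : ℕ, p.Prime → p ∣ n → (X : ℝ) ^ δ ≤ p) :
    n.primeFactorsList.length ≤ r := by
  have hXr : (1 : ℝ) < X := by exact_mod_cast (by omega : 1 < X)
  have hy : 1 ≤ (X : ℝ) ^ δ := Real.one_le_rpow hXr.le hδ.le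
  have h1 := length_le hy n.primeFactorsList (fun p hp =>
    h p (Nat.prime_of_mem_primeFactorsList hp) (Nat.dvd_of_mem_primeFactorsList hp))
  rw [Nat.prod_primeFactorsList hn.ne'] at h1
  by_contra hlt
  push Not at hlt
  have h2 : (X : ℝ) ^ (2 : ℝ) < ((X : ℝ) ^ δ) ^ n.primeFactorsList.length := by
    rw [← Real.rpow_natCast, ← Real.rpow_mul (by linarith)]
    apply Real.rpow_lt_rpow_of_exponent_lt hXr
    have h3 : (r : ℝ) < n.primeFactorsList.length := by exact_mod_cast hlt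
    rw [div_le_iff₀ hδ] at hr
    nlinarith
  have h3 : (n : ℝ) ≤ (X : ℝ) ^ (2 : ℝ) := by
    rw [Real.rpow_two]
    exact_mod_cast hnX
  linarith

open Classical in
/-- the classes modulo `p` of the zeros of the `n + h`, `h ∈ H` -/
noncomputable def zer (H : Finset ℕ) (p : ℕ) : Finset ℕ :=
  (range p).filter (fun c => ∃ h ∈ H, p ∣ c + h)

theorem mem_zer {H : Finset ℕ} {p c : ℕ} : c ∈ zer H p ↔ c < p ∧ ∃ h ∈ H, p ∣ c + h := by
  unfold zer
  rw [mem_filter, mem_range]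

theorem mod_mem_zer {H : Finset ℕ} {p n : ℕ} (hp : 0 < p) :
    n % p ∈ zer H p ↔ ∃ h ∈ H, p ∣ n + h := by
  rw [mem_zer]
  have h1 : ∀ r : ℕ, (p ∣ n % p + r ↔ p ∣ n + r) := by
    intro r
    rw [Nat.dvd_iff_mod_eq_zero, Nat.dvd_iff_mod_eq_zero, Nat.mod_add_mod]
  simp only [h1]
  exact ⟨fun h => h.2, fun h => ⟨Nat.mod_lt _ hp, h⟩⟩

theorem card_zer (H : Finset ℕ) {p : ℕ} (hp : 0 < p) : (zer H p).card ≤ H.card := by
  classical
  have hsub : zer H p ⊆ H.biUnion (fun h => (range p).filter (fun c => p ∣ c + h)) := by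
    intro c hc
    rw [mem_zer] at hc
    obtain ⟨h1, h, h2, h3⟩ := hc
    rw [mem_biUnion]
    exact ⟨h, h2, mem_filter.2 ⟨mem_range.2 h1, h3⟩⟩
  refine (card_le_card hsub).trans (card_biUnion_le.trans ?_)
  calc ∑ h ∈ H, ((range p).filter (fun c => p ∣ c + h)).card ≤ ∑ _h ∈ H, 1 :=
        sum_le_sum fun h _ => card_dvd_le hp h
    _ = H.card := by simp

open Classical in
/-- the integers `n` in `(X, 2 X]` such that `n + i` is a prime, `n + j` is the product of at most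
two primes, not smaller than `X ^ (1 / 9)`, every `n + h` with `h ∈ H` is the product of at
most `r` primes, not smaller than `X ^ (1 / r)`, and `n` belongs to no class of `E p`
modulo `p` for the primes `p < X ^ (1 / r)` -/
noncomputable def Tup (H : Finset ℕ) (i j r X : ℕ) (E : ℕ → Finset ℕ) : Finset ℕ :=
  (Ioc X (2 * X)).filter (fun n => (n + i).Prime ∧ (n + j).primeFactorsList.length ≤ 2 ∧
    (∀ p : ℕ, p.Prime → p ∣ n + j → (X : ℝ) ^ (1 / 9 : ℝ) ≤ p) ∧
    (∀ h ∈ H, (n + h).primeFactorsList.length ≤ r ∧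
      ∀ p : ℕ, p.Prime → p ∣ n + h → (X : ℝ) ^ (1 / (r : ℝ)) ≤ p) ∧
    ∀ p : ℕ, p.Prime → (p : ℝ) < (X : ℝ) ^ (1 / (r : ℝ)) → n % p ∉ E p)

theorem tuples (H : Finset ℕ) (i j : ℕ) (hi : i ∈ H) (hj : j ∈ H) (hij : i ≠ j) (m : ℕ) :
    ∃ z₀ : ℕ, ∀ z : ℕ, z₀ ≤ z → ∃ r₀ : ℕ, ∃ c : ℝ, 0 < c ∧ ∀ r : ℕ, r₀ ≤ r → ∃ X₀ : ℕ,
    ∀ X : ℕ, X₀ ≤ X → ∀ E : ℕ → Finset ℕ, (∀ p : ℕ, p.Prime → z < p → (E p).card ≤ m) →
    (∀ p : ℕ, p.Prime → p ≤ z → ∃ a : ℕ, a % p ∉ E p ∧ ∀ h ∈ H, ¬ p ∣ a + h) →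
    c * (X / Real.log X ^ (H.card + m)) ≤ ((Tup H i j r X E).card : ℝ) := by
  classical
  have hcard : 2 ≤ H.card := by
    have h1 : ({i, j} : Finset ℕ) ⊆ H := by
      intro x hx
      rw [mem_insert, mem_singleton] at hx
      rcases hx with rfl | rfl
      · exact hi
      · exact hj
    have h2 := card_le_card h1
    rwa [card_pair hij] at h2
  set H' := (H.erase i).erase j with hH'
  have hc' : H'.card = H.card - 2 := by
    rw [hH', card_erase_of_mem (mem_erase.2 ⟨hij.symm, hj⟩), card_erase_of_mem hi]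
    omega
  obtain ⟨z₀, hz₀⟩ := chen (m + (H.card - 2)) i j hij
  refine ⟨z₀, fun z hz => ?_⟩
  obtain ⟨δ, c, X₀, hδ, hc, h⟩ := hz₀ z hz
  refine ⟨max (⌈2 / δ⌉₊) 9, c, hc, ?_⟩
  intro r hr
  refine ⟨max (max X₀ (z + 3)) (H.sup id + 3), ?_⟩
  intro X hX E hE hA
  rw [max_le_iff, max_le_iff] at hX
  obtain ⟨⟨hX0, hXz⟩, hXH⟩ := hX
  have hr9 : 9 ≤ r := (le_max_right _ _).trans hr
  have hrδ : 2 / δ ≤ r := (Nat.le_ceil _).trans (by exact_mod_cast (le_max_left _ _).trans hr)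
  have hrr : (9 : ℝ) ≤ r := by exact_mod_cast hr9
  have hXr : (1 : ℝ) ≤ X := by exact_mod_cast (by omega : 1 ≤ X)
  have hHX : ∀ h ∈ H, h + 3 ≤ X := by
    intro h hh
    have : h ≤ H.sup id := le_sup (f := id) hh
    omega
  have key := h X hX0 (fun p => E p ∪ zer H' p) (by
    intro p hp hzp
    refine (card_union_le _ _).trans (add_le_add (hE p hp hzp) ?_)
    rw [← hc']
    exact card_zer _ hp.pos) (by
    intro p hp hpz
    obtain ⟨a, ha1, ha2⟩ := hA p hp hpz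
    refine ⟨a, ?_, ha2 i hi, ha2 j hj⟩
    rw [mem_union]
    rintro (h1 | h1)
    · exact ha1 h1
    · obtain ⟨s, hs, hd⟩ := (mod_mem_zer hp.pos).1 h1
      exact ha2 s (mem_of_mem_erase (mem_of_mem_erase hs)) hd)
  have he : m + (H.card - 2) + 2 = H.card + m := by omega
  rw [he] at key
  refine key.trans ?_
  have hdr : (X : ℝ) ^ (1 / (r : ℝ)) ≤ (X : ℝ) ^ δ := by
    apply Real.rpow_le_rpow_of_exponent_le hXr
    rw [div_le_iff₀ hδ] at hrδ
    rw [div_le_iff₀ (by linarith)]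
    linarith
  have hd9 : (X : ℝ) ^ (1 / (r : ℝ)) ≤ (X : ℝ) ^ (1 / 9 : ℝ) := by
    apply Real.rpow_le_rpow_of_exponent_le hXr
    exact one_div_le_one_div_of_le (by norm_num) hrr
  have hX1 : (X : ℝ) ^ (1 / (r : ℝ)) ≤ (X : ℝ) := by
    have : (X : ℝ) ^ (1 / (r : ℝ)) ≤ (X : ℝ) ^ (1 : ℝ) := by
      apply Real.rpow_le_rpow_of_exponent_le hXr
      rw [div_le_one (by linarith)]
      linarith
    rwa [Real.rpow_one] at this
  have hsub : Good X i j δ (fun p => E p ∪ zer H' p) ⊆ Tup H i j r X E := by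
    intro n hn
    unfold Good at hn
    rw [mem_filter, mem_Ioc] at hn
    obtain ⟨⟨hn1, hn2⟩, hpr, hlen, h9, hsf⟩ := hn
    unfold Tup
    rw [mem_filter, mem_Ioc]
    have hsf1 : ∀ p : ℕ, p.Prime → (p : ℝ) < (X : ℝ) ^ δ → n % p ∉ E p ∧ n % p ∉ zer H' p := by
      intro p hp hpX
      have := hsf p hp hpX
      rw [mem_union, not_or] at this
      exact this
    refine ⟨⟨hn1, hn2⟩, hpr, hlen, h9, ?_, ?_⟩
    · intro s hs
      rcases eq_or_ne s i with rfl | hsi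
      · refine ⟨?_, ?_⟩
        · rw [Nat.primeFactorsList_prime hpr]
          simp only [List.length_cons, List.length_nil]
          omega
        · intro p hp hd
          rw [(Nat.prime_dvd_prime_iff_eq hp hpr).1 hd]
          refine hX1.trans ?_
          exact_mod_cast (by omega : X ≤ n + s)
      rcases eq_or_ne s j with rfl | hsj
      · exact ⟨by omega, fun p hp hd => hd9.trans (h9 p hp hd)⟩
      · have hpf : ∀ p : ℕ, p.Prime → p ∣ n + s → (X : ℝ) ^ δ ≤ p := by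
          intro p hp hd
          by_contra hlt
          push Not at hlt
          apply (hsf1 p hp hlt).2
          rw [mod_mem_zer hp.pos]
          exact ⟨s, mem_erase.2 ⟨hsj, mem_erase.2 ⟨hsi, hs⟩⟩, hd⟩
        have h3 := hHX s hs
        refine ⟨length_le' hδ (by omega) (by omega) ?_ hrδ hpf, fun p hp hd => hdr.trans (hpf p hp hd)⟩
        nlinarith
    · intro p hp hpX
      exact (hsf1 p hp (hpX.trans_le hdr)).1
  exact_mod_cast card_le_card hsub

end Pool.Agent.KS6_51.CH
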