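import Pool.Agent.KS6_51.CH1

/-!
# Chen's theorem inside sifted sets, part 2: the remainders
-/

set_option autoImplicit false

namespace Pool.Agent.KS6_51.CH

open Finset Pool.Agent.W23.DC Pool.Agent.Y660.RP Pool.Agent.Y843.CH

open Classical in
/-- the sifted number attached to `n` -/
noncomputable def vv (N z : ℕ) (ε : ℝ) (E : ℕ → Finset ℕ) (t n : ℕ) : ℕ :=
  (n + t) * ∏ p ∈ (P1 N z ε).filter (fun p => n % p ∈ E p), p

theorem dvd_vv {N z : ℕ} {ε : ℝ} {E : ℕ → Finset ℕ} {t n p : ℕ} (hp : p.Prime) :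
    p ∣ vv N z ε E t n ↔ p ∣ n + t ∨ (p ∈ P1 N z ε ∧ n % p ∈ E p) := by
  classical
  unfold vv
  rw [hp.dvd_mul, hp.prime.dvd_finsetProd_iff]
  constructor
  · rintro (h | ⟨q, hq, hd⟩)
    · exact Or.inl h
    · rw [mem_filter] at hq
      have hqp : q.Prime := (mem_P1.1 hq.1).2.1
      have e : p = q := (Nat.prime_dvd_prime_iff_eq hp hqp).1 hd
      rw [e]
      exact Or.inr hq
  · rintro (h | h)
    · exact Or.inl h
    · exact Or.inr ⟨p, mem_filter.2 h, dvd_rfl⟩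

theorem mem_P1_iff {N z : ℕ} {ε : ℝ} (hN : 1 ≤ N) (hε : ε ≤ 1) {p : ℕ} (hp : p.Prime)
    (hzp : z < p) : p ∈ P1 N z ε ↔ (p : ℝ) < (N : ℝ) ^ ε := by
  rw [mem_P1]
  constructor
  · exact fun h => h.2.2
  · intro h
    refine ⟨⟨hzp, ?_⟩, hp, h⟩
    have h1 : (N : ℝ) ^ ε ≤ (N : ℝ) ^ (1 : ℝ) :=
      Real.rpow_le_rpow_of_exponent_le (by exact_mod_cast hN) hε
    rw [Real.rpow_one] at h1
    exact_mod_cast (h.le.trans h1)

theorem dvd_vv_iff {N z i j s t : ℕ} {ε : ℝ} {E : ℕ → Finset ℕ} (hN : 1 ≤ N) (hε : ε ≤ 1)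
    (hst : (s = i ∧ t = j) ∨ (s = j ∧ t = i)) {n p : ℕ} (hp : p.Prime) (hzp : z < p)
    (hs : ¬ p ∣ n + s) :
    p ∣ vv N z ε E t n ↔ n % p ∈ Fb ((N : ℝ) ^ ε) i j E p := by
  rw [dvd_vv hp, mem_P1_iff hN hε hp hzp, mem_Fb]
  have h1 : ∀ r : ℕ, (p ∣ n % p + r ↔ p ∣ n + r) := by
    intro r
    rw [Nat.dvd_iff_mod_eq_zero, Nat.dvd_iff_mod_eq_zero, Nat.mod_add_mod]
  rw [h1, h1]
  have h2 : n % p < p := Nat.mod_lt _ hp.pos
  rcases hst with ⟨rfl, rfl⟩ | ⟨rfl, rfl⟩ <;> tauto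

/-- the condition which connects the divisibility with the classes -/
def Sep {ι : Type} (Ω : Finset ι) (nn v : ι → ℕ) (z s : ℕ) (D : ℝ) : Prop :=
  ∀ x ∈ Ω, ∀ p : ℕ, p.Prime → z < p → (p : ℝ) ≤ D → p ∣ v x → ¬ p ∣ nn x + s

theorem rr_bound {ι : Type} {N z i j s t K : ℕ} {ε D : ℝ} {E : ℕ → Finset ℕ} (hN : 1 ≤ N)
    (hε : ε ≤ 1) (hst : (s = i ∧ t = j) ∨ (s = j ∧ t = i))
    (hE : ∀ p : ℕ, p.Prime → z < p → (E p).card ≤ K) (hD : 0 ≤ D)
    (Ω : Finset ι) (nn : ι → ℕ)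
    (hsep : Sep Ω nn (fun x => vv N z ε E t (nn x)) z s D) (m₀ a : ℕ) (hm₀ : 0 < m₀)
    (ha : (a + s).Coprime m₀) (hm₀z : ∀ p : ℕ, p.Prime → p ∣ m₀ → p ≤ z) (T : ℝ)
    {d : ℕ} (hd : d ∈ Lv' z D) (Er : ℝ) (hEr : 0 ≤ Er)
    (hc : ∀ c : ℕ, c < m₀ * d → c.Coprime (m₀ * d) →
      |((Ω.filter (fun x => nn x + s ≡ c [MOD (m₀ * d)])).card : ℝ) -
        T / (Nat.totient (m₀ * d) : ℝ)| ≤ Er) :
    Rr (Ω.filter (fun x => nn x ≡ a [MOD m₀])) (fun x => vv N z ε E t (nn x))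
      (gg ((N : ℝ) ^ ε) i j E) (T / (Nat.totient m₀ : ℝ)) d ≤
      ((K + 1 : ℕ) : ℝ) ^ d.primeFactors.card * Er := by
  classical
  unfold Lv' at hd
  rw [mem_filter, mem_Icc] at hd
  obtain ⟨⟨hd1, hdD⟩, hsq, hpf⟩ := hd
  have hdD' : (d : ℝ) ≤ D := (Nat.cast_le.2 hdD).trans (Nat.floor_le hD)
  have hprod : ∏ p ∈ d.primeFactors, p = d := Nat.prod_primeFactors_of_squarefree hsq
  have hs' : s = i ∨ s = j := by
    rcases hst with h | h
    · exact Or.inl h.1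
    · exact Or.inr h.1
  have key := cls Ω (fun x => nn x + s) d.primeFactors (fun p hp => Nat.prime_of_mem_primeFactors hp)
    (cl ((N : ℝ) ^ ε) i j E s) (by
      intro p hp c hc
      rw [mem_cl] at hc
      exact ⟨hc.1, hc.2.1⟩) m₀ (a + s) hm₀ ha (by
      intro p hp hpd
      have h1 := hpf p hp
      have h2 := hm₀z p (Nat.prime_of_mem_primeFactors hp) hpd
      omega) T Er (by
      rw [hprod]
      exact hc)
  have hfil : (Ω.filter (fun x => nn x ≡ a [MOD m₀])).filter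
      (fun x => d ∣ vv N z ε E t (nn x)) =
      Ω.filter (fun x => nn x + s ≡ a + s [MOD m₀] ∧
        ∀ p ∈ d.primeFactors, (nn x + s) % p ∈ cl ((N : ℝ) ^ ε) i j E s p) := by
    ext x
    rw [mem_filter, mem_filter, mem_filter]
    have hiff : x ∈ Ω → (d ∣ vv N z ε E t (nn x) ↔
        ∀ p ∈ d.primeFactors, (nn x + s) % p ∈ cl ((N : ℝ) ^ ε) i j E s p) := by
      intro hx
      have h1 : d ∣ vv N z ε E t (nn x) ↔ ∀ p ∈ d.primeFactors, p ∣ vv N z ε E t (nn x) := by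
        constructor
        · intro h p hp
          exact (Nat.dvd_of_mem_primeFactors hp).trans h
        · intro h
          rw [← hprod]
          exact Finset.prod_primes_dvd _ (fun p hp => (Nat.prime_of_mem_primeFactors hp).prime) h
      rw [h1]
      refine forall₂_congr fun p hp => ?_
      have hpp := Nat.prime_of_mem_primeFactors hp
      have hzp := hpf p hp
      have hpD : (p : ℝ) ≤ D := by
        refine le_trans ?_ hdD'
        exact_mod_cast Nat.le_of_dvd hd1 (Nat.dvd_of_mem_primeFactors hp)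
      rw [mod_mem_cl hpp.pos]
      constructor
      · intro h
        have h2 := hsep x hx p hpp hzp hpD h
        exact ⟨h2, (dvd_vv_iff hN hε hst hpp hzp h2).1 h⟩
      · rintro ⟨h2, h3⟩
        exact (dvd_vv_iff hN hε hst hpp hzp h2).2 h3
    have hadd : nn x ≡ a [MOD m₀] ↔ nn x + s ≡ a + s [MOD m₀] :=
      ⟨fun h => h.add_right s, fun h => Nat.ModEq.add_right_cancel' _ h⟩
    constructor
    · rintro ⟨⟨h1, h2⟩, h3⟩
      exact ⟨h1, hadd.1 h2, (hiff h1).1 h3⟩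
    · rintro ⟨h1, h2, h3⟩
      exact ⟨⟨h1, hadd.2 h2⟩, (hiff h1).2 h3⟩
  have hgp : gp (gg ((N : ℝ) ^ ε) i j E) d =
      ∏ p ∈ d.primeFactors, (((cl ((N : ℝ) ^ ε) i j E s p).card : ℝ) / ((p : ℝ) - 1)) := by
    unfold gp
    exact prod_congr rfl fun p hp => gg_eq (Nat.prime_of_mem_primeFactors hp) hs'
  unfold Rr
  rw [hfil, hgp]
  refine key.trans ?_
  apply mul_le_mul_of_nonneg_right _ hEr
  calc ∏ p ∈ d.primeFactors, ((cl ((N : ℝ) ^ ε) i j E s p).card : ℝ)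
      ≤ ∏ _p ∈ d.primeFactors, ((K + 1 : ℕ) : ℝ) := by
        apply prod_le_prod
        · intro p _
          positivity
        · intro p hp
          have hpp := Nat.prime_of_mem_primeFactors hp
          have h3 := card_cl (w := (N : ℝ) ^ ε) (E := E) (i := i) (j := j) (s := s) hpp hs'
          have h2 := card_Fb_le (w := (N : ℝ) ^ ε) (i := i) (j := j) hpp.pos
            (hE p hpp (hpf p hp))
          have h4 : (cl ((N : ℝ) ^ ε) i j E s p).card ≤ K + 1 := by omega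
          exact_mod_cast h4
    _ = ((K + 1 : ℕ) : ℝ) ^ d.primeFactors.card := by rw [prod_const]

end Pool.Agent.KS6_51.CH
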