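import Pool.Agent.KS6_51.CH2

/-!
# Chen's theorem inside sifted sets, part 3: the remainders of the first sequence
-/

set_option autoImplicit false

namespace Pool.Agent.KS6_51.CH

open Finset Pool.Agent.W23.DC Pool.Agent.Y660.RP Pool.Agent.Y843.CH
open Pool.Agent.TH423.SH.PSUa (ee ee_nonneg FF FF_le_ee)

/-- the integers `n` with `n + i` prime -/
def Om1 (X i : ℕ) : Finset ℕ := (Ioc X (2 * X)).filter (fun n => (n + i).Prime)

theorem mem_Om1 {X i n : ℕ} : n ∈ Om1 X i ↔ (X < n ∧ n ≤ 2 * X) ∧ (n + i).Prime := by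
  unfold Om1
  rw [mem_filter, mem_Ioc]

theorem card_Om1_mod (X i M c : ℕ) :
    (((Om1 X i).filter (fun n => n + i ≡ c [MOD M])).card : ℝ) =
      H343E.piAP (2 * X + i) M c - H343E.piAP (X + i) M c := by
  classical
  unfold H343E.piAP
  rw [eq_sub_iff_add_eq]
  have h1 : ((Om1 X i).filter (fun n => n + i ≡ c [MOD M])).card =
      ((Ioc (X + i) (2 * X + i)).filter (fun p => p.Prime ∧ p ≡ c [MOD M])).card := by
    apply card_bij (fun n _ => n + i)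
    · intro n hn
      rw [mem_filter, mem_Om1] at hn
      rw [mem_filter, mem_Ioc]
      exact ⟨by omega, hn.1.2, hn.2⟩
    · intro a _ b _ h
      omega
    · intro b hb
      rw [mem_filter, mem_Ioc] at hb
      refine ⟨b - i, ?_, by omega⟩
      rw [mem_filter, mem_Om1]
      have e : b - i + i = b := by omega
      rw [e]
      exact ⟨⟨by omega, hb.2.1⟩, hb.2.2⟩
  rw [h1]
  have h2 : (Icc 1 (2 * X + i)).filter (fun p => p.Prime ∧ p ≡ c [MOD M]) =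
      (Ioc (X + i) (2 * X + i)).filter (fun p => p.Prime ∧ p ≡ c [MOD M]) ∪
      (Icc 1 (X + i)).filter (fun p => p.Prime ∧ p ≡ c [MOD M]) := by
    ext p
    simp only [mem_union, mem_filter, mem_Icc, mem_Ioc]
    constructor
    · rintro ⟨h, h'⟩
      by_cases hp : p ≤ X + i
      · exact Or.inr ⟨⟨h.1, hp⟩, h'⟩
      · exact Or.inl ⟨⟨by omega, h.2⟩, h'⟩
    · rintro (⟨h, h'⟩ | ⟨h, h'⟩)
      · exact ⟨⟨by omega, h.2⟩, h'⟩
      · exact ⟨⟨h.1, by omega⟩, h'⟩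
  rw [h2, card_union_of_disjoint]
  · push_cast
    ring
  · rw [disjoint_left]
    intro p hp hp'
    rw [mem_filter, mem_Ioc] at hp
    rw [mem_filter, mem_Icc] at hp'
    omega

theorem card_Om1 (X i : ℕ) :
    ((Om1 X i).card : ℝ) = H343E.pi1 (2 * X + i) - H343E.pi1 (X + i) := by
  have h := card_Om1_mod X i 1 0
  have h1 : (Om1 X i).filter (fun n => n + i ≡ 0 [MOD 1]) = Om1 X i := by
    apply filter_true_of_mem
    intro n _
    exact Nat.modEq_one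
  have h2 : ∀ x : ℕ, H343E.piAP x 1 0 = H343E.pi1 x := by
    intro x
    unfold H343E.piAP H343E.pi1
    congr 2
    apply filter_congr
    intro p _
    exact ⟨fun h => h.1, fun h => ⟨h, Nat.modEq_one⟩⟩
  rw [h1, h2, h2] at h
  exact h

theorem Om1_err (X i M c : ℕ) (hc : c < M) (hcop : c.Coprime M) :
    |(((Om1 X i).filter (fun n => n + i ≡ c [MOD M])).card : ℝ) -
      ((Om1 X i).card : ℝ) / (Nat.totient M : ℝ)| ≤ ee (2 * X + i) M + ee (X + i) M := by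
  rw [card_Om1_mod, card_Om1]
  have h1 := FF_le_ee (2 * X + i) M c hc hcop
  have h2 := FF_le_ee (X + i) M c hc hcop
  unfold FF at h1 h2
  have e : H343E.piAP (2 * X + i) M c - H343E.piAP (X + i) M c -
      (H343E.pi1 (2 * X + i) - H343E.pi1 (X + i)) / (Nat.totient M : ℝ) =
      (H343E.piAP (2 * X + i) M c - H343E.pi1 (2 * X + i) / (Nat.totient M : ℝ)) -
      (H343E.piAP (X + i) M c - H343E.pi1 (X + i) / (Nat.totient M : ℝ)) := by ring
  rw [e]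
  exact (abs_sub _ _).trans (add_le_add h1 h2)

theorem rpow_999 {N X v : ℕ} (h1 : N ^ 2 ≤ X) (h2 : X ≤ v) :
    (N : ℝ) ^ (999 / 1000 : ℝ) ≤ (v : ℝ) ^ (4995 / 10000 : ℝ) := by
  have hN : (0 : ℝ) ≤ N := Nat.cast_nonneg _
  have e : (N : ℝ) ^ (999 / 1000 : ℝ) = ((N : ℝ) ^ (2 : ℕ)) ^ (4995 / 10000 : ℝ) := by
    rw [← Real.rpow_natCast, ← Real.rpow_mul hN]
    norm_num
  rw [e]
  apply Real.rpow_le_rpow (by positivity) _ (by norm_num)
  exact_mod_cast h1.trans h2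

theorem sum_inj (κ m₀ z Q : ℕ) (D : ℝ) (hm₀ : 0 < m₀) (hκ : 1 ≤ κ)
    (hD : (m₀ : ℝ) * D ≤ Q) (hD0 : 0 ≤ D) (f : ℕ → ℝ) (hf : ∀ q, 0 ≤ f q) :
    ∑ d ∈ Lv' z D, (κ : ℝ) ^ d.primeFactors.card * f (m₀ * d) ≤
      ∑ q ∈ Icc 1 Q, (κ : ℝ) ^ q.primeFactors.card * f q := by
  classical
  have hκ' : (1 : ℝ) ≤ κ := by exact_mod_cast hκ
  have hmem : ∀ d ∈ Lv' z D, 1 ≤ d ∧ (d : ℝ) ≤ D := by
    intro d hd
    unfold Lv' at hd
    rw [mem_filter, mem_Icc] at hd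
    exact ⟨hd.1.1, (Nat.cast_le.2 hd.1.2).trans (Nat.floor_le hD0)⟩
  calc ∑ d ∈ Lv' z D, (κ : ℝ) ^ d.primeFactors.card * f (m₀ * d)
      ≤ ∑ d ∈ Lv' z D, (κ : ℝ) ^ (m₀ * d).primeFactors.card * f (m₀ * d) := by
        apply sum_le_sum
        intro d hd
        apply mul_le_mul_of_nonneg_right _ (hf _)
        apply pow_le_pow_right₀ hκ'
        apply card_le_card
        have hd1 := (hmem d hd).1
        exact Nat.primeFactors_mono (dvd_mul_left _ _) (Nat.mul_pos hm₀ hd1).ne'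
    _ = ∑ q ∈ (Lv' z D).image (fun d => m₀ * d), (κ : ℝ) ^ q.primeFactors.card * f q := by
        rw [sum_image]
        intro a _ b _ h
        exact Nat.eq_of_mul_eq_mul_left hm₀ h
    _ ≤ _ := by
        apply sum_le_sum_of_subset_of_nonneg
        · intro q hq
          obtain ⟨d, hd, rfl⟩ := mem_image.1 hq
          obtain ⟨h1, h2⟩ := hmem d hd
          rw [mem_Icc]
          refine ⟨Nat.mul_pos hm₀ h1, ?_⟩
          have h3 : ((m₀ * d : ℕ) : ℝ) ≤ Q := by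
            push_cast
            exact (mul_le_mul_of_nonneg_left h2 (Nat.cast_nonneg _)).trans hD
          exact_mod_cast h3
        · intro q _ _
          exact mul_nonneg (by positivity) (hf q)

theorem first_rem (K i m₀ U : ℕ) (hm₀ : 0 < m₀) : ∃ X₀ : ℕ, ∀ X : ℕ, X₀ ≤ X → ∀ N : ℕ, 1 ≤ N →
    N ^ 2 ≤ X → ∀ (z j : ℕ) (ε : ℝ) (E : ℕ → Finset ℕ) (a : ℕ), ε ≤ 1 →
    (∀ p : ℕ, p.Prime → z < p → (E p).card ≤ K) → (a + i).Coprime m₀ →
    (∀ p : ℕ, p.Prime → p ∣ m₀ → p ≤ z) →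
    ∑ d ∈ Lv' z ((N : ℝ) ^ (999 / 1000 : ℝ)),
      Rr ((Om1 X i).filter (fun n => n ≡ a [MOD m₀])) (fun n => vv N z ε E j n)
        (gg ((N : ℝ) ^ ε) i j E) (((Om1 X i).card : ℝ) / (Nat.totient m₀ : ℝ)) d ≤
      6 * X / Real.log X ^ U := by
  obtain ⟨X₀, hX₀⟩ := Pool.Agent.Y932.CH.bvw (2 * m₀) (K + 1) U (by omega)
  refine ⟨max X₀ (i + 3), ?_⟩
  intro X hX N hN hNX z j ε E a hε hE ha hz
  have hX0 : X₀ ≤ X := (le_max_left _ _).trans hX
  have hXi : i + 3 ≤ X := (le_max_right _ _).trans hX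
  set D := (N : ℝ) ^ (999 / 1000 : ℝ) with hD
  have hN1 : (1 : ℝ) ≤ N := by exact_mod_cast hN
  have hD1 : 1 ≤ D := Real.one_le_rpow hN1 (by norm_num)
  have hD0 : 0 ≤ D := by linarith
  have hDN : D ≤ N := by
    have : (N : ℝ) ^ (999 / 1000 : ℝ) ≤ (N : ℝ) ^ (1 : ℝ) :=
      Real.rpow_le_rpow_of_exponent_le hN1 (by norm_num)
    rwa [Real.rpow_one] at this
  have hsep : Sep (Om1 X i) (fun n => n) (fun n => vv N z ε E j n) z i D := by
    intro n hn p hp _ hpD _ hd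
    rw [mem_Om1] at hn
    have h1 : p = n + i := (Nat.prime_dvd_prime_iff_eq hp hn.2).1 hd
    have h2 : p ≤ N := by exact_mod_cast hpD.trans hDN
    have h3 : N ≤ N ^ 2 := Nat.le_self_pow (by norm_num) _
    omega
  have hb : ∀ d ∈ Lv' z D, Rr ((Om1 X i).filter (fun n => n ≡ a [MOD m₀]))
      (fun n => vv N z ε E j n) (gg ((N : ℝ) ^ ε) i j E)
      (((Om1 X i).card : ℝ) / (Nat.totient m₀ : ℝ)) d ≤
      ((K + 1 : ℕ) : ℝ) ^ d.primeFactors.card * (ee (2 * X + i) (m₀ * d) + ee (X + i) (m₀ * d)) := by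
    intro d hd
    exact rr_bound hN hε (Or.inl ⟨rfl, rfl⟩) hE hD0 (Om1 X i) (fun n => n) hsep m₀ a hm₀ ha hz
      ((Om1 X i).card : ℝ) hd _ (add_nonneg (ee_nonneg _ _) (ee_nonneg _ _))
      (fun c hc hcop => Om1_err X i (m₀ * d) c hc hcop)
  set v := 2 * X + i with hv
  have hvX : X ≤ v := by omega
  obtain ⟨Q, hQ⟩ : ∃ Q : ℕ, Q = ⌈(m₀ : ℝ) * D⌉₊ := ⟨_, rfl⟩
  have hQ1 : (m₀ : ℝ) * D ≤ Q := by rw [hQ]; exact Nat.le_ceil _
  have hm1 : (1 : ℝ) ≤ m₀ := by exact_mod_cast hm₀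
  have hQ2 : (Q : ℝ) ≤ ((2 * m₀ : ℕ) : ℝ) * (v : ℝ) ^ (4995 / 10000 : ℝ) := by
    have h1 : (Q : ℝ) < m₀ * D + 1 := by rw [hQ]; exact Nat.ceil_lt_add_one (by positivity)
    have h2 : D ≤ (v : ℝ) ^ (4995 / 10000 : ℝ) := rpow_999 hNX hvX
    have h3 : (1 : ℝ) ≤ m₀ * D := by nlinarith
    have h4 : (m₀ : ℝ) * D ≤ m₀ * (v : ℝ) ^ (4995 / 10000 : ℝ) :=
      mul_le_mul_of_nonneg_left h2 (by linarith)
    push_cast
    linarith
  have hk1 := hX₀ v (hX0.trans hvX) v le_rfl Q hQ2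
  have hk2 := hX₀ v (hX0.trans hvX) (X + i) (by omega) Q hQ2
  have hs1 := sum_inj (K + 1) m₀ z Q D hm₀ (by omega) hQ1 hD0 (ee v) (ee_nonneg v)
  have hs2 := sum_inj (K + 1) m₀ z Q D hm₀ (by omega) hQ1 hD0 (ee (X + i)) (ee_nonneg _)
  have hlog : 0 < Real.log X := Real.log_pos (by exact_mod_cast (by omega : 1 < X))
  have hlog' : Real.log X ^ U ≤ Real.log v ^ U := by
    apply pow_le_pow_left₀ hlog.le
    apply Real.log_le_log (by exact_mod_cast (by omega : 0 < X))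
    exact_mod_cast hvX
  have hv3 : (v : ℝ) / Real.log v ^ U ≤ 3 * X / Real.log X ^ U := by
    apply div_le_div₀ (by positivity) _ (by positivity) hlog'
    exact_mod_cast (by omega : v ≤ 3 * X)
  calc _ ≤ ∑ d ∈ Lv' z D, ((K + 1 : ℕ) : ℝ) ^ d.primeFactors.card *
        (ee v (m₀ * d) + ee (X + i) (m₀ * d)) := sum_le_sum hb
    _ = ∑ d ∈ Lv' z D, ((K + 1 : ℕ) : ℝ) ^ d.primeFactors.card * ee v (m₀ * d) +
        ∑ d ∈ Lv' z D, ((K + 1 : ℕ) : ℝ) ^ d.primeFactors.card * ee (X + i) (m₀ * d) := by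
        rw [← sum_add_distrib]
        exact sum_congr rfl fun d _ => by ring
    _ ≤ v / Real.log v ^ U + v / Real.log v ^ U :=
        add_le_add (hs1.trans hk1) (hs2.trans hk2)
    _ ≤ 3 * X / Real.log X ^ U + 3 * X / Real.log X ^ U := add_le_add hv3 hv3
    _ = 6 * X / Real.log X ^ U := by ring

end Pool.Agent.KS6_51.CH
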