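import Pool.Agent.KS6_51.CH3

/-!
# Chen's theorem inside sifted sets, part 4: the second sequence
-/

set_option autoImplicit false

namespace Pool.Agent.KS6_51.CH

open Finset Pool.Agent.W23.DC Pool.Agent.Y660.RP Pool.Agent.Y843.CH

/-! ### The worst residue class -/

theorem exists_worst (f : ℕ → ℝ) (M : ℕ) (hM : 0 < M) :
    ∃ c : ℕ, c < M ∧ c.Coprime M ∧ ∀ b : ℕ, b < M → b.Coprime M → f b ≤ f c := by
  classical
  have hne : ((range M).filter (fun a => a.Coprime M)).Nonempty := by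
    rcases Nat.lt_or_ge 1 M with h | h
    · exact ⟨1, by rw [mem_filter, mem_range]; exact ⟨h, Nat.coprime_one_left M⟩⟩
    · have : M = 1 := by omega
      subst this
      exact ⟨0, by rw [mem_filter, mem_range]; exact ⟨by norm_num, Nat.coprime_one_right 0⟩⟩
  obtain ⟨c, hc, h⟩ := exists_max_image _ f hne
  rw [mem_filter, mem_range] at hc
  exact ⟨c, hc.1, hc.2, fun b h1 h2 => h b (by rw [mem_filter, mem_range]; exact ⟨h1, h2⟩)⟩

/-- the deviation of a product set in a residue class -/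
noncomputable def dev (P T : Finset ℕ) (M c : ℕ) : ℝ :=
  |(((P ×ˢ T).filter (fun x => x.1 * x.2 ≡ c [MOD M])).card : ℝ) -
    ((P.card : ℝ) * T.card) / (Nat.totient M : ℝ)|

open Classical in
/-- the worst class -/
noncomputable def wc (P T : Finset ℕ) (M : ℕ) : ℕ :=
  if h : 0 < M then (exists_worst (dev P T M) M h).choose else 0

theorem wc_spec (P T : Finset ℕ) (M : ℕ) (hM : 0 < M) :
    (wc P T M).Coprime M ∧ ∀ b : ℕ, b < M → b.Coprime M → dev P T M b ≤ dev P T M (wc P T M) := by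
  unfold wc
  rw [dif_pos hM]
  have h := (exists_worst (dev P T M) M hM).choose_spec
  exact ⟨h.2.1, h.2.2⟩

theorem dev_nonneg (P T : Finset ℕ) (M c : ℕ) : 0 ≤ dev P T M c := abs_nonneg _

/-! ### The pieces -/

/-- the left end of a piece -/
noncomputable def M0 (N D t : ℕ) : ℕ :=
  max (⌈Real.exp (t / D)⌉₊ - 1) (⌈(N : ℝ) ^ (1 / 4 : ℝ)⌉₊ - 1)

/-- the right end of a piece -/
noncomputable def M1 (N D t : ℕ) : ℕ :=
  max (M0 N D t) (min (⌈Real.exp ((t + 1) / D)⌉₊ - 1) (⌈(N : ℝ) ^ (667 / 1000 : ℝ)⌉₊ - 1))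

/-- the primes of a piece -/
noncomputable def PP (N D t : ℕ) : Finset ℕ := (Ioc (M0 N D t) (M1 N D t)).filter Nat.Prime

open Classical in
/-- the products of two primes of a piece -/
noncomputable def TT (N D : ℕ) (a b : ℝ) (t : ℕ) : Finset ℕ :=
  (Icc 1 ⌊b / Real.exp (t / D)⌋₊).filter (fun m => ∃ p q : ℕ, p.Prime ∧ q.Prime ∧
    (N : ℝ) ^ (667 / 1000 : ℝ) ≤ p ∧ p ≤ q ∧ m = p * q ∧ a < Real.exp ((t + 1) / D) * m ∧
    Real.exp (t / D) * m ≤ b)

open Classical in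
/-- the relevant pieces -/
noncomputable def JJ (N D : ℕ) : Finset ℕ :=
  (range (⌊D * Real.log N⌋₊ + 1)).filter (fun t => (N : ℝ) ^ (1 / 4 : ℝ) ≤ Real.exp ((t + 1) / D) ∧
    Real.exp (t / D) < (N : ℝ) ^ (667 / 1000 : ℝ))

theorem lt_iff_ceil {x : ℝ} {p : ℕ} (hp : 0 < p) : ⌈x⌉₊ - 1 < p ↔ x ≤ p := by
  rw [← Nat.ceil_le]
  omega

theorem le_iff_ceil {x : ℝ} {p : ℕ} (hp : 0 < p) : p ≤ ⌈x⌉₊ - 1 ↔ (p : ℝ) < x := by
  rw [← Nat.lt_ceil]
  omega

theorem mem_PP {N D t p : ℕ} : p ∈ PP N D t ↔ p.Prime ∧ (Real.exp (t / D) ≤ p ∧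
    (p : ℝ) < Real.exp ((t + 1) / D)) ∧ (N : ℝ) ^ (1 / 4 : ℝ) ≤ p ∧
    (p : ℝ) < (N : ℝ) ^ (667 / 1000 : ℝ) := by
  unfold PP
  rw [mem_filter, mem_Ioc]
  constructor
  · rintro ⟨⟨h1, h2⟩, hp⟩
    have h3 : M0 N D t < p := h1
    unfold M0 at h3
    rw [max_lt_iff, lt_iff_ceil hp.pos, lt_iff_ceil hp.pos] at h3
    have h4 : p ≤ min (⌈Real.exp ((t + 1) / D)⌉₊ - 1) (⌈(N : ℝ) ^ (667 / 1000 : ℝ)⌉₊ - 1) := by
      unfold M1 at h2
      rcases le_max_iff.1 h2 with h | h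
      · omega
      · exact h
    rw [le_min_iff, le_iff_ceil hp.pos, le_iff_ceil hp.pos] at h4
    exact ⟨hp, ⟨h3.1, h4.1⟩, h3.2, h4.2⟩
  · rintro ⟨hp, ⟨h1, h2⟩, h3, h4⟩
    refine ⟨⟨?_, ?_⟩, hp⟩
    · unfold M0
      rw [max_lt_iff, lt_iff_ceil hp.pos, lt_iff_ceil hp.pos]
      exact ⟨h1, h3⟩
    · unfold M1
      apply le_max_of_le_right
      rw [le_min_iff, le_iff_ceil hp.pos, le_iff_ceil hp.pos]
      exact ⟨h2, h4⟩

theorem PP_disj {N D t t' p : ℕ} (hD : 0 < D) (h : p ∈ PP N D t) (h' : p ∈ PP N D t') :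
    t = t' := by
  have hD' : (0 : ℝ) < D := by exact_mod_cast hD
  have key : ∀ a b : ℕ, p ∈ PP N D a → p ∈ PP N D b → ¬ a < b := by
    intro a b ha hb hab
    have h1 := (mem_PP.1 ha).2.1.2
    have h2 := (mem_PP.1 hb).2.1.1
    have h3 : Real.exp (((a : ℝ) + 1) / D) ≤ Real.exp (b / D) := by
      apply Real.exp_le_exp.2
      apply div_le_div_of_nonneg_right _ hD'.le
      exact_mod_cast hab
    linarith
  rcases lt_trichotomy t t' with h1 | h1 | h1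
  · exact absurd h1 (key _ _ h h')
  · exact h1
  · exact absurd h1 (key _ _ h' h)

/-- the pairs -/
noncomputable def Om2 (N D : ℕ) (a b : ℝ) : Finset (ℕ × ℕ) :=
  (JJ N D).biUnion (fun t => PP N D t ×ˢ TT N D a b t)

/-- the expected number of the pairs -/
noncomputable def Tot (N D : ℕ) (a b : ℝ) : ℝ :=
  ∑ t ∈ JJ N D, ((PP N D t).card : ℝ) * (TT N D a b t).card

theorem Om2_disj {N D : ℕ} {a b : ℝ} (hD : 0 < D) :
    Set.PairwiseDisjoint (JJ N D : Set ℕ) (fun t => PP N D t ×ˢ TT N D a b t) := by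
  intro t _ t' _ htt
  rw [Function.onFun, disjoint_left]
  intro x hx hx'
  rw [mem_product] at hx hx'
  exact htt (PP_disj hD hx.1 hx'.1)

theorem Om2_err {N D : ℕ} {a b : ℝ} (hD : 0 < D) {M c : ℕ} (hM : 0 < M) (hc : c < M)
    (hcop : c.Coprime M) :
    |(((Om2 N D a b).filter (fun x => x.1 * x.2 ≡ c [MOD M])).card : ℝ) -
      Tot N D a b / (Nat.totient M : ℝ)| ≤
    ∑ t ∈ JJ N D, dev (PP N D t) (TT N D a b t) M (wc (PP N D t) (TT N D a b t) M) := by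
  classical
  unfold Om2 Tot
  rw [filter_biUnion, card_biUnion, sum_div]
  · push_cast
    rw [← sum_sub_distrib]
    refine (abs_sum_le_sum_abs _ _).trans (sum_le_sum fun t _ => ?_)
    exact (wc_spec _ _ M hM).2 c hc hcop
  · intro t ht t' ht' htt
    exact disjoint_filter_filter (Om2_disj hD ht ht' htt)

/-! ### Facts on the pieces -/

theorem JJ_card {N D : ℕ} (hN : 3 ≤ N) (hD : 0 < D) : ((JJ N D).card : ℝ) ≤ 2 * D * Real.log N := by
  classical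
  have h1 : (JJ N D).card ≤ ⌊D * Real.log N⌋₊ + 1 := by
    unfold JJ
    refine (card_filter_le _ _).trans ?_
    rw [card_range]
  have hlog : 1 ≤ Real.log N := by
    rw [Real.le_log_iff_exp_le (by exact_mod_cast (by omega : 0 < N))]
    have h3 : (3 : ℝ) ≤ N := by exact_mod_cast hN
    linarith [Real.exp_one_lt_d9]
  have hD' : (1 : ℝ) ≤ D := by exact_mod_cast hD
  have h2 : (⌊D * Real.log N⌋₊ : ℝ) ≤ D * Real.log N := Nat.floor_le (by positivity)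
  have h3 : ((JJ N D).card : ℝ) ≤ ⌊D * Real.log N⌋₊ + 1 := by exact_mod_cast h1
  nlinarith

theorem ceil_sub_one_le (x : ℝ) (hx : 0 ≤ x) : ((⌈x⌉₊ - 1 : ℕ) : ℝ) ≤ x := by
  rcases Nat.eq_zero_or_pos ⌈x⌉₊ with h | h
  · rw [h]; simpa using hx
  · have h1 := Nat.ceil_lt_add_one hx
    have h2 : ((⌈x⌉₊ - 1 : ℕ) : ℝ) = (⌈x⌉₊ : ℝ) - 1 := by
      rw [Nat.cast_sub h]; simp
    linarith

theorem le_ceil_sub_one (x : ℝ) : x - 1 ≤ ((⌈x⌉₊ - 1 : ℕ) : ℝ) := by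
  have h1 := Nat.le_ceil x
  have h2 : (⌈x⌉₊ : ℝ) ≤ ((⌈x⌉₊ - 1 : ℕ) : ℝ) + 1 := by exact_mod_cast (by omega : ⌈x⌉₊ ≤ ⌈x⌉₊ - 1 + 1)
  linarith

theorem M0_le_exp {N D t : ℕ} (hD : 0 < D) (ht : t ∈ JJ N D) :
    (M0 N D t : ℝ) ≤ Real.exp ((t + 1) / D) := by
  classical
  unfold JJ at ht
  rw [mem_filter] at ht
  have hD' : (0 : ℝ) < D := by exact_mod_cast hD
  unfold M0
  rw [Nat.cast_max, max_le_iff]
  constructor
  · refine (ceil_sub_one_le _ (Real.exp_pos _).le).trans ?_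
    apply Real.exp_le_exp.2
    apply div_le_div_of_nonneg_right _ hD'.le
    linarith
  · exact (ceil_sub_one_le _ (by positivity)).trans ht.2.1

theorem M1_le_exp {N D t : ℕ} (hD : 0 < D) (ht : t ∈ JJ N D) :
    (M1 N D t : ℝ) ≤ Real.exp ((t + 1) / D) := by
  unfold M1
  rw [Nat.cast_max, max_le_iff]
  refine ⟨M0_le_exp hD ht, ?_⟩
  rw [Nat.cast_min]
  exact (min_le_left _ _).trans (ceil_sub_one_le _ (Real.exp_pos _).le)

theorem M1_le_pow {N D t : ℕ} (hN : 1 ≤ N) (ht : t ∈ JJ N D) :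
    (M1 N D t : ℝ) ≤ (N : ℝ) ^ (667 / 1000 : ℝ) := by
  classical
  unfold JJ at ht
  rw [mem_filter] at ht
  unfold M1 M0
  rw [Nat.cast_max, max_le_iff, Nat.cast_max, max_le_iff]
  refine ⟨⟨?_, ?_⟩, ?_⟩
  · exact (ceil_sub_one_le _ (Real.exp_pos _).le).trans ht.2.2.le
  · refine (ceil_sub_one_le _ (by positivity)).trans ?_
    exact Real.rpow_le_rpow_of_exponent_le (by exact_mod_cast hN) (by norm_num)
  · rw [Nat.cast_min]
    exact (min_le_right _ _).trans (ceil_sub_one_le _ (by positivity))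

theorem M0_ge {N D t : ℕ} : (N : ℝ) ^ (1 / 4 : ℝ) - 1 ≤ (M0 N D t : ℝ) := by
  unfold M0
  rw [Nat.cast_max]
  exact (le_ceil_sub_one _).trans (le_max_right _ _)

theorem exp_step (t D : ℕ) :
    Real.exp (((t : ℝ) + 1) / D) = Real.exp (t / D) * Real.exp (1 / D) := by
  rw [← Real.exp_add]
  congr 1
  ring

end Pool.Agent.KS6_51.CH
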