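import Pool.Agent.KS6_51.CH4

/-!
# Chen's theorem inside sifted sets, part 5: the remainders and the mass of the second sequence
-/

set_option autoImplicit false

namespace Pool.Agent.KS6_51.CH

open Finset Filter Pool.Agent.W23.DC Pool.Agent.Y660.RP Pool.Agent.Y843.CH

open Classical in
theorem mem_TT {N D t m : ℕ} {a b : ℝ} : m ∈ TT N D a b t ↔
    (1 ≤ m ∧ m ≤ ⌊b / Real.exp (t / D)⌋₊) ∧ ∃ p q : ℕ, p.Prime ∧ q.Prime ∧
    (N : ℝ) ^ (667 / 1000 : ℝ) ≤ p ∧ p ≤ q ∧ m = p * q ∧ a < Real.exp ((t + 1) / D) * m ∧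
    Real.exp (t / D) * m ≤ b := by
  unfold TT
  rw [mem_filter, mem_Icc]

theorem mem_Om2 {N D : ℕ} {a b : ℝ} {x : ℕ × ℕ} : x ∈ Om2 N D a b ↔
    ∃ t ∈ JJ N D, x.1 ∈ PP N D t ∧ x.2 ∈ TT N D a b t := by
  unfold Om2
  rw [mem_biUnion]
  simp only [mem_product]

/-- the size of the products -/
theorem Om2_size {N D : ℕ} {a b : ℝ} {x : ℕ × ℕ} (_ha : 0 ≤ a) (hx : x ∈ Om2 N D a b) :
    a * Real.exp (-(1 / D)) < (x.1 * x.2 : ℕ) ∧ ((x.1 * x.2 : ℕ) : ℝ) ≤ b * Real.exp (1 / D) := by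
  obtain ⟨t, -, h1, h2⟩ := mem_Om2.1 hx
  obtain ⟨-, ⟨h3, h4⟩, -⟩ := mem_PP.1 h1
  obtain ⟨⟨h5, -⟩, p, q, -, -, -, -, -, h6, h7⟩ := mem_TT.1 h2
  have hm : (1 : ℝ) ≤ x.2 := by exact_mod_cast h5
  have he := Real.exp_pos ((t : ℝ) / D)
  have he1 := Real.exp_pos (1 / (D : ℝ))
  rw [exp_step] at h4 h6
  push_cast
  constructor
  · rw [Real.exp_neg, ← div_eq_mul_inv, div_lt_iff₀ he1]
    calc a < Real.exp (t / D) * Real.exp (1 / D) * x.2 := h6
      _ = Real.exp (t / D) * x.2 * Real.exp (1 / D) := by ring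
      _ ≤ x.1 * x.2 * Real.exp (1 / D) := by gcongr
  · calc (x.1 : ℝ) * x.2 ≤ Real.exp (t / D) * Real.exp (1 / D) * x.2 := by gcongr
      _ = Real.exp (t / D) * x.2 * Real.exp (1 / D) := by ring
      _ ≤ b * Real.exp (1 / D) := by gcongr

/-- the prime factors of the products are large -/
theorem Om2_pf {N D : ℕ} {a b : ℝ} (hN : 1 ≤ N) {x : ℕ × ℕ} (hx : x ∈ Om2 N D a b) {p : ℕ}
    (hp : p.Prime) (hd : p ∣ x.1 * x.2) : (N : ℝ) ^ (1 / 4 : ℝ) ≤ p := by
  obtain ⟨t, -, h1, h2⟩ := mem_Om2.1 hx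
  obtain ⟨hx1, -, h3, -⟩ := mem_PP.1 h1
  obtain ⟨-, q, r, hq, hr, h4, h5, h6, -, -⟩ := mem_TT.1 h2
  have hmono : (N : ℝ) ^ (1 / 4 : ℝ) ≤ (N : ℝ) ^ (667 / 1000 : ℝ) :=
    Real.rpow_le_rpow_of_exponent_le (by exact_mod_cast hN) (by norm_num)
  have h5' : (q : ℝ) ≤ r := by exact_mod_cast h5
  rw [h6, hp.dvd_mul, hp.dvd_mul] at hd
  rcases hd with h | h | h
  · rw [(Nat.prime_dvd_prime_iff_eq hp hx1).1 h]
    exact h3
  · rw [(Nat.prime_dvd_prime_iff_eq hp hq).1 h]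
    linarith
  · rw [(Nat.prime_dvd_prime_iff_eq hp hr).1 h]
    linarith

theorem Om2_sep {N D z i j : ℕ} {a b ε : ℝ} {E : ℕ → Finset ℕ} (hN : 1 ≤ N) (hε : ε ≤ 1 / 4)
    (ha : 0 ≤ a) (hi : i ≤ z) (hj : j ≤ z) (hij : i ≠ j) (hja : (j : ℝ) ≤ a * Real.exp (-(1 / D))) :
    Sep (Om2 N D a b) (fun x => x.1 * x.2 - j) (fun x => vv N z ε E i (x.1 * x.2 - j)) z j
      ((N : ℝ) ^ (999 / 1000 : ℝ)) := by
  intro x hx p hp hzp _ hv hd
  have hsz := (Om2_size ha hx).1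
  have hjx : j ≤ x.1 * x.2 := by
    have : (j : ℝ) < (x.1 * x.2 : ℕ) := hja.trans_lt hsz
    exact_mod_cast this.le
  have e : x.1 * x.2 - j + j = x.1 * x.2 := by omega
  change p ∣ x.1 * x.2 - j + j at hd
  change p ∣ vv N z ε E i (x.1 * x.2 - j) at hv
  rw [e] at hd
  have hp4 := Om2_pf hN hx hp hd
  rw [dvd_vv hp] at hv
  rcases hv with h | h
  · have h1 : x.1 * x.2 - j + i ≡ x.1 * x.2 - j + j [MOD p] := by
      rw [e]
      exact ((Nat.modEq_zero_iff_dvd).2 h).trans ((Nat.modEq_zero_iff_dvd).2 hd).symm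
    have h2 : i ≡ j [MOD p] := Nat.ModEq.add_left_cancel' _ h1
    exact hij (Nat.ModEq.eq_of_lt_of_lt h2 (by omega) (by omega))
  · have h1 := (mem_P1.1 h.1).2.2
    have h2 : (N : ℝ) ^ ε ≤ (N : ℝ) ^ (1 / 4 : ℝ) :=
      Real.rpow_le_rpow_of_exponent_le (by exact_mod_cast hN) hε
    linarith

theorem pow_two_ev : ∃ N₀ : ℕ, ∀ N : ℕ, N₀ ≤ N →
    (((N ^ 2 : ℕ) : ℝ)) ^ (1 / 9 : ℝ) ≤ (N : ℝ) ^ (1 / 4 : ℝ) - 1 := by
  have h1 : Tendsto (fun x : ℝ => x ^ (1 / 4 - 2 / 9 : ℝ)) atTop atTop :=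
    tendsto_rpow_atTop (by norm_num)
  have h2 := (h1.comp tendsto_natCast_atTop_atTop).eventually_ge_atTop 2
  obtain ⟨N₀, hN₀⟩ := eventually_atTop.1 h2
  refine ⟨max N₀ 1, fun N hN => ?_⟩
  have h3 := hN₀ N ((le_max_left _ _).trans hN)
  have hN1 : 1 ≤ N := (le_max_right _ _).trans hN
  have hNr : (1 : ℝ) ≤ N := by exact_mod_cast hN1
  simp only [Function.comp] at h3
  have e1 : (((N ^ 2 : ℕ) : ℝ)) ^ (1 / 9 : ℝ) = (N : ℝ) ^ (2 / 9 : ℝ) := by
    push_cast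
    rw [← Real.rpow_natCast, ← Real.rpow_mul (by linarith)]
    norm_num
  have e2 : (N : ℝ) ^ (1 / 4 : ℝ) = (N : ℝ) ^ (2 / 9 : ℝ) * (N : ℝ) ^ (1 / 4 - 2 / 9 : ℝ) := by
    rw [← Real.rpow_add (by linarith)]
    norm_num
  have h4 : 1 ≤ (N : ℝ) ^ (2 / 9 : ℝ) := Real.one_le_rpow hNr (by norm_num)
  rw [e1, e2]
  nlinarith

theorem second_rem (K m₀ U D : ℕ) (hm₀ : 0 < m₀) (hsq : Squarefree m₀) (hD : 0 < D) :
    ∃ N₀ : ℕ, ∀ N : ℕ, N₀ ≤ N → ∀ (a b : ℝ), 0 ≤ a → b * Real.exp (1 / D) ≤ 5 * (N : ℝ) ^ 2 →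
    ∀ (i j z : ℕ) (ε : ℝ) (E : ℕ → Finset ℕ) (c : ℕ), ε ≤ 1 / 4 → i ≤ z → j ≤ z → i ≠ j →
    (j : ℝ) ≤ a * Real.exp (-(1 / D)) →
    (∀ p : ℕ, p.Prime → z < p → (E p).card ≤ K) → (c + j).Coprime m₀ →
    (∀ p : ℕ, p.Prime → p ∣ m₀ → p ≤ z) →
    ∑ d ∈ Lv' z ((N : ℝ) ^ (999 / 1000 : ℝ)),
      Rr ((Om2 N D a b).filter (fun x => x.1 * x.2 - j ≡ c [MOD m₀]))
        (fun x => vv N z ε E i (x.1 * x.2 - j))
        (gg ((N : ℝ) ^ ε) i j E) (Tot N D a b / (Nat.totient m₀ : ℝ)) d ≤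
      2 * D * Real.log N * ((N : ℝ) ^ 2 / Real.log N ^ U) := by
  obtain ⟨X₀, hX₀⟩ := Pool.Agent.Y261.CH.blv m₀ (K + 1) U hm₀ (by omega)
  obtain ⟨N₁, hN₁⟩ := pow_two_ev
  refine ⟨max (max X₀ N₁) 3, ?_⟩
  intro N hN a b ha hb i j z ε E c hε hi hj hij hja hE hcop hz
  have hNX : X₀ ≤ N := ((le_max_left _ _).trans (le_max_left _ _)).trans hN
  have hNN : N₁ ≤ N := ((le_max_right _ _).trans (le_max_left _ _)).trans hN
  have hN3 : 3 ≤ N := (le_max_right _ _).trans hN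
  have hN1 : 1 ≤ N := by omega
  have hNr : (1 : ℝ) ≤ N := by exact_mod_cast hN1
  have hD0 : (0 : ℝ) < D := by exact_mod_cast hD
  set L := (N : ℝ) ^ (999 / 1000 : ℝ) with hL
  have hL0 : 0 ≤ L := by positivity
  have hX : X₀ ≤ N ^ 2 := hNX.trans (Nat.le_self_pow (by norm_num) _)
  have hN9 := hN₁ N hNN
  -- one piece
  have piece : ∀ t ∈ JJ N D, ∑ d ∈ Lv' z L, ((K + 1 : ℕ) : ℝ) ^ d.primeFactors.card *
      dev (PP N D t) (TT N D a b t) (m₀ * d) (wc (PP N D t) (TT N D a b t) (m₀ * d)) ≤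
      (N : ℝ) ^ 2 / Real.log N ^ U := by
    intro t ht
    have he := Real.exp_pos ((t : ℝ) / D)
    have key := hX₀ (N ^ 2) hX (M0 N D t) (M1 N D t) ⌊b / Real.exp (t / D)⌋₊
      (hN9.trans M0_ge) (le_max_left _ _) (by
        refine (M1_le_pow hN1 ht).trans ?_
        have e1 : (((N ^ 2 : ℕ) : ℝ)) ^ (2 / 5 : ℝ) = (N : ℝ) ^ (4 / 5 : ℝ) := by
          push_cast
          rw [← Real.rpow_natCast, ← Real.rpow_mul (by linarith)]
          norm_num
        rw [e1]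
        exact Real.rpow_le_rpow_of_exponent_le hNr (by norm_num)) (by
        have h1 : ((M1 N D t * ⌊b / Real.exp (t / D)⌋₊ : ℕ) : ℝ) ≤ 5 * (N : ℝ) ^ 2 := by
          push_cast
          rcases le_or_gt b 0 with hb0 | hb0
          · have : ⌊b / Real.exp (t / D)⌋₊ = 0 := by
              apply Nat.floor_of_nonpos
              exact div_nonpos_of_nonpos_of_nonneg hb0 he.le
            rw [this]
            simp only [Nat.cast_zero, mul_zero]
            positivity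
          · calc (M1 N D t : ℝ) * ⌊b / Real.exp (t / D)⌋₊
                ≤ Real.exp ((t + 1) / D) * (b / Real.exp (t / D)) := by
                  apply mul_le_mul (M1_le_exp hD ht) (Nat.floor_le (by positivity))
                    (Nat.cast_nonneg _) (Real.exp_pos _).le
              _ = b * Real.exp (1 / D) := by
                  rw [exp_step]
                  field_simp
              _ ≤ _ := hb
        exact_mod_cast h1) (TT N D a b t) (by
        intro n hn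
        obtain ⟨⟨h1, h2⟩, p, q, hp, hq, h3, h4, h5, -, -⟩ := mem_TT.1 hn
        refine ⟨h1, h2, ?_⟩
        intro r hr
        have hrp := Nat.prime_of_mem_primeFactors hr
        have hrd := Nat.dvd_of_mem_primeFactors hr
        have h6 : (N : ℝ) ^ (667 / 1000 : ℝ) ≤ r := by
          have h4' : (p : ℝ) ≤ q := by exact_mod_cast h4
          rw [h5, hrp.dvd_mul] at hrd
          rcases hrd with h | h
          · rw [(Nat.prime_dvd_prime_iff_eq hrp hp).1 h]; exact h3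
          · rw [(Nat.prime_dvd_prime_iff_eq hrp hq).1 h]; linarith
        refine le_trans ?_ h6
        have e1 : (((N ^ 2 : ℕ) : ℝ)) ^ (1 / 9 : ℝ) = (N : ℝ) ^ (2 / 9 : ℝ) := by
          push_cast
          rw [← Real.rpow_natCast, ← Real.rpow_mul (by linarith)]
          norm_num
        rw [e1]
        exact Real.rpow_le_rpow_of_exponent_le hNr (by norm_num))
      (fun d => wc (PP N D t) (TT N D a b t) d)
    have hlog : 0 < Real.log N := Real.log_pos (by exact_mod_cast (by omega : 1 < N))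
    have hfin : ((N ^ 2 : ℕ) : ℝ) / Real.log ((N ^ 2 : ℕ) : ℝ) ^ U ≤
        (N : ℝ) ^ 2 / Real.log N ^ U := by
      push_cast
      apply div_le_div_of_nonneg_left (by positivity) (by positivity)
      apply pow_le_pow_left₀ hlog.le
      rw [Real.log_pow]
      push_cast
      linarith
    refine le_trans ?_ (key.trans hfin)
    -- the injection
    have hmem : ∀ d ∈ Lv' z L, (1 ≤ d ∧ (d : ℝ) ≤ L) ∧ Squarefree d ∧ ∀ p ∈ d.primeFactors, z < p := by
      intro d hd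
      unfold Lv' at hd
      rw [mem_filter, mem_Icc] at hd
      exact ⟨⟨hd.1.1, (Nat.cast_le.2 hd.1.2).trans (Nat.floor_le hL0)⟩, hd.2⟩
    calc ∑ d ∈ Lv' z L, ((K + 1 : ℕ) : ℝ) ^ d.primeFactors.card *
          dev (PP N D t) (TT N D a b t) (m₀ * d) (wc (PP N D t) (TT N D a b t) (m₀ * d))
        ≤ ∑ d ∈ Lv' z L, ((K + 1 : ℕ) : ℝ) ^ (m₀ * d).primeFactors.card *
          dev (PP N D t) (TT N D a b t) (m₀ * d) (wc (PP N D t) (TT N D a b t) (m₀ * d)) := by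
          apply sum_le_sum
          intro d hd
          apply mul_le_mul_of_nonneg_right _ (dev_nonneg _ _ _ _)
          apply pow_le_pow_right₀ (by exact_mod_cast (by omega : 1 ≤ K + 1))
          apply card_le_card
          exact Nat.primeFactors_mono (dvd_mul_left _ _) (Nat.mul_pos hm₀ (hmem d hd).1.1).ne'
      _ = ∑ q ∈ (Lv' z L).image (fun d => m₀ * d), ((K + 1 : ℕ) : ℝ) ^ q.primeFactors.card *
          dev (PP N D t) (TT N D a b t) q (wc (PP N D t) (TT N D a b t) q) := by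
          rw [sum_image]
          intro x _ y _ h
          exact Nat.eq_of_mul_eq_mul_left hm₀ h
      _ ≤ _ := by
          apply sum_le_sum_of_subset_of_nonneg
          · intro q hq
            obtain ⟨d, hd, rfl⟩ := mem_image.1 hq
            obtain ⟨⟨h1, h2⟩, h3, h4⟩ := hmem d hd
            rw [mem_filter, mem_Icc]
            refine ⟨⟨Nat.mul_pos hm₀ h1, ?_⟩, ?_, (wc_spec _ _ _ (Nat.mul_pos hm₀ h1)).1⟩
            · apply Nat.le_floor
              push_cast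
              apply mul_le_mul_of_nonneg_left _ (Nat.cast_nonneg _)
              refine h2.trans ?_
              have := rpow_999 (N := N) (X := N ^ 2) (v := N ^ 2) le_rfl le_rfl
              push_cast at this
              exact this
            · have hc : Nat.Coprime m₀ d := by
                rw [Nat.coprime_iff_gcd_eq_one]
                by_contra hne
                obtain ⟨p, hp, hpd⟩ := Nat.exists_prime_and_dvd hne
                have h5 := hz p hp (hpd.trans (Nat.gcd_dvd_left _ _))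
                have h6 := h4 p (Nat.mem_primeFactors.2 ⟨hp, hpd.trans (Nat.gcd_dvd_right _ _), by omega⟩)
                omega
              exact (Nat.squarefree_mul hc).2 ⟨hsq, h3⟩
          · intro q _ _
            exact mul_nonneg (by positivity) (abs_nonneg _)
  -- the sum
  have hsep := Om2_sep (E := E) (b := b) hN1 hε ha hi hj hij hja
  have hb1 : ∀ d ∈ Lv' z L, Rr ((Om2 N D a b).filter (fun x => x.1 * x.2 - j ≡ c [MOD m₀]))
        (fun x => vv N z ε E i (x.1 * x.2 - j))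
        (gg ((N : ℝ) ^ ε) i j E) (Tot N D a b / (Nat.totient m₀ : ℝ)) d ≤
      ((K + 1 : ℕ) : ℝ) ^ d.primeFactors.card * ∑ t ∈ JJ N D,
        dev (PP N D t) (TT N D a b t) (m₀ * d) (wc (PP N D t) (TT N D a b t) (m₀ * d)) := by
    intro d hd
    have hd1 : 1 ≤ d := by
      unfold Lv' at hd
      rw [mem_filter, mem_Icc] at hd
      exact hd.1.1
    apply rr_bound hN1 (by linarith) (Or.inr ⟨rfl, rfl⟩) hE hL0 (Om2 N D a b)
      (fun x => x.1 * x.2 - j) hsep m₀ c hm₀ hcop hz (Tot N D a b) hd _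
      (sum_nonneg fun t _ => dev_nonneg _ _ _ _)
    intro r hr hrc
    have h1 := Om2_err (N := N) (a := a) (b := b) hD (Nat.mul_pos hm₀ hd1) hr hrc
    have h2 : (Om2 N D a b).filter (fun x => x.1 * x.2 - j + j ≡ r [MOD (m₀ * d)]) =
        (Om2 N D a b).filter (fun x => x.1 * x.2 ≡ r [MOD (m₀ * d)]) := by
      apply filter_congr
      intro x hx
      have hsz := (Om2_size ha hx).1
      have hjx : j ≤ x.1 * x.2 := by
        have : (j : ℝ) < (x.1 * x.2 : ℕ) := hja.trans_lt hsz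
        exact_mod_cast this.le
      rw [Nat.sub_add_cancel hjx]
    rw [h2]
    exact h1
  have hlog : 0 < Real.log N := Real.log_pos (by exact_mod_cast (by omega : 1 < N))
  calc _ ≤ ∑ d ∈ Lv' z L, ((K + 1 : ℕ) : ℝ) ^ d.primeFactors.card * ∑ t ∈ JJ N D,
        dev (PP N D t) (TT N D a b t) (m₀ * d) (wc (PP N D t) (TT N D a b t) (m₀ * d)) :=
        sum_le_sum hb1
    _ = ∑ t ∈ JJ N D, ∑ d ∈ Lv' z L, ((K + 1 : ℕ) : ℝ) ^ d.primeFactors.card *
        dev (PP N D t) (TT N D a b t) (m₀ * d) (wc (PP N D t) (TT N D a b t) (m₀ * d)) := by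
        rw [sum_comm]
        exact sum_congr rfl fun d _ => by rw [mul_sum]
    _ ≤ ∑ _t ∈ JJ N D, (N : ℝ) ^ 2 / Real.log N ^ U := sum_le_sum piece
    _ = (JJ N D).card * ((N : ℝ) ^ 2 / Real.log N ^ U) := by rw [sum_const, nsmul_eq_mul]
    _ ≤ _ := by
        apply mul_le_mul_of_nonneg_right (JJ_card hN3 hD) (by positivity)

end Pool.Agent.KS6_51.CH
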