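import Pool.Agent.KS6_51.CH5
import Pool.Graph.R_seed8.Helper923.PNT
import Pool.Graph.R_seed8.Helper923.HMertens

/-!
# Chen's theorem inside sifted sets, part 6: the main terms
-/

set_option autoImplicit false

namespace Pool.Agent.KS6_51.CH

open Finset Filter Pool.Agent.W23.DC Pool.Agent.Y660.RP Pool.Agent.Y843.CH

open Classical in
/-- the pairs `(p₂, p₃)` belonging to `p₁` -/
noncomputable def F3s (N : ℕ) (a b : ℝ) (p₁ : ℕ) : Finset (ℕ × ℕ) :=
  (Icc 1 ⌊b⌋₊ ×ˢ Icc 1 ⌊b⌋₊).filter (fun x : ℕ × ℕ => x.1.Prime ∧ x.2.Prime ∧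
      (N : ℝ) ^ (667 / 1000 : ℝ) ≤ (x.1 : ℝ) ∧ x.1 ≤ x.2 ∧ a < (p₁ : ℝ) * x.1 * x.2 ∧
      (p₁ : ℝ) * x.1 * x.2 ≤ b)

theorem TT_card_le {N D t p : ℕ} {a b : ℝ} (_ha : 0 ≤ a) (hp : p ∈ PP N D t) :
    (TT N D a b t).card ≤
      (F3s N (a * Real.exp (-(1 / D))) (b * Real.exp (1 / D)) p).card := by
  classical
  have hsub : TT N D a b t ⊆
      (F3s N (a * Real.exp (-(1 / D))) (b * Real.exp (1 / D)) p).image (fun x => x.1 * x.2) := by
    intro m hm
    obtain ⟨⟨h1, -⟩, q, r, hq, hr, h3, h4, h5, h6, h7⟩ := mem_TT.1 hm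
    obtain ⟨hpp, ⟨g1, g2⟩, -, -⟩ := mem_PP.1 hp
    have he := Real.exp_pos ((t : ℝ) / D)
    have he1 := Real.exp_pos (1 / (D : ℝ))
    have hm1 : (1 : ℝ) ≤ m := by exact_mod_cast h1
    have hmr : (m : ℝ) = q * r := by rw [h5]; push_cast; ring
    rw [exp_step] at g2 h6
    have hlow : a * Real.exp (-(1 / D)) < (p : ℝ) * q * r := by
      rw [Real.exp_neg, ← div_eq_mul_inv, div_lt_iff₀ he1]
      calc a < Real.exp (t / D) * Real.exp (1 / D) * m := h6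
        _ = Real.exp (t / D) * m * Real.exp (1 / D) := by ring
        _ ≤ p * m * Real.exp (1 / D) := by gcongr
        _ = (p : ℝ) * q * r * Real.exp (1 / D) := by rw [hmr]; ring
    have hupp : (p : ℝ) * q * r ≤ b * Real.exp (1 / D) := by
      calc (p : ℝ) * q * r = p * m := by rw [hmr]; ring
        _ ≤ Real.exp (t / D) * Real.exp (1 / D) * m := by gcongr
        _ = Real.exp (t / D) * m * Real.exp (1 / D) := by ring
        _ ≤ b * Real.exp (1 / D) := by gcongr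
    rw [mem_image]
    refine ⟨(q, r), ?_, h5.symm⟩
    unfold F3s
    rw [mem_filter, mem_product, mem_Icc, mem_Icc]
    have hp1 : (1 : ℝ) ≤ p := by exact_mod_cast hpp.one_lt.le
    have hq1 : (1 : ℝ) ≤ q := by exact_mod_cast hq.one_lt.le
    have hr1 : (1 : ℝ) ≤ r := by exact_mod_cast hr.one_lt.le
    refine ⟨⟨⟨hq.one_lt.le, Nat.le_floor ?_⟩, ⟨hr.one_lt.le, Nat.le_floor ?_⟩⟩, hq, hr, h3, h4,
      hlow, hupp⟩
    · refine le_trans ?_ hupp
      calc (q : ℝ) = 1 * q * 1 := by ring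
        _ ≤ p * q * r := by gcongr
    · refine le_trans ?_ hupp
      calc (r : ℝ) = 1 * 1 * r := by ring
        _ ≤ p * q * r := by gcongr
  exact (card_le_card hsub).trans card_image_le

theorem Tot_le (η : ℝ) (hη : 0 < η) : ∃ N₀ : ℕ, ∀ N : ℕ, N₀ ≤ N → ∀ (D : ℕ) (a b : ℝ), 0 < D →
    0 ≤ a → a ≤ b → η * (N : ℝ) ^ 2 ≤ b → b * Real.exp (1 / D) ≤ 4 * (N : ℝ) ^ 2 →
    Tot N D a b ≤ (195 / 1000 * (b * Real.exp (1 / D) - a * Real.exp (-(1 / D))) +
      η * (N : ℝ) ^ 2) / Real.log N := by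
  classical
  obtain ⟨N₀, hN₀⟩ := Pool.Agent.Y48.CH.mass Pool.Agent.Y484.CH.num η hη
  refine ⟨max N₀ 2, ?_⟩
  intro N hN D a b hD ha hab hb1 hb2
  have hN2 : 2 ≤ N := (le_max_right _ _).trans hN
  have hb0 : 0 ≤ b := ha.trans hab
  have he1 : 1 ≤ Real.exp (1 / (D : ℝ)) := by
    apply Real.one_le_exp
    positivity
  have he2 : Real.exp (-(1 / (D : ℝ))) ≤ 1 := by
    apply Real.exp_le_one_iff.2
    have : (0 : ℝ) ≤ 1 / D := by positivity
    linarith
  have key := hN₀ N ((le_max_left _ _).trans hN) (a * Real.exp (-(1 / D))) (b * Real.exp (1 / D))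
    (by positivity) (by
      have h1 : a * Real.exp (-(1 / D)) ≤ a * 1 := mul_le_mul_of_nonneg_left he2 ha
      have h2 : b * 1 ≤ b * Real.exp (1 / D) := mul_le_mul_of_nonneg_left he1 hb0
      linarith) (by
      have h2 : b * 1 ≤ b * Real.exp (1 / D) := mul_le_mul_of_nonneg_left he1 hb0
      linarith) hb2
  refine le_trans ?_ key
  unfold Tot
  have h1 : ∑ t ∈ JJ N D, ((PP N D t).card : ℝ) * (TT N D a b t).card ≤
      ∑ t ∈ JJ N D, ∑ p ∈ PP N D t,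
        ((F3s N (a * Real.exp (-(1 / D))) (b * Real.exp (1 / D)) p).card : ℝ) := by
    apply sum_le_sum
    intro t _
    rw [← nsmul_eq_mul, ← sum_const]
    apply sum_le_sum
    intro p hp
    exact_mod_cast TT_card_le ha hp
  refine h1.trans ?_
  rw [← sum_biUnion]
  · have hsub : (JJ N D).biUnion (fun t => PP N D t) ⊆ pr N (1 / 4) (667 / 1000) := by
      intro p hp
      rw [mem_biUnion] at hp
      obtain ⟨t, -, hp⟩ := hp
      obtain ⟨hpp, -, h3, h4⟩ := mem_PP.1 hp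
      rw [mem_pr]
      refine ⟨⟨hpp.one_lt.le, ?_⟩, hpp, (le_tt_iff hN2 hpp _).2 h3, (tt_lt_iff hN2 hpp _).2 h4⟩
      have h5 : (N : ℝ) ^ (667 / 1000 : ℝ) ≤ (N : ℝ) ^ (1 : ℝ) :=
        Real.rpow_le_rpow_of_exponent_le (by exact_mod_cast (by omega : 1 ≤ N)) (by norm_num)
      rw [Real.rpow_one] at h5
      exact_mod_cast (h4.trans_le h5).le
    have h2 := sum_le_sum_of_subset_of_nonneg (f := fun p =>
      ((F3s N (a * Real.exp (-(1 / D))) (b * Real.exp (1 / D)) p).card : ℝ)) hsub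
      (fun _ _ _ => Nat.cast_nonneg _)
    refine h2.trans (le_of_eq ?_)
    apply sum_congr rfl
    intro p _
    unfold F3s
    rfl
  · intro t _ t' _ htt
    rw [Function.onFun, disjoint_left]
    intro p hp hp'
    exact htt (PP_disj hD hp hp')

/-! ### The primes -/

theorem pi1_eq (x : ℕ) : H343E.pi1 x = (Nat.primeCounting x : ℝ) := by
  unfold H343E.pi1
  congr 1
  rw [Nat.primeCounting, Nat.primeCounting', Nat.count_eq_card_filter_range]
  congr 1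
  ext p
  rw [mem_filter, mem_filter, mem_Icc, mem_range]
  constructor
  · rintro ⟨⟨_, h2⟩, h3⟩
    exact ⟨by omega, h3⟩
  · rintro ⟨h2, h3⟩
    exact ⟨⟨h3.one_lt.le, by omega⟩, h3⟩

theorem pi_bounds (θ : ℝ) (hθ : 0 < θ) : ∃ X₀ : ℕ, ∀ x : ℕ, X₀ ≤ x →
    (1 - θ) * (x / Real.log x) ≤ Nat.primeCounting x ∧
    (Nat.primeCounting x : ℝ) ≤ (1 + θ) * (x / Real.log x) := by
  have h := (Pool.Agent.Helper923.PNT.pi_tendsto.comp tendsto_natCast_atTop_atTop).eventually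
    (Ioo_mem_nhds (by linarith : (1 : ℝ) - θ < 1) (by linarith : (1 : ℝ) < 1 + θ))
  obtain ⟨X₀, hX₀⟩ := eventually_atTop.1 h
  refine ⟨max X₀ 3, ?_⟩
  intro x hx
  have h1 := hX₀ x ((le_max_left _ _).trans hx)
  have hx3 : 3 ≤ x := (le_max_right _ _).trans hx
  have hxr : (0 : ℝ) < x := by exact_mod_cast (by omega : 0 < x)
  have hlog : 0 < Real.log x := Real.log_pos (by exact_mod_cast (by omega : 1 < x))
  simp only [Function.comp, Nat.floor_natCast] at h1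
  have hpos : 0 < (x : ℝ) / Real.log x := by positivity
  have e : (Nat.primeCounting x : ℝ) = (Nat.primeCounting x : ℝ) * Real.log x / x *
      (x / Real.log x) := by
    field_simp
  rw [e]
  constructor
  · exact mul_le_mul_of_nonneg_right h1.1.le hpos.le
  · exact mul_le_mul_of_nonneg_right h1.2.le hpos.le

theorem Om1_ge (θ : ℝ) (hθ : 0 < θ) (hθ1 : θ ≤ 1 / 10) (i : ℕ) : ∃ X₀ : ℕ, ∀ X : ℕ, X₀ ≤ X →
    (1 - 7 * θ) * (X / Real.log X) ≤ ((Om1 X i).card : ℝ) := by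
  obtain ⟨X₁, hX₁⟩ := pi_bounds θ hθ
  have hl : Tendsto (fun n : ℕ => Real.log n) atTop atTop :=
    Real.tendsto_log_atTop.comp tendsto_natCast_atTop_atTop
  obtain ⟨X₂, hX₂⟩ := eventually_atTop.1 (hl.eventually_ge_atTop (Real.log 3 / θ))
  obtain ⟨X₃, hX₃⟩ := exists_nat_ge ((i : ℝ) / θ)
  refine ⟨max (max X₁ X₂) (max X₃ (i + 3)), ?_⟩
  intro X hX
  have h1 : X₁ ≤ X := ((le_max_left _ _).trans (le_max_left _ _)).trans hX
  have h2 : X₂ ≤ X := ((le_max_right _ _).trans (le_max_left _ _)).trans hX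
  have h3 : X₃ ≤ X := ((le_max_left _ _).trans (le_max_right _ _)).trans hX
  have h4 : i + 3 ≤ X := ((le_max_right _ _).trans (le_max_right _ _)).trans hX
  have hXr : (0 : ℝ) < X := by exact_mod_cast (by omega : 0 < X)
  have hlog : 0 < Real.log X := Real.log_pos (by exact_mod_cast (by omega : 1 < X))
  have hiX : (i : ℝ) ≤ θ * X := by
    have : (i : ℝ) / θ ≤ X := hX₃.trans (by exact_mod_cast h3)
    rwa [div_le_iff₀ hθ, mul_comm] at this
  have hlog3 : Real.log 3 ≤ θ * Real.log X := by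
    have := hX₂ X h2
    rwa [div_le_iff₀ hθ, mul_comm] at this
  rw [card_Om1, pi1_eq, pi1_eq]
  have hA := (hX₁ (2 * X + i) (by omega)).1
  have hB := (hX₁ (X + i) (by omega)).2
  have hlA : Real.log ((2 * X + i : ℕ) : ℝ) ≤ (1 + θ) * Real.log X := by
    have : Real.log ((2 * X + i : ℕ) : ℝ) ≤ Real.log (3 * X) := by
      apply Real.log_le_log (by exact_mod_cast (by omega : 0 < 2 * X + i))
      exact_mod_cast (by omega : 2 * X + i ≤ 3 * X)
    rw [Real.log_mul (by norm_num) hXr.ne'] at this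
    linarith
  have hlApos : 0 < Real.log ((2 * X + i : ℕ) : ℝ) :=
    Real.log_pos (by exact_mod_cast (by omega : 1 < 2 * X + i))
  have hlB : Real.log X ≤ Real.log ((X + i : ℕ) : ℝ) := by
    apply Real.log_le_log hXr
    exact_mod_cast (by omega : X ≤ X + i)
  have hA' : (1 - θ) * (2 / (1 + θ) * (X / Real.log X)) ≤
      (1 - θ) * (((2 * X + i : ℕ) : ℝ) / Real.log ((2 * X + i : ℕ) : ℝ)) := by
    apply mul_le_mul_of_nonneg_left _ (by linarith)
    have e : 2 / (1 + θ) * ((X : ℝ) / Real.log X) = (2 * X) / ((1 + θ) * Real.log X) := by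
      field_simp
    rw [e]
    apply div_le_div₀ (by positivity) _ hlApos hlA
    exact_mod_cast (by omega : 2 * X ≤ 2 * X + i)
  have hB' : (1 + θ) * (((X + i : ℕ) : ℝ) / Real.log ((X + i : ℕ) : ℝ)) ≤
      (1 + θ) * ((1 + θ) * (X / Real.log X)) := by
    apply mul_le_mul_of_nonneg_left _ (by linarith)
    rw [← mul_div_assoc]
    apply div_le_div₀ (by positivity) _ hlog hlB
    push_cast
    linarith
  have hQ : 0 < (X : ℝ) / Real.log X := by positivity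
  have hnum : (1 - 7 * θ) ≤ (1 - θ) * (2 / (1 + θ)) - (1 + θ) * (1 + θ) := by
    have h5 : 2 * (1 - θ) ≤ 2 / (1 + θ) := by
      rw [le_div_iff₀ (by linarith)]
      nlinarith
    nlinarith
  nlinarith

/-! ### The product -/

theorem one_sub_ge {t : ℝ} (_h0 : 0 ≤ t) (h1 : t ≤ 1 / 2) : Real.exp (-(t + 2 * t ^ 2)) ≤ 1 - t := by
  have hpos : 0 < 1 - t := by linarith
  rw [← Real.le_log_iff_exp_le hpos]
  have h2 := Real.one_sub_inv_le_log_of_pos hpos
  refine le_trans ?_ h2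
  rw [le_sub_iff_add_le, ← sub_nonneg]
  have e : 1 - (-(t + 2 * t ^ 2) + (1 - t)⁻¹) = t ^ 2 * (1 - 2 * t) / (1 - t) := by
    field_simp
    ring
  rw [e]
  apply div_nonneg _ hpos.le
  apply mul_nonneg (sq_nonneg t)
  linarith

theorem sum_sq_aux (M : ℕ) :
    ∑ n ∈ Icc 2 (M + 2), 1 / ((n : ℝ) - 1) ^ 2 ≤ 2 - 1 / ((M : ℝ) + 1) := by
  induction M with
  | zero => norm_num
  | succ M ih =>
    rw [show M + 1 + 2 = (M + 2) + 1 from rfl, sum_Icc_succ_top (by omega)]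
    have hM : (0 : ℝ) < M + 1 := by positivity
    have h2 : 1 / (((M + 2 + 1 : ℕ) : ℝ) - 1) ^ 2 ≤ 1 / ((M : ℝ) + 1) - 1 / (((M + 1 : ℕ) : ℝ) + 1) := by
      push_cast
      rw [div_sub_div _ _ (by positivity) (by positivity), div_le_div_iff₀ (by nlinarith) (by positivity)]
      nlinarith
    linarith

theorem sum_sq_le (z N : ℕ) (hz : 1 ≤ z) :
    ∑ p ∈ (Ioc z N).filter Nat.Prime, 1 / ((p : ℝ) - 1) ^ 2 ≤ 2 := by
  have h1 := sum_sq_aux N
  have h2 : ∑ p ∈ (Ioc z N).filter Nat.Prime, 1 / ((p : ℝ) - 1) ^ 2 ≤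
      ∑ n ∈ Icc 2 (N + 2), 1 / ((n : ℝ) - 1) ^ 2 := by
    apply sum_le_sum_of_subset_of_nonneg
    · intro p hp
      rw [mem_filter, mem_Ioc] at hp
      rw [mem_Icc]
      omega
    · intro p _ _
      positivity
  have h3 : (0 : ℝ) ≤ 1 / ((N : ℝ) + 1) := by positivity
  linarith

theorem prod_ge (κ : ℕ) (hκ : 1 ≤ κ) : ∃ c : ℝ, 0 < c ∧ ∀ z N : ℕ, 2 * κ + 2 ≤ z → 3 ≤ N →
    ∀ (ε : ℝ) (g : ℕ → ℝ), (∀ p : ℕ, p.Prime → z < p → 0 ≤ g p ∧ g p ≤ κ / ((p : ℝ) - 1)) →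
    c / Real.log N ^ κ ≤ ∏ p ∈ P1 N z ε, (1 - g p) := by
  obtain ⟨C, hC0, hC⟩ := Pool.Agent.Helper923.HMertens.mertens_ratio
  have hl2 : 0 < Real.log 2 := Real.log_pos (by norm_num)
  refine ⟨Real.log 2 ^ κ * Real.exp (-(κ * (C / Real.log 2) + 6 * κ ^ 2)), by positivity, ?_⟩
  intro z N hz hN ε g hg
  have hκr : (1 : ℝ) ≤ κ := by exact_mod_cast hκ
  have hlN : 0 < Real.log N := Real.log_pos (by exact_mod_cast (by omega : 1 < N))
  -- one factor
  have h1 : ∀ p ∈ P1 N z ε, Real.exp (-(κ * (1 / (p : ℝ)) + 3 * κ ^ 2 * (1 / ((p : ℝ) - 1) ^ 2))) ≤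
      1 - g p := by
    intro p hp
    rw [mem_P1] at hp
    obtain ⟨g0, g1⟩ := hg p hp.2.1 hp.1.1
    have hpz : ((2 * κ + 3 : ℕ) : ℝ) ≤ p := by exact_mod_cast (by omega : 2 * κ + 3 ≤ p)
    push_cast at hpz
    have hp1 : (0 : ℝ) < (p : ℝ) - 1 := by linarith
    have hp0 : (0 : ℝ) < p := by linarith
    have hhalf : g p ≤ 1 / 2 := by
      refine g1.trans ?_
      rw [div_le_div_iff₀ hp1 (by norm_num)]
      linarith
    refine le_trans ?_ (one_sub_ge g0 hhalf)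
    apply Real.exp_le_exp.2
    have hsq : g p ^ 2 ≤ κ ^ 2 * (1 / ((p : ℝ) - 1) ^ 2) := by
      have := pow_le_pow_left₀ g0 g1 2
      rw [div_pow] at this
      calc g p ^ 2 ≤ (κ : ℝ) ^ 2 / ((p : ℝ) - 1) ^ 2 := this
        _ = _ := by ring
    have hlin : κ / ((p : ℝ) - 1) ≤ κ * (1 / (p : ℝ)) + κ ^ 2 * (1 / ((p : ℝ) - 1) ^ 2) := by
      have e : κ / ((p : ℝ) - 1) = κ * (1 / (p : ℝ)) + κ * (1 / (p * ((p : ℝ) - 1))) := by
        field_simp
        ring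
      rw [e]
      have h2 : 1 / ((p : ℝ) * ((p : ℝ) - 1)) ≤ 1 / ((p : ℝ) - 1) ^ 2 := by
        apply one_div_le_one_div_of_le (by positivity)
        nlinarith
      have h3 : (κ : ℝ) * (1 / (p * ((p : ℝ) - 1))) ≤ κ ^ 2 * (1 / ((p : ℝ) - 1) ^ 2) := by
        apply mul_le_mul _ h2 (by positivity) (by positivity)
        nlinarith
      linarith
    linarith
  have h2 : Real.exp (-(∑ p ∈ P1 N z ε, (κ * (1 / (p : ℝ)) + 3 * κ ^ 2 * (1 / ((p : ℝ) - 1) ^ 2)))) ≤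
      ∏ p ∈ P1 N z ε, (1 - g p) := by
    rw [← sum_neg_distrib, Real.exp_sum]
    exact prod_le_prod (fun _ _ => (Real.exp_pos _).le) h1
  refine le_trans ?_ h2
  have hsub : P1 N z ε ⊆ (Ioc z N).filter Nat.Prime := by
    intro p hp
    rw [mem_P1] at hp
    rw [mem_filter, mem_Ioc]
    exact ⟨hp.1, hp.2.1⟩
  have hsub2 : P1 N z ε ⊆ (Ioc 2 N).filter Nat.Prime := by
    intro p hp
    rw [mem_P1] at hp
    rw [mem_filter, mem_Ioc]
    exact ⟨⟨by omega, hp.1.2⟩, hp.2.1⟩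
  have hs1 : ∑ p ∈ P1 N z ε, 1 / (p : ℝ) ≤ Real.log (Real.log N / Real.log 2) + C / Real.log 2 := by
    have h3 := hC 2 N le_rfl (by omega)
    rw [abs_le] at h3
    push_cast at h3
    have h4 := sum_le_sum_of_subset_of_nonneg (f := fun p : ℕ => 1 / (p : ℝ)) hsub2
      (fun _ _ _ => by positivity)
    linarith [h3.2]
  have hs2 : ∑ p ∈ P1 N z ε, 1 / ((p : ℝ) - 1) ^ 2 ≤ 2 := by
    refine le_trans ?_ (sum_sq_le z N (by omega))
    exact sum_le_sum_of_subset_of_nonneg hsub (fun _ _ _ => by positivity)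
  have hsum : ∑ p ∈ P1 N z ε, (κ * (1 / (p : ℝ)) + 3 * κ ^ 2 * (1 / ((p : ℝ) - 1) ^ 2)) ≤
      κ * (Real.log (Real.log N / Real.log 2) + C / Real.log 2) + 3 * κ ^ 2 * 2 := by
    rw [sum_add_distrib, ← mul_sum, ← mul_sum]
    exact add_le_add (mul_le_mul_of_nonneg_left hs1 (by positivity))
      (mul_le_mul_of_nonneg_left hs2 (by positivity))
  refine le_trans (le_of_eq ?_) (Real.exp_le_exp.2 (neg_le_neg hsum))
  have e1 : -(κ * (Real.log (Real.log N / Real.log 2) + C / Real.log 2) + 3 * κ ^ 2 * 2) =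
      κ * Real.log (Real.log 2 / Real.log N) + -(κ * (C / Real.log 2) + 6 * κ ^ 2) := by
    rw [Real.log_div hlN.ne' hl2.ne', Real.log_div hl2.ne' hlN.ne']
    ring
  rw [e1, Real.exp_add, Real.exp_nat_mul, Real.exp_log (by positivity), div_pow]
  ring

end Pool.Agent.KS6_51.CH
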