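import Pool.Agent.KS6_51.CH6

/-!
# Chen's theorem inside sifted sets, part 7: the weights
-/

set_option autoImplicit false

namespace Pool.Agent.KS6_51.CH

open Finset Filter Pool.Agent.W23.DC Pool.Agent.Y660.RP Pool.Agent.Y843.CH

theorem exists_crt (z : ℕ) (f : ℕ → ℕ) : ∃ a : ℕ, ∀ p : ℕ, p.Prime → p ≤ z → a ≡ f p [MOD p] := by
  classical
  have h := Nat.chineseRemainderOfFinset f (fun p : ℕ => p) ((range (z + 1)).filter Nat.Prime)
    (by
      intro p hp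
      rw [mem_filter] at hp
      exact hp.2.ne_zero) (by
      intro p hp q hq hpq
      rw [mem_coe, mem_filter] at hp hq
      exact (Nat.coprime_primes hp.2 hq.2).2 hpq)
  refine ⟨h.1, fun p hp hpz => h.2 p ?_⟩
  rw [mem_filter, mem_range]
  exact ⟨by omega, hp⟩

theorem dvd_primorial {p z : ℕ} (hp : p.Prime) (hpz : p ≤ z) : p ∣ primorial z := by
  unfold primorial
  apply dvd_prod_of_mem
  rw [mem_filter, mem_range]
  exact ⟨by omega, hp⟩

theorem le_of_dvd_primorial {p z : ℕ} (hp : p.Prime) (h : p ∣ primorial z) : p ≤ z := by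
  unfold primorial at h
  rw [hp.prime.dvd_finsetProd_iff] at h
  obtain ⟨q, hq, hpq⟩ := h
  rw [mem_filter, mem_range] at hq
  have := (Nat.prime_dvd_prime_iff_eq hp hq.2).1 hpq
  omega

theorem squarefree_primorial (z : ℕ) : Squarefree (primorial z) := by
  unfold primorial
  apply Finset.squarefree_prod_of_pairwise_isCoprime
  · intro p hp q hq hpq
    rw [mem_coe, mem_filter] at hp hq
    exact Nat.coprime_iff_isRelPrime.1 ((Nat.coprime_primes hp.2 hq.2).2 hpq)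
  · intro p hp
    rw [mem_filter] at hp
    exact hp.2.squarefree

/-! ### The multiples of squares -/

open Classical in
/-- the `n` for which `n + j` is divisible by a square -/
noncomputable def NS (X N j : ℕ) : Finset ℕ :=
  (Ioc X (2 * X)).filter (fun n => ∃ p : ℕ, p.Prime ∧ (N : ℝ) ^ (1 / 4 : ℝ) ≤ p ∧
    (p : ℝ) < (N : ℝ) ^ (667 / 1000 : ℝ) ∧ p ^ 2 ∣ n + j)

theorem NS_card {X N j : ℕ} (hN : 1 ≤ N) (hX : 2 * X + j ≤ 3 * N ^ 2) :
    ((NS X N j).card : ℝ) ≤ 6 * (N : ℝ) ^ (7 / 4 : ℝ) := by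
  classical
  have hNr : (1 : ℝ) ≤ N := by exact_mod_cast hN
  have hy1 : 1 ≤ (N : ℝ) ^ (1 / 4 : ℝ) := Real.one_le_rpow hNr (by norm_num)
  obtain ⟨k, hk⟩ : ∃ k : ℕ, k = ⌈(N : ℝ) ^ (1 / 4 : ℝ)⌉₊ - 1 := ⟨_, rfl⟩
  have hsub : NS X N j ⊆ (Ioo k (N + 1)).biUnion (fun p =>
      (Ioc X (2 * X)).filter (fun n => p ^ 2 ∣ n + j)) := by
    intro n hn
    unfold NS at hn
    rw [mem_filter] at hn
    obtain ⟨h0, p, hp, h1, h2, h3⟩ := hn
    rw [mem_biUnion]
    refine ⟨p, ?_, mem_filter.2 ⟨h0, h3⟩⟩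
    rw [mem_Ioo]
    constructor
    · rw [hk, lt_iff_ceil hp.pos]
      exact h1
    · have h5 : (N : ℝ) ^ (667 / 1000 : ℝ) ≤ (N : ℝ) ^ (1 : ℝ) :=
        Real.rpow_le_rpow_of_exponent_le hNr (by norm_num)
      rw [Real.rpow_one] at h5
      have h6 : (p : ℝ) < N := h2.trans_le h5
      have h7 : p < N := by exact_mod_cast h6
      omega
  have hone : ∀ p ∈ Ioo k (N + 1), (((Ioc X (2 * X)).filter (fun n => p ^ 2 ∣ n + j)).card : ℝ) ≤
      3 * (N : ℝ) ^ 2 * ((p : ℝ) ^ 2)⁻¹ := by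
    intro p _
    have h1 : ((Ioc X (2 * X)).filter (fun n => p ^ 2 ∣ n + j)).card ≤
        ((Ioc 0 (2 * X + j)).filter (fun m => p ^ 2 ∣ m)).card := by
      apply card_le_card_of_injOn (fun n => n + j)
      · intro n hn
        rw [mem_coe, mem_filter, mem_Ioc] at hn
        rw [mem_coe, mem_filter, mem_Ioc]
        refine ⟨⟨?_, ?_⟩, hn.2⟩
        · show 0 < n + j
          omega
        · show n + j ≤ 2 * X + j
          omega
      · intro a _ b _ hab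
        have : a + j = b + j := hab
        omega
    rw [Nat.Ioc_filter_dvd_card_eq_div] at h1
    have h2 : (((2 * X + j) / p ^ 2 : ℕ) : ℝ) ≤ ((2 * X + j : ℕ) : ℝ) / ((p ^ 2 : ℕ) : ℝ) :=
      Nat.cast_div_le
    have h3 : ((2 * X + j : ℕ) : ℝ) ≤ 3 * (N : ℝ) ^ 2 := by exact_mod_cast hX
    have h4 : (((Ioc X (2 * X)).filter (fun n => p ^ 2 ∣ n + j)).card : ℝ) ≤
        (((2 * X + j) / p ^ 2 : ℕ) : ℝ) := by exact_mod_cast h1
    refine h4.trans (h2.trans ?_)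
    rw [div_eq_mul_inv]
    push_cast
    push_cast at h3
    exact mul_le_mul_of_nonneg_right h3 (by positivity)
  have h1 : ((NS X N j).card : ℝ) ≤ ∑ p ∈ Ioo k (N + 1), 3 * (N : ℝ) ^ 2 * ((p : ℝ) ^ 2)⁻¹ := by
    have h2 : (NS X N j).card ≤ ∑ p ∈ Ioo k (N + 1),
        ((Ioc X (2 * X)).filter (fun n => p ^ 2 ∣ n + j)).card :=
      (card_le_card hsub).trans card_biUnion_le
    have h3 : ((NS X N j).card : ℝ) ≤ ((∑ p ∈ Ioo k (N + 1),
        ((Ioc X (2 * X)).filter (fun n => p ^ 2 ∣ n + j)).card : ℕ) : ℝ) := by exact_mod_cast h2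
    rw [Nat.cast_sum] at h3
    exact h3.trans (sum_le_sum hone)
  refine h1.trans ?_
  rw [← mul_sum]
  have h2 := sum_Ioo_inv_sq_le (α := ℝ) k (N + 1)
  have h3 : (N : ℝ) ^ (1 / 4 : ℝ) ≤ (k : ℝ) + 1 := by
    have := le_ceil_sub_one ((N : ℝ) ^ (1 / 4 : ℝ))
    rw [← hk] at this
    linarith
  have h4 : 2 / ((k : ℝ) + 1) ≤ 2 / (N : ℝ) ^ (1 / 4 : ℝ) :=
    div_le_div_of_nonneg_left (by norm_num) (by linarith) h3
  calc 3 * (N : ℝ) ^ 2 * ∑ p ∈ Ioo k (N + 1), ((p : ℝ) ^ 2)⁻¹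
      ≤ 3 * (N : ℝ) ^ 2 * (2 / (N : ℝ) ^ (1 / 4 : ℝ)) :=
        mul_le_mul_of_nonneg_left (h2.trans h4) (by positivity)
    _ = 6 * ((N : ℝ) ^ (2 : ℝ) / (N : ℝ) ^ (1 / 4 : ℝ)) := by
        rw [Real.rpow_two]; ring
    _ = 6 * (N : ℝ) ^ (7 / 4 : ℝ) := by
        rw [← Real.rpow_sub (by linarith)]
        norm_num

/-! ### The weights -/

open Classical in
/-- the integers to be found -/
noncomputable def GG (X N z i j m₀ a₀ : ℕ) (ε : ℝ) (E : ℕ → Finset ℕ) : Finset ℕ :=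
  (Om1 X i).filter (fun n => n ≡ a₀ [MOD m₀] ∧ (∀ p ∈ P1 N z ε, n % p ∉ E p) ∧
    (∀ p : ℕ, p.Prime → p ∣ n + j → (N : ℝ) ^ (1 / 4 : ℝ) ≤ p) ∧
    (n + j).primeFactorsList.length ≤ 2)

open Classical in
/-- the first sifted set -/
noncomputable def S1 (X N z i j m₀ a₀ : ℕ) (ε : ℝ) (E : ℕ → Finset ℕ) : Finset ℕ :=
  ((Om1 X i).filter (fun n => n ≡ a₀ [MOD m₀])).filter
    (fun n => ∀ p ∈ P1 N z ε, ¬ p ∣ vv N z ε E j n)

open Classical in
/-- the second sifted set -/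
noncomputable def S2 (X N D z i j m₀ a₀ : ℕ) (ε : ℝ) (E : ℕ → Finset ℕ) : Finset (ℕ × ℕ) :=
  ((Om2 N D ((X + j : ℕ) : ℝ) ((2 * X + j : ℕ) : ℝ)).filter
    (fun x => x.1 * x.2 - j ≡ a₀ [MOD m₀])).filter
    (fun x => (∀ p ∈ P1 N z ε, ¬ p ∣ vv N z ε E i (x.1 * x.2 - j)) ∧
      ∀ p ∈ pr N ε (7 / 20), ¬ p ∣ vv N z ε E i (x.1 * x.2 - j))

open Classical in
/-- the exceptional integers -/
noncomputable def BB (X N z i j m₀ a₀ : ℕ) (ε : ℝ) (E : ℕ → Finset ℕ) : Finset ℕ :=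
  (S1 X N z i j m₀ a₀ ε E).filter (fun n => ∃ p₁ p₂ p₃ : ℕ, p₁ ∈ pr N (1 / 4) (667 / 1000) ∧
    p₂.Prime ∧ p₃.Prime ∧ (N : ℝ) ^ (667 / 1000 : ℝ) ≤ p₂ ∧ p₂ ≤ p₃ ∧ n + j = p₁ * (p₂ * p₃))

theorem BB_card {X N D z i j m₀ a₀ : ℕ} {ε : ℝ} {E : ℕ → Finset ℕ} (hN : 2 ≤ N) (hD : 0 < D)
    (hNX : N ^ 2 ≤ X) :
    (BB X N z i j m₀ a₀ ε E).card ≤ (S2 X N D z i j m₀ a₀ ε E).card := by
  classical
  have hN1 : 1 ≤ N := by omega
  have hNr : (1 : ℝ) < N := by exact_mod_cast (by omega : 1 < N)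
  have hDr : (0 : ℝ) < D := by exact_mod_cast hD
  have hNX' : N ≤ X := (Nat.le_self_pow (by norm_num) N).trans hNX
  have hsub : BB X N z i j m₀ a₀ ε E ⊆
      (S2 X N D z i j m₀ a₀ ε E).image (fun x => x.1 * x.2 - j) := by
    intro n hn
    unfold BB at hn
    rw [mem_filter] at hn
    obtain ⟨hn1, p₁, p₂, p₃, h1, h2, h3, h4, h5, h6⟩ := hn
    unfold S1 at hn1
    rw [mem_filter, mem_filter, mem_Om1] at hn1
    obtain ⟨⟨⟨⟨hX1, hX2⟩, hpr⟩, hmod⟩, hsift⟩ := hn1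
    rw [mem_pr] at h1
    obtain ⟨-, hp1, h7, h8⟩ := h1
    rw [le_tt_iff hN hp1] at h7
    rw [tt_lt_iff hN hp1] at h8
    have e : p₁ * (p₂ * p₃) - j = n := by omega
    rw [mem_image]
    refine ⟨(p₁, p₂ * p₃), ?_, e⟩
    -- the primes do not divide
    have hnot : ∀ p : ℕ, p.Prime → (p : ℝ) ≤ N → ¬ p ∣ vv N z ε E i n := by
      intro p hp hpN hd
      rw [dvd_vv hp] at hd
      rcases hd with hd | hd
      · have h9 : p = n + i := (Nat.prime_dvd_prime_iff_eq hp hpr).1 hd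
        have h10 : p ≤ N := by exact_mod_cast hpN
        omega
      · exact hsift p hd.1 ((dvd_vv hp).2 (Or.inr hd))
    unfold S2
    rw [mem_filter, mem_filter]
    refine ⟨⟨?_, ?_⟩, ?_, ?_⟩
    · -- membership in Om2
      rw [mem_Om2]
      have hp1r : (0 : ℝ) < p₁ := by exact_mod_cast hp1.pos
      have hlog : 0 ≤ Real.log p₁ := Real.log_nonneg (by exact_mod_cast hp1.one_lt.le)
      set t := ⌊D * Real.log p₁⌋₊ with ht
      have ht1 : (t : ℝ) ≤ D * Real.log p₁ := Nat.floor_le (by positivity)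
      have ht2 : D * Real.log p₁ < t + 1 := Nat.lt_floor_add_one _
      have hb1 : Real.exp (t / D) ≤ p₁ := by
        rw [← Real.le_log_iff_exp_le hp1r, div_le_iff₀ hDr]
        linarith
      have hb2 : (p₁ : ℝ) < Real.exp ((t + 1) / D) := by
        rw [← Real.log_lt_iff_lt_exp hp1r, lt_div_iff₀ hDr]
        linarith
      have hm1 : (1 : ℝ) ≤ ((p₂ * p₃ : ℕ) : ℝ) := by
        exact_mod_cast Nat.mul_pos h2.pos h3.pos
      have hle : Real.exp (t / D) * ((p₂ * p₃ : ℕ) : ℝ) ≤ ((2 * X + j : ℕ) : ℝ) := by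
        calc Real.exp (t / D) * ((p₂ * p₃ : ℕ) : ℝ) ≤ p₁ * ((p₂ * p₃ : ℕ) : ℝ) := by gcongr
          _ = ((n + j : ℕ) : ℝ) := by rw [h6]; push_cast; ring
          _ ≤ _ := by exact_mod_cast (by omega : n + j ≤ 2 * X + j)
      refine ⟨t, ?_, ?_, ?_⟩
      · unfold JJ
        rw [mem_filter, mem_range]
        refine ⟨?_, ?_, ?_⟩
        · have h9 : (p₁ : ℝ) ≤ N := by
            have h10 : (N : ℝ) ^ (667 / 1000 : ℝ) ≤ (N : ℝ) ^ (1 : ℝ) :=
              Real.rpow_le_rpow_of_exponent_le hNr.le (by norm_num)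
            rw [Real.rpow_one] at h10
            linarith
          have h11 : t ≤ ⌊D * Real.log N⌋₊ := by
            apply Nat.floor_le_floor
            apply mul_le_mul_of_nonneg_left _ hDr.le
            exact Real.log_le_log hp1r h9
          omega
        · linarith
        · linarith
      · rw [mem_PP]
        exact ⟨hp1, ⟨hb1, hb2⟩, h7, h8⟩
      · rw [mem_TT]
        refine ⟨⟨Nat.mul_pos h2.pos h3.pos, ?_⟩, p₂, p₃, h2, h3, h4, h5, rfl, ?_, hle⟩
        · apply Nat.le_floor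
          rw [le_div_iff₀ (Real.exp_pos _), mul_comm]
          exact hle
        · calc ((X + j : ℕ) : ℝ) < ((n + j : ℕ) : ℝ) := by exact_mod_cast (by omega : X + j < n + j)
            _ = p₁ * ((p₂ * p₃ : ℕ) : ℝ) := by rw [h6]; push_cast; ring
            _ ≤ _ := by gcongr
    · show p₁ * (p₂ * p₃) - j ≡ a₀ [MOD m₀]
      rw [e]
      exact hmod
    · intro p hp
      show ¬ p ∣ vv N z ε E i (p₁ * (p₂ * p₃) - j)
      rw [e]
      rw [mem_P1] at hp
      exact hnot p hp.2.1 (by exact_mod_cast hp.1.2)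
    · intro p hp
      show ¬ p ∣ vv N z ε E i (p₁ * (p₂ * p₃) - j)
      rw [e]
      rw [mem_pr] at hp
      exact hnot p hp.2.1 (by exact_mod_cast hp.1.2)
  exact (card_le_card hsub).trans card_image_le

theorem weights : ∃ N₀ : ℕ, ∀ N : ℕ, N₀ ≤ N → ∀ (X D z i j a₀ : ℕ) (ε : ℝ) (E : ℕ → Finset ℕ),
    0 < D → ε ≤ 1 / 8 → N ^ 2 ≤ X → 2 * X + j ≤ 3 * N ^ 2 → 1 ≤ j + X →
    (a₀ + j).Coprime (primorial z) →
    ∑ n ∈ S1 X N z i j (primorial z) a₀ ε E, II N ε (vv N z ε E j n) *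
      (1 - 1 / 2 * ∑ q ∈ pr N (1 / 4) (667 / 1000), (if q ∣ vv N z ε E j n then 1 else 0)) ≤
    ((GG X N z i j (primorial z) a₀ ε E).card : ℝ) +
      1 / 2 * ((S2 X N D z i j (primorial z) a₀ ε E).card : ℝ) + ((NS X N j).card : ℝ) := by
  classical
  obtain ⟨N₁, hN₁⟩ := Pool.Agent.Y73.CH.wt
  refine ⟨max N₁ 2, ?_⟩
  intro N hN X D z i j a₀ ε E hD hε hNX hX3 hjX hcop
  have hNW := hN₁ N ((le_max_left _ _).trans hN)
  have hN2 : 2 ≤ N := (le_max_right _ _).trans hN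
  have hN1 : 1 ≤ N := by omega
  have hNr : (1 : ℝ) ≤ N := by exact_mod_cast hN1
  set m₀ := primorial z with hm₀
  have hBB := BB_card (X := X) (N := N) (D := D) (z := z) (i := i) (j := j) (m₀ := m₀) (a₀ := a₀)
    (ε := ε) (E := E) hN2 hD hNX
  have hterm : ∀ n ∈ S1 X N z i j m₀ a₀ ε E, II N ε (vv N z ε E j n) *
      (1 - 1 / 2 * ∑ q ∈ pr N (1 / 4) (667 / 1000), (if q ∣ vv N z ε E j n then (1 : ℝ) else 0)) ≤
      (if n ∈ GG X N z i j m₀ a₀ ε E then 1 else 0) +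
      1 / 2 * (if n ∈ BB X N z i j m₀ a₀ ε E then 1 else 0) + (if n ∈ NS X N j then 1 else 0) := by
    intro n hn
    have hn' := hn
    unfold S1 at hn'
    rw [mem_filter, mem_filter] at hn'
    obtain ⟨⟨hOm, hmod⟩, hsift⟩ := hn'
    have hOm' := hOm
    rw [mem_Om1] at hOm'
    obtain ⟨⟨hX1, hX2⟩, hpr⟩ := hOm'
    have hnn : (0 : ℝ) ≤ (if n ∈ GG X N z i j m₀ a₀ ε E then 1 else 0) +
      1 / 2 * (if n ∈ BB X N z i j m₀ a₀ ε E then 1 else 0) + (if n ∈ NS X N j then 1 else 0) := by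
      have h1 : (0 : ℝ) ≤ (if n ∈ GG X N z i j m₀ a₀ ε E then 1 else 0) := by split_ifs <;> norm_num
      have h2 : (0 : ℝ) ≤ (if n ∈ BB X N z i j m₀ a₀ ε E then 1 else 0) := by split_ifs <;> norm_num
      have h3 : (0 : ℝ) ≤ (if n ∈ NS X N j then 1 else 0) := by split_ifs <;> norm_num
      linarith
    unfold II
    by_cases hII : ∀ p ∈ pr N ε (1 / 4), ¬ p ∣ vv N z ε E j n
    · rw [if_pos hII, one_mul]
      -- the prime factors are large
      have hpf : ∀ p : ℕ, p.Prime → p ∣ n + j → (N : ℝ) ^ (1 / 4 : ℝ) ≤ p := by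
        intro p hp hd
        by_contra hlt
        push Not at hlt
        have hdv : p ∣ vv N z ε E j n := (dvd_vv hp).2 (Or.inl hd)
        have hpN : p ≤ N := by
          have h10 : (N : ℝ) ^ (1 / 4 : ℝ) ≤ (N : ℝ) ^ (1 : ℝ) :=
            Real.rpow_le_rpow_of_exponent_le hNr (by norm_num)
          rw [Real.rpow_one] at h10
          exact_mod_cast (hlt.trans_le h10).le
        rcases le_or_gt p z with hpz | hpz
        · have h1 : p ∣ m₀ := dvd_primorial hp hpz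
          have h2 : n + j ≡ a₀ + j [MOD p] := (hmod.of_dvd h1).add_right j
          have h3 : p ∣ a₀ + j := (h2.dvd_iff dvd_rfl).1 hd
          have h4 : p ∣ Nat.gcd (a₀ + j) m₀ := Nat.dvd_gcd h3 h1
          rw [hcop] at h4
          exact hp.one_lt.ne' (Nat.dvd_one.1 h4)
        · rcases lt_or_ge (p : ℝ) ((N : ℝ) ^ ε) with h1 | h1
          · exact hsift p (mem_P1.2 ⟨⟨hpz, hpN⟩, hp, h1⟩) hdv
          · exact hII p (mem_pr.2 ⟨⟨hp.one_lt.le, hpN⟩, hp, (le_tt_iff hN2 hp _).2 h1,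
              (tt_lt_iff hN2 hp _).2 hlt⟩) hdv
      have hE : ∀ p ∈ P1 N z ε, n % p ∉ E p := by
        intro p hp hpE
        exact hsift p hp ((dvd_vv (mem_P1.1 hp).2.1).2 (Or.inr ⟨hp, hpE⟩))
      have hsum : (((pr N (1 / 4) (667 / 1000)).filter (fun q => q ∣ n + j)).card : ℝ) ≤
          ∑ q ∈ pr N (1 / 4) (667 / 1000), (if q ∣ vv N z ε E j n then (1 : ℝ) else 0) := by
        rw [sum_boole]
        have h1 : (pr N (1 / 4) (667 / 1000)).filter (fun q => q ∣ n + j) ⊆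
            (pr N (1 / 4) (667 / 1000)).filter (fun q => q ∣ vv N z ε E j n) := by
          intro q hq
          rw [mem_filter] at hq ⊢
          exact ⟨hq.1, (dvd_vv (mem_pr.1 hq.1).2.1).2 (Or.inl hq.2)⟩
        exact_mod_cast card_le_card h1
      set k := ((pr N (1 / 4) (667 / 1000)).filter (fun q => q ∣ n + j)).card with hk
      have hk0 : (0 : ℝ) ≤ k := Nat.cast_nonneg _
      have hB0 : (0 : ℝ) ≤ (if n ∈ BB X N z i j m₀ a₀ ε E then 1 else 0) := by split_ifs <;> norm_num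
      have hG0 : (0 : ℝ) ≤ (if n ∈ GG X N z i j m₀ a₀ ε E then 1 else 0) := by split_ifs <;> norm_num
      have hN0 : (0 : ℝ) ≤ (if n ∈ NS X N j then 1 else 0) := by split_ifs <;> norm_num
      by_cases hNS : n ∈ NS X N j
      · rw [if_pos hNS]
        linarith
      · have hw := hNW (n + j) (by omega) (by omega) hpf (by
          intro p hp hd
          by_contra hlt
          push Not at hlt
          apply hNS
          unfold NS
          rw [mem_filter, mem_Ioc]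
          exact ⟨⟨hX1, hX2⟩, p, hp, hpf p hp ((dvd_pow_self p (by norm_num)).trans hd), hlt, hd⟩)
        rcases hw with hw | hw | hw
        · have hG : n ∈ GG X N z i j m₀ a₀ ε E := by
            unfold GG
            rw [mem_filter]
            exact ⟨hOm, hmod, hE, hpf, hw⟩
          rw [if_pos hG]
          linarith
        · have h1 : (2 : ℝ) ≤ k := by exact_mod_cast hw
          linarith
        · have h1 : (k : ℝ) = 1 := by exact_mod_cast hw.1
          have hB : n ∈ BB X N z i j m₀ a₀ ε E := by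
            unfold BB
            rw [mem_filter]
            exact ⟨hn, hw.2⟩
          rw [if_pos hB]
          linarith
    · rw [if_neg hII, zero_mul]
      exact hnn
  refine (sum_le_sum hterm).trans ?_
  rw [sum_add_distrib, sum_add_distrib, ← mul_sum, sum_boole, sum_boole, sum_boole]
  have h1 : ((S1 X N z i j m₀ a₀ ε E).filter (fun n => n ∈ GG X N z i j m₀ a₀ ε E)).card ≤
      (GG X N z i j m₀ a₀ ε E).card :=
    card_le_card (fun n hn => (mem_filter.1 hn).2)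
  have h2 : ((S1 X N z i j m₀ a₀ ε E).filter (fun n => n ∈ BB X N z i j m₀ a₀ ε E)).card ≤
      (S2 X N D z i j m₀ a₀ ε E).card :=
    (card_le_card (fun n hn => (mem_filter.1 hn).2)).trans hBB
  have h3 : ((S1 X N z i j m₀ a₀ ε E).filter (fun n => n ∈ NS X N j)).card ≤
      (NS X N j).card :=
    card_le_card (fun n hn => (mem_filter.1 hn).2)
  have h1' : (((S1 X N z i j m₀ a₀ ε E).filter (fun n => n ∈ GG X N z i j m₀ a₀ ε E)).card : ℝ) ≤
      (GG X N z i j m₀ a₀ ε E).card := by exact_mod_cast h1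
  have h2' : (((S1 X N z i j m₀ a₀ ε E).filter (fun n => n ∈ BB X N z i j m₀ a₀ ε E)).card : ℝ) ≤
      (S2 X N D z i j m₀ a₀ ε E).card := by exact_mod_cast h2
  have h3' : (((S1 X N z i j m₀ a₀ ε E).filter (fun n => n ∈ NS X N j)).card : ℝ) ≤
      (NS X N j).card := by exact_mod_cast h3
  linarith

end Pool.Agent.KS6_51.CH
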