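import Pool.Agent.KS6_51.CH7

/-!
# Chen's theorem inside sifted sets, part 8: the end of the proof
-/

set_option autoImplicit false

namespace Pool.Agent.KS6_51.CH

open Finset Filter Pool.Agent.W23.DC Pool.Agent.Y660.RP Pool.Agent.Y843.CH

theorem exp_small : Real.exp (1 / ((10000 : ℕ) : ℝ)) ≤ 1 + 2 / 10000 ∧
    1 - 1 / 10000 ≤ Real.exp (-(1 / ((10000 : ℕ) : ℝ))) := by
  constructor
  · have h := Real.abs_exp_sub_one_le (x := 1 / ((10000 : ℕ) : ℝ)) (by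
      rw [abs_of_nonneg (by positivity)]
      norm_num)
    rw [abs_of_nonneg (by positivity : (0 : ℝ) ≤ 1 / ((10000 : ℕ) : ℝ))] at h
    have h2 := le_abs_self (Real.exp (1 / ((10000 : ℕ) : ℝ)) - 1)
    push_cast at h h2 ⊢
    linarith
  · have h := Real.add_one_le_exp (-(1 / ((10000 : ℕ) : ℝ)))
    push_cast at h ⊢
    linarith

theorem Tot_nonneg (N D : ℕ) (a b : ℝ) : 0 ≤ Tot N D a b := by
  unfold Tot
  exact sum_nonneg fun t _ => mul_nonneg (Nat.cast_nonneg _) (Nat.cast_nonneg _)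

theorem exists_D : ∃ D : ℕ, 0 < D ∧ D ≤ 10000 ∧ Real.exp (1 / (D : ℝ)) ≤ 1 + 2 / 10000 ∧
    1 - 1 / 10000 ≤ Real.exp (-(1 / (D : ℝ))) :=
  ⟨10000, by norm_num, le_rfl, exp_small.1, exp_small.2⟩

theorem ev_log (C : ℝ) : ∃ N₀ : ℕ, ∀ N : ℕ, N₀ ≤ N → C ≤ Real.log N := by
  have hl : Tendsto (fun n : ℕ => Real.log n) atTop atTop :=
    Real.tendsto_log_atTop.comp tendsto_natCast_atTop_atTop
  exact eventually_atTop.1 (hl.eventually_ge_atTop C)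

theorem ev_pow (k : ℕ) (c : ℝ) (hc : 0 < c) : ∃ N₀ : ℕ, ∀ N : ℕ, N₀ ≤ N →
    Real.log N ^ k ≤ c * (N : ℝ) ^ (1 / 4 : ℝ) := by
  have h := (isLittleO_log_rpow_rpow_atTop (k : ℝ) (by norm_num : (0 : ℝ) < 1 / 4)).bound hc
  have h2 := tendsto_natCast_atTop_atTop.eventually h
  obtain ⟨N₀, hN₀⟩ := eventually_atTop.1 h2
  refine ⟨max N₀ 1, fun N hN => ?_⟩
  have h3 := hN₀ N ((le_max_left _ _).trans hN)
  have hN1 : 1 ≤ N := (le_max_right _ _).trans hN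
  rw [Real.rpow_natCast, Real.norm_eq_abs, Real.norm_eq_abs,
    abs_of_nonneg (by positivity : (0 : ℝ) ≤ (N : ℝ) ^ (1 / 4 : ℝ))] at h3
  exact (le_abs_self _).trans h3

/-- the numerical heart of the argument -/
theorem numer {A0 LB ε P Q φ a1 a2 η : ℝ} (hA0 : 0 < A0) (hLB : 197 / 1000 ≤ LB) (hε : 0 < ε)
    (hP : 0 ≤ P) (hQ : 0 ≤ Q) (hφ : 0 < φ) (hη : η = A0 / 2000)
    (h1 : (1 / 2 - 1 / 10000) * Q ≤ a1) (h2 : a2 ≤ 1953 / 10000 * Q) :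
    A0 / 2000 * (ε * (P * Q) / φ) ≤
      ε * (a1 / φ * P) * (A0 * (1000 / 998 * LB) - η) -
      1 / 2 * (ε * (a2 / φ * P) * (1000 / 998 * A0 + η)) := by
  subst hη
  have e : ε * (a1 / φ * P) * (A0 * (1000 / 998 * LB) - A0 / 2000) -
      1 / 2 * (ε * (a2 / φ * P) * (1000 / 998 * A0 + A0 / 2000)) =
      (ε * P / φ * A0) * (a1 * (1000 / 998 * LB - 1 / 2000) -
        a2 * (1 / 2 * (1000 / 998 + 1 / 2000))) := by
    field_simp
  have e2 : A0 / 2000 * (ε * (P * Q) / φ) = (ε * P / φ * A0) * (Q / 2000) := by ring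
  rw [e, e2]
  apply mul_le_mul_of_nonneg_left _ (by positivity)
  have h3 : (1 / 2 - 1 / 10000) * Q * (197 / 998 - 1 / 2000) ≤
      a1 * (1000 / 998 * LB - 1 / 2000) := by
    apply mul_le_mul h1 (by linarith) (by norm_num)
    exact le_trans (by positivity) h1
  have h4 : a2 * (1 / 2 * (1000 / 998 + 1 / 2000)) ≤
      1953 / 10000 * Q * (1 / 2 * (1000 / 998 + 1 / 2000)) :=
    mul_le_mul_of_nonneg_right h2 (by norm_num)
  nlinarith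

theorem chenN (K i j : ℕ) (hij : i ≠ j) : ∃ z₀ : ℕ, ∀ z : ℕ, z₀ ≤ z → ∃ (ε c : ℝ) (N₀ : ℕ),
    0 < ε ∧ ε ≤ 1 / 8 ∧ 0 < c ∧ ∀ N : ℕ, N₀ ≤ N → ∀ X : ℕ, N ^ 2 ≤ X → X ≤ N ^ 2 + 2 * N →
    ∀ (E : ℕ → Finset ℕ) (a₀ : ℕ), (∀ p : ℕ, p.Prime → z < p → (E p).card ≤ K) →
    (a₀ + i).Coprime (primorial z) → (a₀ + j).Coprime (primorial z) →
    c * (X / Real.log N ^ (K + 2)) ≤ ((GG X N z i j (primorial z) a₀ ε E).card : ℝ) := by
  classical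
  obtain ⟨A0, C0, hA0, hcore⟩ := Pool.Agent.Y261.CH.core (K + 1) (by omega)
  obtain ⟨D, hD0, hD1, hexp1, hexp2⟩ := exists_D
  refine ⟨max (max C0 (2 * (K + 1) + 2)) (max i j), ?_⟩
  intro z hz
  have hzC : C0 ≤ z := ((le_max_left _ _).trans (le_max_left _ _)).trans hz
  have hzK : 2 * (K + 1) + 2 ≤ z := ((le_max_right _ _).trans (le_max_left _ _)).trans hz
  have hzi : i ≤ z := ((le_max_left _ _).trans (le_max_right _ _)).trans hz
  have hzj : j ≤ z := ((le_max_right _ _).trans (le_max_right _ _)).trans hz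
  obtain ⟨ε, hε0, hε8, Nc, hNc2, hcoreN⟩ := hcore z hzC (A0 / 2000) (by positivity)
  have hm₀ : 0 < primorial z := primorial_pos z
  have hmz : ∀ p : ℕ, p.Prime → p ∣ primorial z → p ≤ z := fun p hp h => le_of_dvd_primorial hp h
  set m₀ := primorial z with hm₀d
  obtain ⟨φ, hφd⟩ : ∃ φ : ℝ, φ = (Nat.totient m₀ : ℝ) := ⟨_, rfl⟩
  have hφ : 0 < φ := by rw [hφd]; exact_mod_cast Nat.totient_pos.2 hm₀
  obtain ⟨X₁, hX₁⟩ := first_rem K i m₀ (K + 5) hm₀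
  obtain ⟨N₂, hN₂⟩ := second_rem K m₀ (K + 5) D hm₀ (squarefree_primorial z) hD0
  obtain ⟨N₃, hN₃⟩ := Tot_le (1 / 10000) (by norm_num)
  obtain ⟨X₄, hX₄⟩ := Om1_ge (1 / 100000) (by norm_num) (by norm_num) i
  obtain ⟨c₁, hc₁, hprod⟩ := prod_ge (K + 1) (by omega)
  obtain ⟨N₅, hN₅⟩ := weights
  obtain ⟨c', hc'⟩ : ∃ c' : ℝ, c' = A0 / 2000 * (ε * c₁ / φ) := ⟨_, rfl⟩
  have hc'0 : 0 < c' := by rw [hc']; positivity
  obtain ⟨N₆, hN₆⟩ := ev_log (max (100000 * Real.log 3) (max 1 (4 * 10006 / c')))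
  obtain ⟨N₇, hN₇⟩ := ev_pow (K + 2) (c' / 24) (by positivity)
  refine ⟨ε, c' / 2, max (max (max Nc X₁) (max N₂ N₃)) (max (max X₄ N₅) (max (max N₆ N₇) (j + 5))),
    hε0, hε8, by positivity, ?_⟩
  intro N hN X hNX hXN E a₀ hE hcopi hcopj
  obtain ⟨⟨⟨hNc, hNX1⟩, hN2, hN3⟩, ⟨hNX4, hN5⟩, ⟨hN6, hN7⟩, hNj⟩ :
    ((Nc ≤ N ∧ X₁ ≤ N) ∧ N₂ ≤ N ∧ N₃ ≤ N) ∧ (X₄ ≤ N ∧ N₅ ≤ N) ∧ (N₆ ≤ N ∧ N₇ ≤ N) ∧ j + 5 ≤ N := by
    simpa only [max_le_iff] using hN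
  have hNsq : N ≤ N ^ 2 := Nat.le_self_pow (by norm_num) N
  have hNXX : N ≤ X := hNsq.trans hNX
  have hN1 : 1 ≤ N := by omega
  have hNr : (1 : ℝ) ≤ N := by exact_mod_cast hN1
  have h5N : 5 * N ≤ N ^ 2 := by nlinarith
  have hX3 : 2 * X + j ≤ 3 * N ^ 2 := by omega
  have hjX : j ≤ X := by omega
  have hXr : (0 : ℝ) < X := by exact_mod_cast (by omega : 0 < X)
  obtain ⟨L, hL⟩ : ∃ L : ℝ, L = Real.log N := ⟨_, rfl⟩
  have hLm := hN₆ N hN6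
  rw [← hL, max_le_iff, max_le_iff] at hLm
  obtain ⟨hL3, hL1, hLc⟩ := hLm
  have hL0 : 0 < L := by linarith
  have hLX : L ≤ Real.log X := by
    rw [hL]
    exact Real.log_le_log (by linarith) (by exact_mod_cast hNXX)
  have hXL : Real.log X ≤ 2 * (1 + 1 / 100000) * L := by
    have h1 : Real.log X ≤ Real.log (3 * (N : ℝ) ^ 2) := by
      apply Real.log_le_log hXr
      exact_mod_cast (by omega : X ≤ 3 * N ^ 2)
    rw [Real.log_mul (by norm_num) (by positivity), Real.log_pow, ← hL] at h1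
    push_cast at h1
    have : Real.log 3 ≤ 1 / 100000 * L := by linarith
    linarith
  obtain ⟨hzN, hC⟩ := hcoreN N hNc
  obtain ⟨g, hg⟩ : ∃ g, g = gg ((N : ℝ) ^ ε) i j E := ⟨_, rfl⟩
  have hDg : Dg (K + 1) z ((N : ℝ) ^ ε) 1 g := by
    rw [hg]
    exact Dg_gg hzi hzj hij hzN hE
  have hDg' : ∀ p : ℕ, p.Prime → z < p → 0 ≤ g p ∧ g p ≤ ((K + 1 : ℕ) : ℝ) / ((p : ℝ) - 1) := by
    intro p hp hzp
    exact hDg.1 p hp hzp
  have hPge := hprod z N hzK (by omega) ε g hDg'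
  obtain ⟨P, hPd⟩ : ∃ P, P = ∏ p ∈ P1 N z ε, (1 - g p) := ⟨_, rfl⟩
  rw [← hPd, ← hL] at hPge
  have hP0 : 0 ≤ P := le_trans (by positivity) hPge
  have h1N3 : 1 ≤ N ^ 3 := Nat.one_le_pow _ _ (by omega)
  -- the two parts
  obtain ⟨T1, hT1⟩ : ∃ T1 : ℝ, T1 = ((Om1 X i).card : ℝ) := ⟨_, rfl⟩
  obtain ⟨T2, hT2⟩ : ∃ T2 : ℝ, T2 = Tot N D ((X + j : ℕ) : ℝ) ((2 * X + j : ℕ) : ℝ) := ⟨_, rfl⟩
  have hT10 : 0 ≤ T1 := by rw [hT1]; exact Nat.cast_nonneg _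
  have hT20 : 0 ≤ T2 := by rw [hT2]; exact Tot_nonneg _ _ _ _
  have core1 := (hC ℕ ((Om1 X i).filter (fun n => n ≡ a₀ [MOD m₀])) (fun n => vv N z ε E j n) g
    (T1 / φ) 1 (by positivity) one_ne_zero h1N3 hDg).1
  have core2 := (hC (ℕ × ℕ) ((Om2 N D ((X + j : ℕ) : ℝ) ((2 * X + j : ℕ) : ℝ)).filter
    (fun x => x.1 * x.2 - j ≡ a₀ [MOD m₀])) (fun x => vv N z ε E i (x.1 * x.2 - j)) g
    (T2 / φ) 1 (by positivity) one_ne_zero h1N3 hDg).2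
  have hw := hN₅ N hN5 X D z i j a₀ ε E hD0 hε8 hNX hX3 (by omega) hcopj
  have hR1 := hX₁ X (hNX1.trans hNXX) N hN1 hNX z j ε E a₀ (by linarith) hE hcopi hmz
  have hXjr : (j : ℝ) ≤ X := by exact_mod_cast hjX
  have hbb : ((2 * X + j : ℕ) : ℝ) ≤ 3 * (N : ℝ) ^ 2 := by exact_mod_cast hX3
  have hbe : ((2 * X + j : ℕ) : ℝ) * Real.exp (1 / (D : ℝ)) ≤ 4 * (N : ℝ) ^ 2 := by
    have h1 : ((2 * X + j : ℕ) : ℝ) * Real.exp (1 / (D : ℝ)) ≤
        (3 * (N : ℝ) ^ 2) * (1 + 2 / 10000) :=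
      mul_le_mul hbb hexp1 (Real.exp_pos _).le (by positivity)
    nlinarith [sq_nonneg (N : ℝ)]
  have hR2 := hN₂ N hN2 ((X + j : ℕ) : ℝ) ((2 * X + j : ℕ) : ℝ) (by positivity) (by
      nlinarith [sq_nonneg (N : ℝ)]) i j z ε E a₀ (by linarith) hzi hzj hij (by
      have h1 : ((X + j : ℕ) : ℝ) * (1 - 1 / 10000) ≤
          ((X + j : ℕ) : ℝ) * Real.exp (-(1 / (D : ℝ))) :=
        mul_le_mul_of_nonneg_left hexp2 (by positivity)
      push_cast at h1 ⊢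
      linarith) hE hcopj hmz
  have hT := hN₃ N hN3 D ((X + j : ℕ) : ℝ) ((2 * X + j : ℕ) : ℝ) hD0
    (by positivity) (by exact_mod_cast (by omega : X + j ≤ 2 * X + j)) (by
      have : (N : ℝ) ^ 2 ≤ ((2 * X + j : ℕ) : ℝ) := by
        exact_mod_cast (by omega : N ^ 2 ≤ 2 * X + j)
      linarith [sq_nonneg (N : ℝ)]) hbe
  have hOm := hX₄ X (hNX4.trans hNXX)
  have hNS := NS_card (X := X) (N := N) (j := j) hN1 hX3
  rw [← hT2, ← hL] at hT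
  rw [← hT1] at hOm
  rw [← hT1, ← hφd, ← hg] at hR1
  rw [← hT2, ← hφd, ← hg, ← hL] at hR2
  rw [← hPd, ← hL] at core1 core2
  -- the sizes
  have hQ0 : 0 ≤ (X : ℝ) / L := by positivity
  have hN2X : (N : ℝ) ^ 2 ≤ X := by exact_mod_cast hNX
  have ha1 : (1 / 2 - 1 / 10000) * ((X : ℝ) / L) ≤ T1 := by
    refine le_trans ?_ hOm
    have hlX : 0 < Real.log X := by linarith
    have h1 : (X : ℝ) / (2 * (1 + 1 / 100000) * L) ≤ X / Real.log X :=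
      div_le_div_of_nonneg_left hXr.le hlX hXL
    have h2 : (X : ℝ) / (2 * (1 + 1 / 100000) * L) = 1 / (2 * (1 + 1 / 100000)) * (X / L) := by
      field_simp
    rw [h2] at h1
    have h3 : (1 - 7 * (1 / 100000)) * (1 / (2 * (1 + 1 / 100000)) * ((X : ℝ) / L)) ≤
        (1 - 7 * (1 / 100000)) * (X / Real.log X) :=
      mul_le_mul_of_nonneg_left h1 (by norm_num)
    nlinarith
  have ha2 : T2 ≤ 1953 / 10000 * ((X : ℝ) / L) := by
    refine hT.trans ?_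
    rw [← mul_div_assoc]
    apply div_le_div_of_nonneg_right _ hL0.le
    have h1 : ((2 * X + j : ℕ) : ℝ) * Real.exp (1 / (D : ℝ)) ≤
        ((2 * X + j : ℕ) : ℝ) * (1 + 2 / 10000) :=
      mul_le_mul_of_nonneg_left hexp1 (by positivity)
    have h2 : ((X + j : ℕ) : ℝ) * (1 - 1 / 10000) ≤
        ((X + j : ℕ) : ℝ) * Real.exp (-(1 / (D : ℝ))) :=
      mul_le_mul_of_nonneg_left hexp2 (by positivity)
    push_cast at h1 h2 ⊢
    linarith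
  have hmain := numer hA0 Pool.Agent.Y484.CH.num.1 hε0 hP0 hQ0 hφ rfl ha1 ha2
  -- the combination
  have hLp : 0 < L ^ (K + 2) := by positivity
  have hA : c' * (X / L ^ (K + 2)) ≤ A0 / 2000 * (ε * (P * (X / L)) / φ) := by
    have h1 : c₁ / L ^ (K + 1) * (X / L) ≤ P * (X / L) := mul_le_mul_of_nonneg_right hPge hQ0
    have h2 : c₁ / L ^ (K + 1) * (X / L) = c₁ * (X / L ^ (K + 2)) := by
      rw [pow_succ L (K + 1)]
      field_simp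
    rw [h2] at h1
    calc c' * (X / L ^ (K + 2)) = A0 / 2000 * (ε * (c₁ * (X / L ^ (K + 2))) / φ) := by
          rw [hc']; ring
      _ ≤ _ := by gcongr
  have hB1 : L * (6 * X / Real.log X ^ (K + 5)) ≤ 6 / L * (X / L ^ (K + 2)) := by
    have h1 : L ^ (K + 5) ≤ Real.log X ^ (K + 5) := pow_le_pow_left₀ hL0.le hLX _
    have h2 : 6 * (X : ℝ) / Real.log X ^ (K + 5) ≤ 6 * X / L ^ (K + 5) :=
      div_le_div_of_nonneg_left (by positivity) (by positivity) h1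
    have h3 : L * (6 * X / L ^ (K + 5)) = 6 / L ^ 2 * (X / L ^ (K + 2)) := by
      rw [show K + 5 = (K + 2) + 3 from rfl, pow_add L (K + 2) 3]
      field_simp
    have h4 : 6 / L ^ 2 ≤ 6 / L := by
      apply div_le_div_of_nonneg_left (by norm_num) hL0
      nlinarith
    calc L * (6 * X / Real.log X ^ (K + 5)) ≤ L * (6 * X / L ^ (K + 5)) :=
          mul_le_mul_of_nonneg_left h2 hL0.le
      _ = 6 / L ^ 2 * (X / L ^ (K + 2)) := h3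
      _ ≤ _ := mul_le_mul_of_nonneg_right h4 (by positivity)
  have hB2 : 1 / 2 * (L * (2 * D * L * ((N : ℝ) ^ 2 / L ^ (K + 5)))) ≤
      10000 / L * (X / L ^ (K + 2)) := by
    have hDr : (D : ℝ) ≤ 10000 := by exact_mod_cast hD1
    have h1 : 1 / 2 * (L * (2 * D * L * ((N : ℝ) ^ 2 / L ^ (K + 5)))) =
        D / L * ((N : ℝ) ^ 2 / L ^ (K + 2)) := by
      rw [show K + 5 = (K + 2) + 3 from rfl, pow_add L (K + 2) 3]
      field_simp
    rw [h1]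
    gcongr
  have hB3 : 6 * (N : ℝ) ^ (7 / 4 : ℝ) ≤ c' / 4 * (X / L ^ (K + 2)) := by
    have h1 := hN₇ N hN7
    rw [← hL] at h1
    have h2 : (N : ℝ) ^ (7 / 4 : ℝ) * (N : ℝ) ^ (1 / 4 : ℝ) = (N : ℝ) ^ 2 := by
      rw [← Real.rpow_add (by linarith), ← Real.rpow_natCast]
      norm_num
    rw [← mul_div_assoc, le_div_iff₀ hLp]
    calc 6 * (N : ℝ) ^ (7 / 4 : ℝ) * L ^ (K + 2) ≤
        6 * (N : ℝ) ^ (7 / 4 : ℝ) * (c' / 24 * (N : ℝ) ^ (1 / 4 : ℝ)) := by gcongr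
      _ = c' / 4 * ((N : ℝ) ^ (7 / 4 : ℝ) * (N : ℝ) ^ (1 / 4 : ℝ)) := by ring
      _ = c' / 4 * (N : ℝ) ^ 2 := by rw [h2]
      _ ≤ _ := by gcongr
  have hB4 : 10006 / L ≤ c' / 4 := by
    rw [div_le_iff₀ hL0]
    rw [div_le_iff₀ hc'0] at hLc
    linarith
  have hR1' := mul_le_mul_of_nonneg_left hR1 hL0.le
  have hR2' := mul_le_mul_of_nonneg_left hR2 hL0.le
  have hS2 : ((S2 X N D z i j m₀ a₀ ε E).card : ℝ) ≤
      ε * (T2 / φ * P) * (1000 / 998 * A0 + A0 / 2000) +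
      L * (2 * D * L * ((N : ℝ) ^ 2 / L ^ (K + 5))) := by
    refine le_trans ?_ (add_le_add_right hR2' _)
    refine le_trans (le_of_eq ?_) core2
    unfold S2
    congr!
  have hS1 : ε * (T1 / φ * P) * (A0 * (1000 / 998 * LBc) - A0 / 2000) -
      L * (6 * X / Real.log X ^ (K + 5)) ≤
      ((GG X N z i j m₀ a₀ ε E).card : ℝ) + 1 / 2 * ((S2 X N D z i j m₀ a₀ ε E).card : ℝ) +
      ((NS X N j).card : ℝ) := by
    refine le_trans (sub_le_sub_left hR1' _) ?_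
    refine le_trans core1 ?_
    refine le_trans (le_of_eq ?_) hw
    unfold S1
    congr!
  have hfin : c' * (X / L ^ (K + 2)) - (6 / L * (X / L ^ (K + 2)) + 10000 / L * (X / L ^ (K + 2))) -
      c' / 4 * (X / L ^ (K + 2)) ≤ ((GG X N z i j m₀ a₀ ε E).card : ℝ) := by
    linarith
  have hlast : (6 / L * (X / L ^ (K + 2)) + 10000 / L * (X / L ^ (K + 2))) ≤
      c' / 4 * (X / L ^ (K + 2)) := by
    have e : (6 / L * (X / L ^ (K + 2)) + 10000 / L * ((X : ℝ) / L ^ (K + 2))) =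
        10006 / L * (X / L ^ (K + 2)) := by ring
    rw [e]
    exact mul_le_mul_of_nonneg_right hB4 (by positivity)
  rw [← hL]
  have hX0 : 0 ≤ (X : ℝ) / L ^ (K + 2) := by positivity
  linarith

end Pool.Agent.KS6_51.CH
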