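import Pool.Agent.KS6_51.CH8

/-!
# Chen's theorem inside sifted sets, part 9: the final form
-/

set_option autoImplicit false

namespace Pool.Agent.KS6_51.CH

open Finset Filter Pool.Agent.W23.DC Pool.Agent.Y660.RP Pool.Agent.Y843.CH

open Classical in
/-- the `n` in `(X, 2 X]` such that `n + i` is a prime, `n + j` has at most two prime factors
(counted with multiplicity), all of them at least `X ^ (1 / 9)`, and `n` avoids the classes of
`E p` modulo `p` for all the primes `p < X ^ δ` -/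
noncomputable def Good (X i j : ℕ) (δ : ℝ) (E : ℕ → Finset ℕ) : Finset ℕ :=
  (Ioc X (2 * X)).filter (fun n => (n + i).Prime ∧ (n + j).primeFactorsList.length ≤ 2 ∧
    (∀ p : ℕ, p.Prime → p ∣ n + j → (X : ℝ) ^ (1 / 9 : ℝ) ≤ p) ∧
    ∀ p : ℕ, p.Prime → (p : ℝ) < (X : ℝ) ^ δ → n % p ∉ E p)

theorem chen (K i j : ℕ) (hij : i ≠ j) : ∃ z₀ : ℕ, ∀ z : ℕ, z₀ ≤ z → ∃ (δ c : ℝ) (X₀ : ℕ),
    0 < δ ∧ 0 < c ∧ ∀ X : ℕ, X₀ ≤ X → ∀ E : ℕ → Finset ℕ,
    (∀ p : ℕ, p.Prime → z < p → (E p).card ≤ K) →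
    (∀ p : ℕ, p.Prime → p ≤ z → ∃ a : ℕ, a % p ∉ E p ∧ ¬ p ∣ a + i ∧ ¬ p ∣ a + j) →
    c * (X / Real.log X ^ (K + 2)) ≤ ((Good X i j δ E).card : ℝ) := by
  classical
  obtain ⟨z₀, hz₀⟩ := chenN K i j hij
  refine ⟨z₀, fun z hz => ?_⟩
  obtain ⟨ε, c, N₀, hε0, hε8, hc, h⟩ := hz₀ z hz
  refine ⟨ε / 3, c, (max N₀ 16) ^ 2, by positivity, hc, ?_⟩
  intro X hX E hE hA
  obtain ⟨N, hN⟩ : ∃ N : ℕ, N = Nat.sqrt X := ⟨_, rfl⟩
  have hN0 : max N₀ 16 ≤ N := by rw [hN]; exact Nat.le_sqrt'.2 hX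
  rw [max_le_iff] at hN0
  obtain ⟨h0, h5⟩ := hN0
  have hNX : N ^ 2 ≤ X := by rw [hN]; exact Nat.sqrt_le' X
  have hXN : X ≤ N ^ 2 + 2 * N := by
    have := Nat.lt_succ_sqrt' X
    rw [← hN] at this
    have e : (Nat.succ N) ^ 2 = N ^ 2 + 2 * N + 1 := by rw [Nat.succ_eq_add_one]; ring
    omega
  have hNr : (16 : ℝ) ≤ N := by exact_mod_cast h5
  have hN1 : 1 ≤ N := by omega
  have h5N : 5 * N ≤ N ^ 2 := by nlinarith
  -- the class modulo the small primes
  choose! f hf using hA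
  obtain ⟨a₀, ha₀⟩ := exists_crt z f
  have hcop : ∀ s : ℕ, (∀ p : ℕ, p.Prime → p ≤ z → ¬ p ∣ f p + s) →
      (a₀ + s).Coprime (primorial z) := by
    intro s hs
    rw [Nat.coprime_iff_gcd_eq_one]
    by_contra hne
    obtain ⟨p, hp, hpd⟩ := Nat.exists_prime_and_dvd hne
    have h2 : p ≤ z := le_of_dvd_primorial hp (hpd.trans (Nat.gcd_dvd_right _ _))
    have h3 : p ∣ a₀ + s := hpd.trans (Nat.gcd_dvd_left _ _)
    exact hs p hp h2 ((((ha₀ p hp h2).add_right s).dvd_iff dvd_rfl).1 h3)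
  have key := h N h0 X hNX hXN E a₀ hE
    (hcop i fun p hp hpz => (hf p hp hpz).2.1) (hcop j fun p hp hpz => (hf p hp hpz).2.2)
  have hL : 0 < Real.log N := Real.log_pos (by linarith)
  have hLX : Real.log N ≤ Real.log X := by
    apply Real.log_le_log (by linarith)
    have : N ≤ N ^ 2 := Nat.le_self_pow (by norm_num) N
    exact_mod_cast this.trans hNX
  have hle : c * (X / Real.log X ^ (K + 2)) ≤ c * (X / Real.log N ^ (K + 2)) := by
    apply mul_le_mul_of_nonneg_left _ hc.le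
    apply div_le_div_of_nonneg_left (by positivity) (by positivity)
    exact pow_le_pow_left₀ hL.le hLX _
  refine hle.trans (key.trans ?_)
  have hsub : GG X N z i j (primorial z) a₀ ε E ⊆ Good X i j (ε / 3) E := by
    intro n hn
    unfold GG at hn
    rw [mem_filter, mem_Om1] at hn
    obtain ⟨⟨hnX, hpr⟩, hmod, hP, hpf, hlen⟩ := hn
    unfold Good
    rw [mem_filter, mem_Ioc]
    refine ⟨hnX, hpr, hlen, ?_, ?_⟩
    · intro p hp hd
      refine le_trans ?_ (hpf p hp hd)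
      have h16 : (2 : ℝ) ≤ (N : ℝ) ^ (1 / 4 : ℝ) := by
        have e : (2 : ℝ) = ((16 : ℝ)) ^ (1 / 4 : ℝ) := by
          rw [show (16 : ℝ) = 2 ^ (4 : ℝ) by norm_num, ← Real.rpow_mul (by norm_num)]
          norm_num
        rw [e]
        exact Real.rpow_le_rpow (by norm_num) (by exact_mod_cast h5) (by norm_num)
      have h3 : (X : ℝ) ≤ (N : ℝ) ^ (9 / 4 : ℝ) := by
        have h2 : (X : ℝ) ≤ 2 * (N : ℝ) ^ 2 := by
          have : X ≤ 2 * N ^ 2 := by omega
          exact_mod_cast this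
        have e : (N : ℝ) ^ (9 / 4 : ℝ) = (N : ℝ) ^ (1 / 4 : ℝ) * (N : ℝ) ^ 2 := by
          rw [← Real.rpow_natCast, ← Real.rpow_add (by linarith)]
          norm_num
        rw [e]
        refine h2.trans ?_
        exact mul_le_mul_of_nonneg_right h16 (by positivity)
      calc (X : ℝ) ^ (1 / 9 : ℝ) ≤ ((N : ℝ) ^ (9 / 4 : ℝ)) ^ (1 / 9 : ℝ) :=
            Real.rpow_le_rpow (by positivity) h3 (by norm_num)
        _ = (N : ℝ) ^ (1 / 4 : ℝ) := by
            rw [← Real.rpow_mul (by linarith)]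
            norm_num
    · intro p hp hpX
      rcases le_or_gt p z with hpz | hpz
      · have h2 : n ≡ f p [MOD p] := (hmod.of_dvd (dvd_primorial hp hpz)).trans (ha₀ p hp hpz)
        have h3 : n % p = f p % p := h2
        rw [h3]
        exact (hf p hp hpz).1
      · apply hP
        rw [mem_P1_iff hN1 (by linarith) hp hpz]
        refine hpX.trans_le ?_
        have h2 : (X : ℝ) ≤ (N : ℝ) ^ (3 : ℕ) := by
          have : X ≤ N ^ 3 := by nlinarith
          exact_mod_cast this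
        calc (X : ℝ) ^ (ε / 3) ≤ ((N : ℝ) ^ (3 : ℕ)) ^ (ε / 3) :=
              Real.rpow_le_rpow (by positivity) h2 (by positivity)
          _ = (N : ℝ) ^ ε := by
              rw [← Real.rpow_natCast, ← Real.rpow_mul (by linarith)]
              congr 1
              push_cast
              ring
  exact_mod_cast card_le_card hsub

end Pool.Agent.KS6_51.CH
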