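import Pool.Agent.KS6_51.CH7

/-!
# Chen's theorem for `n` and `a n + b` inside sifted sets, part 1: residue classes and remainders
-/

set_option autoImplicit false

namespace Pool.Agent.KS6_51.CG

open Finset Pool.Agent.W23.DC Pool.Agent.Y660.RP Pool.Agent.Y843.CH

open Classical in
/-- the forbidden residues of `n` modulo `p` -/
noncomputable def Fb (w : ℝ) (a b : ℤ) (E : ℕ → Finset ℕ) (p : ℕ) : Finset ℕ :=
  (range p).filter (fun c => ((p : ℝ) < w ∧ c ∈ E p) ∨ c = 0 ∨ (p : ℤ) ∣ a * c + b)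

theorem mem_Fb {w : ℝ} {a b : ℤ} {E : ℕ → Finset ℕ} {p c : ℕ} :
    c ∈ Fb w a b E p ↔ c < p ∧ (((p : ℝ) < w ∧ c ∈ E p) ∨ c = 0 ∨ (p : ℤ) ∣ a * c + b) := by
  unfold Fb
  rw [mem_filter, mem_range]

open Classical in
/-- the corresponding nonzero residues of `a n + b` -/
noncomputable def c1 (w : ℝ) (a b : ℤ) (E : ℕ → Finset ℕ) (p : ℕ) : Finset ℕ :=
  (range p).filter (fun c => c ≠ 0 ∧ ∃ r ∈ Fb w a b E p, (p : ℤ) ∣ a * r + b - c)

theorem mem_c1 {w : ℝ} {a b : ℤ} {E : ℕ → Finset ℕ} {p c : ℕ} :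
    c ∈ c1 w a b E p ↔ c < p ∧ c ≠ 0 ∧ ∃ r ∈ Fb w a b E p, (p : ℤ) ∣ a * r + b - c := by
  unfold c1
  rw [mem_filter, mem_range]

/-- the corresponding nonzero residues of `n` -/
noncomputable def c2 (w : ℝ) (a b : ℤ) (E : ℕ → Finset ℕ) (p : ℕ) : Finset ℕ :=
  (Fb w a b E p).erase 0

theorem card_c2 {w : ℝ} {a b : ℤ} {E : ℕ → Finset ℕ} {p : ℕ} (hp : 0 < p) :
    (c2 w a b E p).card + 1 = (Fb w a b E p).card := by
  unfold c2
  rw [card_erase_add_one]
  rw [mem_Fb]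
  exact ⟨hp, Or.inr (Or.inl rfl)⟩

/-- two residues which agree modulo `p` -/
theorem eq_of_dvd {p r s : ℕ} (hr : r < p) (hs : s < p) (h : (p : ℤ) ∣ (r : ℤ) - s) : r = s := by
  have h1 : (s : ℤ) ≡ r [ZMOD p] := (Int.modEq_iff_dvd).2 h
  have h2 : s ≡ r [MOD p] := (Int.natCast_modEq_iff).1 h1
  exact (Nat.ModEq.eq_of_lt_of_lt h2 hs hr).symm

theorem exists_root {a b : ℤ} {p : ℕ} (hp : p.Prime) (ha : ¬ (p : ℤ) ∣ a) (y : ℤ) :
    ∃ r : ℕ, r < p ∧ (p : ℤ) ∣ a * r + b - y := by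
  have : Fact p.Prime := ⟨hp⟩
  have ha' : (a : ZMod p) ≠ 0 := fun h => ha ((ZMod.intCast_zmod_eq_zero_iff_dvd a p).1 h)
  refine ⟨(((y - b : ℤ) : ZMod p) / (a : ZMod p)).val, ZMod.val_lt _, ?_⟩
  rw [← ZMod.intCast_zmod_eq_zero_iff_dvd]
  push_cast
  rw [ZMod.natCast_zmod_val, mul_div_cancel₀ _ ha']
  ring

theorem card_c1 {w : ℝ} {a b : ℤ} {E : ℕ → Finset ℕ} {p : ℕ} (hp : p.Prime)
    (ha : ¬ (p : ℤ) ∣ a) : (c1 w a b E p).card + 1 = (Fb w a b E p).card := by
  classical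
  obtain ⟨r0, hr0, hd0⟩ := exists_root (b := b) hp ha 0
  rw [sub_zero] at hd0
  have hmem0 : r0 ∈ Fb w a b E p := mem_Fb.2 ⟨hr0, Or.inr (Or.inr hd0)⟩
  have hpr : Prime (p : ℤ) := Nat.prime_iff_prime_int.1 hp
  have hbij : (c1 w a b E p).card = ((Fb w a b E p).erase r0).card := by
    symm
    apply card_bij (fun (r : ℕ) _ => ((a * (r : ℤ) + b) % (p : ℤ)).toNat)
    · intro r hr
      rw [mem_erase] at hr
      have hp0 : (0 : ℤ) < p := by exact_mod_cast hp.pos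
      have h1 := Int.emod_nonneg (a * r + b) hp0.ne'
      have h2 := Int.emod_lt_of_pos (a * r + b) hp0
      have h3 : ((((a * r + b) % (p : ℤ)).toNat : ℕ) : ℤ) = (a * r + b) % (p : ℤ) := Int.toNat_of_nonneg h1
      rw [mem_c1]
      refine ⟨by omega, ?_, r, hr.2, ?_⟩
      · intro h0
        apply hr.1
        have h4 : (a * r + b) % (p : ℤ) = 0 := by omega
        have h5 : (p : ℤ) ∣ a * r + b := Int.dvd_of_emod_eq_zero h4
        have h6 : (p : ℤ) ∣ a * ((r : ℤ) - r0) := by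
          have := dvd_sub h5 hd0
          have e : a * (r : ℤ) + b - (a * r0 + b) = a * ((r : ℤ) - r0) := by ring
          rwa [e] at this
        rcases hpr.dvd_or_dvd h6 with h7 | h7
        · exact absurd h7 ha
        · exact eq_of_dvd (mem_Fb.1 hr.2).1 hr0 h7
      · rw [h3]
        exact Int.dvd_self_sub_emod
    · intro r hr s hs hrs
      rw [mem_erase] at hr hs
      have hp0 : (0 : ℤ) < p := by exact_mod_cast hp.pos
      have h1 := Int.emod_nonneg (a * r + b) hp0.ne'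
      have h2 := Int.emod_nonneg (a * s + b) hp0.ne'
      have h3 : (a * r + b) % (p : ℤ) = (a * s + b) % (p : ℤ) := by omega
      have h4 : (p : ℤ) ∣ (a * r + b) - (a * s + b) := Int.ModEq.dvd (Int.ModEq.symm h3)
      have e : a * (r : ℤ) + b - (a * s + b) = a * ((r : ℤ) - s) := by ring
      rw [e] at h4
      rcases hpr.dvd_or_dvd h4 with h7 | h7
      · exact absurd h7 ha
      · exact eq_of_dvd (mem_Fb.1 hr.2).1 (mem_Fb.1 hs.2).1 h7
    · intro c hc
      rw [mem_c1] at hc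
      obtain ⟨h1, h2, r, hr, hd⟩ := hc
      have hp0 : (0 : ℤ) < p := by exact_mod_cast hp.pos
      have h3 : (a * r + b) % (p : ℤ) = c := by
        have h4 : (a * r + b) % (p : ℤ) = (c : ℤ) % p := by
          have : (c : ℤ) ≡ a * r + b [ZMOD p] := (Int.modEq_iff_dvd).2 hd
          exact this.symm
        rw [h4, Int.emod_eq_of_lt (by positivity) (by exact_mod_cast h1)]
      refine ⟨r, mem_erase.2 ⟨?_, hr⟩, ?_⟩
      · rintro rfl
        apply h2
        have h5 : (a * r + b) % (p : ℤ) = 0 := Int.emod_eq_zero_of_dvd hd0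
        omega
      · rw [h3]
        simp
  rw [hbij, card_erase_of_mem hmem0]
  have := card_pos.2 ⟨r0, hmem0⟩
  omega

theorem card_root_le {a b : ℤ} {p : ℕ} (hp : p.Prime) (ha : ¬ (p : ℤ) ∣ a) :
    ((range p).filter (fun c : ℕ => (p : ℤ) ∣ a * c + b)).card ≤ 1 := by
  rw [card_le_one]
  intro r hr s hs
  rw [mem_filter, mem_range] at hr hs
  have hpr : Prime (p : ℤ) := Nat.prime_iff_prime_int.1 hp
  have h4 := dvd_sub hr.2 hs.2
  have e : a * (r : ℤ) + b - (a * s + b) = a * ((r : ℤ) - s) := by ring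
  rw [e] at h4
  rcases hpr.dvd_or_dvd h4 with h7 | h7
  · exact absurd h7 ha
  · exact eq_of_dvd hr.1 hs.1 h7

theorem card_Fb_le {w : ℝ} {a b : ℤ} {K : ℕ} {E : ℕ → Finset ℕ} {p : ℕ} (hp : p.Prime)
    (ha : ¬ (p : ℤ) ∣ a) (hE : (E p).card ≤ K) : (Fb w a b E p).card ≤ K + 2 := by
  classical
  have hsub : Fb w a b E p ⊆ E p ∪ ({0} ∪
      (range p).filter (fun c : ℕ => (p : ℤ) ∣ a * c + b)) := by
    intro c hc
    rw [mem_Fb] at hc
    rw [mem_union, mem_union, mem_singleton, mem_filter, mem_range]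
    rcases hc.2 with h | h | h
    · exact Or.inl h.2
    · exact Or.inr (Or.inl h)
    · exact Or.inr (Or.inr ⟨hc.1, h⟩)
  refine (card_le_card hsub).trans ((card_union_le _ _).trans ?_)
  have h1 := card_union_le ({0} : Finset ℕ) ((range p).filter (fun c : ℕ => (p : ℤ) ∣ a * c + b))
  have h2 := card_root_le (b := b) hp ha
  rw [card_singleton] at h1
  omega

theorem card_Fb_eq {w : ℝ} {a b : ℤ} {E : ℕ → Finset ℕ} {p : ℕ} (hw : w ≤ p) (hp : p.Prime)
    (ha : ¬ (p : ℤ) ∣ a) : (Fb w a b E p).card = if (p : ℤ) ∣ b then 1 else 2 := by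
  classical
  obtain ⟨r0, hr0, hd0⟩ := exists_root (b := b) hp ha 0
  rw [sub_zero] at hd0
  have hpr : Prime (p : ℤ) := Nat.prime_iff_prime_int.1 hp
  have heq : Fb w a b E p = {0, r0} := by
    ext c
    rw [mem_Fb, mem_insert, mem_singleton]
    constructor
    · rintro ⟨h0, h | h | h⟩
      · exact absurd h.1 (not_lt.2 hw)
      · exact Or.inl h
      · right
        have h4 := dvd_sub h hd0
        have e : a * (c : ℤ) + b - (a * r0 + b) = a * ((c : ℤ) - r0) := by ring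
        rw [e] at h4
        rcases hpr.dvd_or_dvd h4 with h7 | h7
        · exact absurd h7 ha
        · exact eq_of_dvd h0 hr0 h7
    · rintro (rfl | rfl)
      · exact ⟨hp.pos, Or.inr (Or.inl rfl)⟩
      · exact ⟨hr0, Or.inr (Or.inr hd0)⟩
  rw [heq]
  split_ifs with hb
  · have h1 : r0 = 0 := by
      have h4 := dvd_sub hd0 hb
      have e : a * (r0 : ℤ) + b - b = a * ((r0 : ℤ) - (0 : ℕ)) := by push_cast; ring
      rw [e] at h4
      rcases hpr.dvd_or_dvd h4 with h7 | h7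
      · exact absurd h7 ha
      · exact eq_of_dvd hr0 hp.pos h7
    rw [h1]
    simp
  · rw [card_pair]
    rintro rfl
    apply hb
    simpa using hd0

/-- the density -/
noncomputable def gg (w : ℝ) (a b : ℤ) (E : ℕ → Finset ℕ) (p : ℕ) : ℝ :=
  (((Fb w a b E p).card : ℝ) - 1) / ((p : ℝ) - 1)

theorem Dg_gg {w : ℝ} {a b : ℤ} {K z : ℕ} {E : ℕ → Finset ℕ}
    (ha : ∀ p : ℕ, p.Prime → z < p → ¬ (p : ℤ) ∣ a)
    (hzw : (z : ℝ) < w) (hE : ∀ p : ℕ, p.Prime → z < p → (E p).card ≤ K) :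
    Dg (K + 1) z w b.natAbs (gg w a b E) := by
  constructor
  · intro p hp hzp
    have h1 : (0 : ℝ) < (p : ℝ) - 1 := by
      have : (1 : ℝ) < p := by exact_mod_cast hp.one_lt
      linarith
    have h2 := card_Fb_le (w := w) (a := a) (b := b) hp (ha p hp hzp) (hE p hp hzp)
    have h3 := card_c2 (w := w) (a := a) (b := b) (E := E) hp.pos
    have e : gg w a b E p = ((c2 w a b E p).card : ℝ) / ((p : ℝ) - 1) := by
      unfold gg
      rw [← h3]
      push_cast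
      ring
    rw [e]
    constructor
    · positivity
    · apply div_le_div_of_nonneg_right _ h1.le
      have h4 : (c2 w a b E p).card ≤ K + 1 := by omega
      exact_mod_cast h4
  · intro p hp hwp
    have hzp : z < p := by exact_mod_cast hzw.trans_le hwp
    unfold gg
    rw [card_Fb_eq hwp hp (ha p hp hzp)]
    have hiff : (p : ℤ) ∣ b ↔ p ∣ b.natAbs := by
      rw [← Int.natCast_dvd_natCast, Int.dvd_natAbs]
    by_cases hb : (p : ℤ) ∣ b
    · rw [if_pos hb, if_pos (hiff.1 hb)]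
      norm_num
    · rw [if_neg hb, if_neg (fun h => hb (hiff.2 h))]
      norm_num

/-- the remainders, in general -/
theorem rr_gen {ι : Type} {z K : ℕ} {D : ℝ} (hD : 0 ≤ D) (Ω : Finset ι) (yv v : ι → ℕ)
    (cl : ℕ → Finset ℕ) (g : ℕ → ℝ)
    (hcl : ∀ p : ℕ, p.Prime → z < p → ∀ c ∈ cl p, c < p ∧ c ≠ 0)
    (hclK : ∀ p : ℕ, p.Prime → z < p → (cl p).card ≤ K + 1)
    (hg : ∀ p : ℕ, p.Prime → z < p → g p = ((cl p).card : ℝ) / ((p : ℝ) - 1))
    (hv : ∀ x ∈ Ω, ∀ p : ℕ, p.Prime → z < p → (p : ℝ) ≤ D → (p ∣ v x ↔ yv x % p ∈ cl p))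
    (m₁ a₁ : ℕ) (hm₁ : 0 < m₁) (ha₁ : a₁.Coprime m₁)
    (hmz : ∀ p : ℕ, p.Prime → p ∣ m₁ → p ≤ z) (T : ℝ) {d : ℕ} (hd : d ∈ Lv' z D) (Er : ℝ)
    (hEr : 0 ≤ Er)
    (hc : ∀ c : ℕ, c < m₁ * d → c.Coprime (m₁ * d) →
      |((Ω.filter (fun x => yv x ≡ c [MOD (m₁ * d)])).card : ℝ) -
        T / (Nat.totient (m₁ * d) : ℝ)| ≤ Er) :
    Rr (Ω.filter (fun x => yv x ≡ a₁ [MOD m₁])) v g (T / (Nat.totient m₁ : ℝ)) d ≤
      ((K + 1 : ℕ) : ℝ) ^ d.primeFactors.card * Er := by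
  classical
  unfold Lv' at hd
  rw [mem_filter, mem_Icc] at hd
  obtain ⟨⟨hd1, hdD⟩, hsq, hpf⟩ := hd
  have hdD' : (d : ℝ) ≤ D := (Nat.cast_le.2 hdD).trans (Nat.floor_le hD)
  have hprod : ∏ p ∈ d.primeFactors, p = d := Nat.prod_primeFactors_of_squarefree hsq
  have key := cls Ω yv d.primeFactors (fun p hp => Nat.prime_of_mem_primeFactors hp)
    cl (fun p hp c hcc => hcl p (Nat.prime_of_mem_primeFactors hp) (hpf p hp) c hcc)
    m₁ a₁ hm₁ ha₁ (by
      intro p hp hpd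
      have h1 := hpf p hp
      have h2 := hmz p (Nat.prime_of_mem_primeFactors hp) hpd
      omega) T Er (by
      rw [hprod]
      exact hc)
  have hfil : (Ω.filter (fun x => yv x ≡ a₁ [MOD m₁])).filter (fun x => d ∣ v x) =
      Ω.filter (fun x => yv x ≡ a₁ [MOD m₁] ∧ ∀ p ∈ d.primeFactors, yv x % p ∈ cl p) := by
    ext x
    rw [mem_filter, mem_filter, mem_filter]
    have hiff : x ∈ Ω → (d ∣ v x ↔ ∀ p ∈ d.primeFactors, yv x % p ∈ cl p) := by
      intro hx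
      have h1 : d ∣ v x ↔ ∀ p ∈ d.primeFactors, p ∣ v x := by
        constructor
        · intro h p hp
          exact (Nat.dvd_of_mem_primeFactors hp).trans h
        · intro h
          rw [← hprod]
          exact Finset.prod_primes_dvd _ (fun p hp => (Nat.prime_of_mem_primeFactors hp).prime) h
      rw [h1]
      refine forall₂_congr fun p hp => ?_
      have hpp := Nat.prime_of_mem_primeFactors hp
      have hpD : (p : ℝ) ≤ D := by
        refine le_trans ?_ hdD'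
        exact_mod_cast Nat.le_of_dvd hd1 (Nat.dvd_of_mem_primeFactors hp)
      exact hv x hx p hpp (hpf p hp) hpD
    constructor
    · rintro ⟨⟨h1, h2⟩, h3⟩
      exact ⟨h1, h2, (hiff h1).1 h3⟩
    · rintro ⟨h1, h2, h3⟩
      exact ⟨⟨h1, h2⟩, (hiff h1).2 h3⟩
  have hgp : gp g d = ∏ p ∈ d.primeFactors, (((cl p).card : ℝ) / ((p : ℝ) - 1)) := by
    unfold gp
    exact prod_congr rfl fun p hp => hg p (Nat.prime_of_mem_primeFactors hp) (hpf p hp)
  unfold Rr
  rw [hfil, hgp]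
  refine key.trans ?_
  apply mul_le_mul_of_nonneg_right _ hEr
  calc ∏ p ∈ d.primeFactors, ((cl p).card : ℝ) ≤ ∏ _p ∈ d.primeFactors, ((K + 1 : ℕ) : ℝ) := by
        apply prod_le_prod
        · intro p _
          positivity
        · intro p hp
          exact_mod_cast hclK p (Nat.prime_of_mem_primeFactors hp) (hpf p hp)
    _ = ((K + 1 : ℕ) : ℝ) ^ d.primeFactors.card := by rw [prod_const]

end Pool.Agent.KS6_51.CG
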