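import Pool.Agent.KS6_51.G1

/-!
# Chen's theorem for `n` and `a n + b` inside sifted sets, part 2: the first sequence
-/

set_option autoImplicit false

namespace Pool.Agent.KS6_51.CG

open Finset Filter Pool.Agent.W23.DC Pool.Agent.Y660.RP Pool.Agent.Y843.CH
open Pool.Agent.TH423.SH.PSUa (ee ee_nonneg FF FF_le_ee)

open Classical in
/-- the sifted number -/
noncomputable def V (z N : ℕ) (cl : ℕ → Finset ℕ) (y : ℕ) : ℕ :=
  ∏ p ∈ (Ioc z N).filter (fun p => p.Prime ∧ y % p ∈ cl p), p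

theorem dvd_V {z N : ℕ} {cl : ℕ → Finset ℕ} {y p : ℕ} (hp : p.Prime) :
    p ∣ V z N cl y ↔ (z < p ∧ p ≤ N) ∧ y % p ∈ cl p := by
  classical
  unfold V
  rw [hp.prime.dvd_finsetProd_iff]
  constructor
  · rintro ⟨q, hq, hd⟩
    rw [mem_filter, mem_Ioc] at hq
    have e : p = q := (Nat.prime_dvd_prime_iff_eq hp hq.2.1).1 hd
    rw [e]
    exact ⟨hq.1, hq.2.2⟩
  · rintro ⟨h1, h2⟩
    refine ⟨p, ?_, dvd_rfl⟩
    rw [mem_filter, mem_Ioc]
    exact ⟨h1, hp, h2⟩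

/-- the left end -/
def lo (a b : ℤ) (X : ℕ) : ℕ := (min (a * X + b) (a * (2 * X) + b)).toNat

/-- the right end -/
def hi (a b : ℤ) (X : ℕ) : ℕ := (max (a * X + b) (a * (2 * X) + b)).toNat

/-- the sizes -/
def Sz (a b : ℤ) (C X : ℕ) : Prop :=
  ((X : ℤ) ≤ a * X + b ∧ a * X + b ≤ C * X) ∧ ((X : ℤ) ≤ a * (2 * X) + b ∧ a * (2 * X) + b ≤ C * X)

theorem ends {a b : ℤ} {C X : ℕ} (h : Sz a b C X) :
    X ≤ lo a b X ∧ lo a b X ≤ hi a b X ∧ hi a b X ≤ C * X ∧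
    hi a b X = lo a b X + a.natAbs * X := by
  obtain ⟨⟨h1, h2⟩, h3, h4⟩ := h
  unfold lo hi
  have e : ((a.natAbs * X : ℕ) : ℤ) = |a * X| := by
    push_cast
    rw [abs_mul, Nat.abs_cast]
  have h5 : a * (2 * X) + b = (a * X + b) + a * X := by ring
  have hC : ((C * X : ℕ) : ℤ) = C * X := by push_cast; ring
  rcases le_total 0 (a * (X : ℤ)) with h0 | h0
  · rw [abs_of_nonneg h0] at e
    rw [min_eq_left (by linarith), max_eq_right (by linarith)]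
    omega
  · rw [abs_of_nonpos h0] at e
    rw [min_eq_right (by linarith), max_eq_left (by linarith)]
    omega

/-- the primes -/
def Om1 (a b : ℤ) (X : ℕ) : Finset ℕ := (Ioc (lo a b X) (hi a b X)).filter Nat.Prime

theorem mem_Om1 {a b : ℤ} {X y : ℕ} :
    y ∈ Om1 a b X ↔ (lo a b X < y ∧ y ≤ hi a b X) ∧ y.Prime := by
  unfold Om1
  rw [mem_filter, mem_Ioc]

theorem Om1_big {a b : ℤ} {C X y : ℕ} (h : Sz a b C X) (hy : y ∈ Om1 a b X) : X < y := by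
  rw [mem_Om1] at hy
  have := (ends h).1
  omega

theorem card_Om1_mod {a b : ℤ} {X : ℕ} (h : lo a b X ≤ hi a b X) (M c : ℕ) :
    (((Om1 a b X).filter (fun y => y ≡ c [MOD M])).card : ℝ) =
      H343E.piAP (hi a b X) M c - H343E.piAP (lo a b X) M c := by
  classical
  unfold H343E.piAP
  rw [eq_sub_iff_add_eq]
  have h1 : (Om1 a b X).filter (fun y => y ≡ c [MOD M]) =
      (Ioc (lo a b X) (hi a b X)).filter (fun p => p.Prime ∧ p ≡ c [MOD M]) := by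
    unfold Om1
    rw [filter_filter]
  rw [h1]
  have h2 : (Icc 1 (hi a b X)).filter (fun p => p.Prime ∧ p ≡ c [MOD M]) =
      (Ioc (lo a b X) (hi a b X)).filter (fun p => p.Prime ∧ p ≡ c [MOD M]) ∪
      (Icc 1 (lo a b X)).filter (fun p => p.Prime ∧ p ≡ c [MOD M]) := by
    ext p
    simp only [mem_union, mem_filter, mem_Icc, mem_Ioc]
    constructor
    · rintro ⟨h, h'⟩
      by_cases hp : p ≤ lo a b X
      · exact Or.inr ⟨⟨h.1, hp⟩, h'⟩
      · exact Or.inl ⟨⟨by omega, h.2⟩, h'⟩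
    · rintro (⟨h, h'⟩ | ⟨h, h'⟩)
      · exact ⟨⟨by omega, h.2⟩, h'⟩
      · exact ⟨⟨h.1, by omega⟩, h'⟩
  rw [h2, card_union_of_disjoint]
  · push_cast
    ring
  · rw [disjoint_left]
    intro p hp hp'
    rw [mem_filter, mem_Ioc] at hp
    rw [mem_filter, mem_Icc] at hp'
    omega

theorem card_Om1 {a b : ℤ} {X : ℕ} (h : lo a b X ≤ hi a b X) :
    ((Om1 a b X).card : ℝ) = H343E.pi1 (hi a b X) - H343E.pi1 (lo a b X) := by
  have h := card_Om1_mod h 1 0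
  have h1 : (Om1 a b X).filter (fun y => y ≡ 0 [MOD 1]) = Om1 a b X := by
    apply filter_true_of_mem
    intro n _
    exact Nat.modEq_one
  have h2 : ∀ x : ℕ, H343E.piAP x 1 0 = H343E.pi1 x := by
    intro x
    unfold H343E.piAP H343E.pi1
    congr 2
    apply filter_congr
    intro p _
    exact ⟨fun h => h.1, fun h => ⟨h, Nat.modEq_one⟩⟩
  rw [h1, h2, h2] at h
  exact h

theorem Om1_err {a b : ℤ} {X : ℕ} (h : lo a b X ≤ hi a b X) (M c : ℕ) (hc : c < M)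
    (hcop : c.Coprime M) :
    |(((Om1 a b X).filter (fun y => y ≡ c [MOD M])).card : ℝ) -
      ((Om1 a b X).card : ℝ) / (Nat.totient M : ℝ)| ≤ ee (hi a b X) M + ee (lo a b X) M := by
  rw [card_Om1_mod h, card_Om1 h]
  have h1 := FF_le_ee (hi a b X) M c hc hcop
  have h2 := FF_le_ee (lo a b X) M c hc hcop
  unfold FF at h1 h2
  have e : H343E.piAP (hi a b X) M c - H343E.piAP (lo a b X) M c -
      (H343E.pi1 (hi a b X) - H343E.pi1 (lo a b X)) / (Nat.totient M : ℝ) =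
      (H343E.piAP (hi a b X) M c - H343E.pi1 (hi a b X) / (Nat.totient M : ℝ)) -
      (H343E.piAP (lo a b X) M c - H343E.pi1 (lo a b X) / (Nat.totient M : ℝ)) := by ring
  rw [e]
  exact (abs_sub _ _).trans (add_le_add h1 h2)

theorem c1_facts {w : ℝ} {a b : ℤ} {K z : ℕ} {E : ℕ → Finset ℕ}
    (ha : ∀ p : ℕ, p.Prime → z < p → ¬ (p : ℤ) ∣ a)
    (hE : ∀ p : ℕ, p.Prime → z < p → (E p).card ≤ K) (p : ℕ) (hp : p.Prime) (hzp : z < p) :
    (∀ c ∈ c1 w a b E p, c < p ∧ c ≠ 0) ∧ (c1 w a b E p).card ≤ K + 1 ∧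
    gg w a b E p = ((c1 w a b E p).card : ℝ) / ((p : ℝ) - 1) := by
  refine ⟨fun c hc => ⟨(mem_c1.1 hc).1, (mem_c1.1 hc).2.1⟩, ?_, ?_⟩
  · have h1 := card_c1 (w := w) (b := b) (E := E) hp (ha p hp hzp)
    have h2 := card_Fb_le (w := w) (a := a) (b := b) hp (ha p hp hzp) (hE p hp hzp)
    omega
  · unfold gg
    rw [← card_c1 (w := w) (b := b) (E := E) hp (ha p hp hzp)]
    push_cast
    ring

theorem c2_facts {w : ℝ} {a b : ℤ} {K z : ℕ} {E : ℕ → Finset ℕ}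
    (ha : ∀ p : ℕ, p.Prime → z < p → ¬ (p : ℤ) ∣ a)
    (hE : ∀ p : ℕ, p.Prime → z < p → (E p).card ≤ K) (p : ℕ) (hp : p.Prime) (hzp : z < p) :
    (∀ c ∈ c2 w a b E p, c < p ∧ c ≠ 0) ∧ (c2 w a b E p).card ≤ K + 1 ∧
    gg w a b E p = ((c2 w a b E p).card : ℝ) / ((p : ℝ) - 1) := by
  refine ⟨fun c hc => ?_, ?_, ?_⟩
  · unfold c2 at hc
    rw [mem_erase] at hc
    exact ⟨(mem_Fb.1 hc.2).1, hc.1⟩
  · have h1 := card_c2 (w := w) (a := a) (b := b) (E := E) hp.pos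
    have h2 := card_Fb_le (w := w) (a := a) (b := b) hp (ha p hp hzp) (hE p hp hzp)
    omega
  · unfold gg
    rw [← card_c2 (w := w) (a := a) (b := b) (E := E) hp.pos]
    push_cast
    ring

/-- the remainders of the first sequence -/
theorem first_rem (K C m₁ U : ℕ) (hm₁ : 0 < m₁) (hC : 1 ≤ C) : ∃ X₀ : ℕ, ∀ X : ℕ, X₀ ≤ X →
    ∀ N : ℕ, 1 ≤ N → N ^ 2 ≤ X → ∀ (a b : ℤ), Sz a b C X →
    ∀ (z : ℕ) (w : ℝ) (E : ℕ → Finset ℕ) (a₁ : ℕ),
    (∀ p : ℕ, p.Prime → z < p → ¬ (p : ℤ) ∣ a) →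
    (∀ p : ℕ, p.Prime → z < p → (E p).card ≤ K) → a₁.Coprime m₁ →
    (∀ p : ℕ, p.Prime → p ∣ m₁ → p ≤ z) →
    ∑ d ∈ Lv' z ((N : ℝ) ^ (999 / 1000 : ℝ)),
      Rr ((Om1 a b X).filter (fun y => y ≡ a₁ [MOD m₁])) (fun y => V z N (c1 w a b E) y)
        (gg w a b E) (((Om1 a b X).card : ℝ) / (Nat.totient m₁ : ℝ)) d ≤
      2 * C * X / Real.log X ^ U := by
  obtain ⟨X₀, hX₀⟩ := Pool.Agent.Y932.CH.bvw (2 * m₁) (K + 1) U (by omega)
  refine ⟨max X₀ 3, ?_⟩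
  intro X hX N hN hNX a b hsz z w E a₁ ha hE ha₁ hz
  have hX0 : X₀ ≤ X := (le_max_left _ _).trans hX
  have hX3 : 3 ≤ X := (le_max_right _ _).trans hX
  obtain ⟨hlo, hlh, hhi, -⟩ := ends hsz
  set D := (N : ℝ) ^ (999 / 1000 : ℝ) with hD
  have hN1 : (1 : ℝ) ≤ N := by exact_mod_cast hN
  have hD1 : 1 ≤ D := Real.one_le_rpow hN1 (by norm_num)
  have hD0 : 0 ≤ D := by linarith
  have hDN : D ≤ N := by
    have : (N : ℝ) ^ (999 / 1000 : ℝ) ≤ (N : ℝ) ^ (1 : ℝ) :=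
      Real.rpow_le_rpow_of_exponent_le hN1 (by norm_num)
    rwa [Real.rpow_one] at this
  have hb : ∀ d ∈ Lv' z D, Rr ((Om1 a b X).filter (fun y => y ≡ a₁ [MOD m₁]))
      (fun y => V z N (c1 w a b E) y) (gg w a b E)
      (((Om1 a b X).card : ℝ) / (Nat.totient m₁ : ℝ)) d ≤
      ((K + 1 : ℕ) : ℝ) ^ d.primeFactors.card *
        (ee (hi a b X) (m₁ * d) + ee (lo a b X) (m₁ * d)) := by
    intro d hd
    exact rr_gen hD0 (Om1 a b X) (fun y => y) (fun y => V z N (c1 w a b E) y) (c1 w a b E)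
      (gg w a b E) (fun p hp hzp => (c1_facts ha hE p hp hzp).1)
      (fun p hp hzp => (c1_facts ha hE p hp hzp).2.1)
      (fun p hp hzp => (c1_facts ha hE p hp hzp).2.2) (by
        intro y _ p hp hzp hpD
        have h2 : p ≤ N := by exact_mod_cast hpD.trans hDN
        rw [dvd_V hp]
        exact ⟨fun h => h.2, fun h => ⟨⟨hzp, h2⟩, h⟩⟩) m₁ a₁ hm₁ ha₁ hz
      ((Om1 a b X).card : ℝ) hd _ (add_nonneg (ee_nonneg _ _) (ee_nonneg _ _))
      (fun c hc hcop => Om1_err hlh (m₁ * d) c hc hcop)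
  set v := C * X with hv
  have hvX : X ≤ v := by rw [hv]; exact Nat.le_mul_of_pos_left X hC
  obtain ⟨Q, hQ⟩ : ∃ Q : ℕ, Q = ⌈(m₁ : ℝ) * D⌉₊ := ⟨_, rfl⟩
  have hQ1 : (m₁ : ℝ) * D ≤ Q := by rw [hQ]; exact Nat.le_ceil _
  have hm1 : (1 : ℝ) ≤ m₁ := by exact_mod_cast hm₁
  have hQ2 : (Q : ℝ) ≤ ((2 * m₁ : ℕ) : ℝ) * (v : ℝ) ^ (4995 / 10000 : ℝ) := by
    have h1 : (Q : ℝ) < m₁ * D + 1 := by rw [hQ]; exact Nat.ceil_lt_add_one (by positivity)
    have h2 : D ≤ (v : ℝ) ^ (4995 / 10000 : ℝ) := CH.rpow_999 hNX hvX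
    have h3 : (1 : ℝ) ≤ m₁ * D := by nlinarith
    have h4 : (m₁ : ℝ) * D ≤ m₁ * (v : ℝ) ^ (4995 / 10000 : ℝ) :=
      mul_le_mul_of_nonneg_left h2 (by linarith)
    push_cast
    linarith
  have hk1 := hX₀ v (hX0.trans hvX) (hi a b X) hhi Q hQ2
  have hk2 := hX₀ v (hX0.trans hvX) (lo a b X) (hlh.trans hhi) Q hQ2
  have hs1 := CH.sum_inj (K + 1) m₁ z Q D hm₁ (by omega) hQ1 hD0 (ee (hi a b X)) (ee_nonneg _)
  have hs2 := CH.sum_inj (K + 1) m₁ z Q D hm₁ (by omega) hQ1 hD0 (ee (lo a b X)) (ee_nonneg _)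
  have hlog : 0 < Real.log X := Real.log_pos (by exact_mod_cast (by omega : 1 < X))
  have hlog' : Real.log X ^ U ≤ Real.log v ^ U := by
    apply pow_le_pow_left₀ hlog.le
    apply Real.log_le_log (by exact_mod_cast (by omega : 0 < X))
    exact_mod_cast hvX
  have hv3 : (v : ℝ) / Real.log v ^ U ≤ C * X / Real.log X ^ U := by
    apply div_le_div₀ (by positivity) _ (by positivity) hlog'
    rw [hv]
    push_cast
    exact le_rfl
  calc _ ≤ ∑ d ∈ Lv' z D, ((K + 1 : ℕ) : ℝ) ^ d.primeFactors.card *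
        (ee (hi a b X) (m₁ * d) + ee (lo a b X) (m₁ * d)) := sum_le_sum hb
    _ = ∑ d ∈ Lv' z D, ((K + 1 : ℕ) : ℝ) ^ d.primeFactors.card * ee (hi a b X) (m₁ * d) +
        ∑ d ∈ Lv' z D, ((K + 1 : ℕ) : ℝ) ^ d.primeFactors.card * ee (lo a b X) (m₁ * d) := by
        rw [← sum_add_distrib]
        exact sum_congr rfl fun d _ => by ring
    _ ≤ v / Real.log v ^ U + v / Real.log v ^ U :=
        add_le_add (hs1.trans hk1) (hs2.trans hk2)
    _ ≤ C * X / Real.log X ^ U + C * X / Real.log X ^ U := add_le_add hv3 hv3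
    _ = 2 * C * X / Real.log X ^ U := by ring

/-- the number of the primes -/
theorem Om1_ge (θ : ℝ) (hθ : 0 < θ) (hθ1 : θ ≤ 1 / 10) (C : ℕ) (hC : 1 ≤ C) : ∃ X₀ : ℕ,
    ∀ X : ℕ, X₀ ≤ X → ∀ a b : ℤ, a ≠ 0 → Sz a b C X →
    (1 - θ) * (a.natAbs * X / Real.log X) ≤ ((Om1 a b X).card : ℝ) := by
  have hCr : (1 : ℝ) ≤ C := by exact_mod_cast hC
  obtain ⟨τ, hτ⟩ : ∃ τ : ℝ, τ = θ / (5 * C) := ⟨_, rfl⟩
  have hτ0 : 0 < τ := by rw [hτ]; positivity
  have hτC : 5 * τ * C = θ := by rw [hτ]; field_simp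
  obtain ⟨X₁, hX₁⟩ := CH.pi_bounds τ hτ0
  have hl : Tendsto (fun n : ℕ => Real.log n) atTop atTop :=
    Real.tendsto_log_atTop.comp tendsto_natCast_atTop_atTop
  obtain ⟨X₂, hX₂⟩ := eventually_atTop.1 (hl.eventually_ge_atTop (Real.log C / τ))
  refine ⟨max (max X₁ X₂) 3, ?_⟩
  intro X hX a b ha hsz
  have h1 : X₁ ≤ X := ((le_max_left _ _).trans (le_max_left _ _)).trans hX
  have h2 : X₂ ≤ X := ((le_max_right _ _).trans (le_max_left _ _)).trans hX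
  have h4 : 3 ≤ X := (le_max_right _ _).trans hX
  have hXr : (0 : ℝ) < X := by exact_mod_cast (by omega : 0 < X)
  have hlog : 0 < Real.log X := Real.log_pos (by exact_mod_cast (by omega : 1 < X))
  obtain ⟨hlo, hlh, hhi, hdiff⟩ := ends hsz
  have hlogC : Real.log C ≤ τ * Real.log X := by
    have := hX₂ X h2
    rwa [div_le_iff₀ hτ0, mul_comm] at this
  rw [card_Om1 hlh, CH.pi1_eq, CH.pi1_eq]
  have hA := (hX₁ (hi a b X) (by omega)).1
  have hB := (hX₁ (lo a b X) (by omega)).2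
  have hhiX : X ≤ hi a b X := hlo.trans hlh
  have hhpos : (0 : ℝ) < (hi a b X : ℕ) := by exact_mod_cast (by omega : 0 < hi a b X)
  have hlpos : (0 : ℝ) < (lo a b X : ℕ) := by exact_mod_cast (by omega : 0 < lo a b X)
  have hlA : Real.log (hi a b X : ℕ) ≤ (1 + τ) * Real.log X := by
    have : Real.log (hi a b X : ℕ) ≤ Real.log (C * X) := by
      apply Real.log_le_log hhpos
      exact_mod_cast hhi
    rw [Real.log_mul (by positivity) hXr.ne'] at this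
    linarith
  have hlApos : 0 < Real.log (hi a b X : ℕ) :=
    Real.log_pos (by exact_mod_cast (by omega : 1 < hi a b X))
  have hlB : Real.log X ≤ Real.log (lo a b X : ℕ) := by
    apply Real.log_le_log hXr
    exact_mod_cast hlo
  have hA' : (1 - 2 * τ) * ((hi a b X : ℕ) / Real.log X) ≤
      (1 - τ) * (((hi a b X : ℕ) : ℝ) / Real.log (hi a b X : ℕ)) := by
    have e1 : ((hi a b X : ℕ) : ℝ) / ((1 + τ) * Real.log X) ≤
        ((hi a b X : ℕ) : ℝ) / Real.log (hi a b X : ℕ) :=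
      div_le_div_of_nonneg_left hhpos.le hlApos hlA
    have e2 : ((hi a b X : ℕ) : ℝ) / ((1 + τ) * Real.log X) =
        1 / (1 + τ) * ((hi a b X : ℕ) / Real.log X) := by
      field_simp
    rw [e2] at e1
    have hτ1 : τ ≤ 1 / 50 := by
      rw [hτ, div_le_iff₀ (by positivity)]
      nlinarith
    have e3 : (1 - 2 * τ) ≤ (1 - τ) * (1 / (1 + τ)) := by
      rw [mul_one_div, le_div_iff₀ (by linarith)]
      nlinarith
    have hq : (0 : ℝ) ≤ (hi a b X : ℕ) / Real.log X := by positivity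
    calc (1 - 2 * τ) * ((hi a b X : ℕ) / Real.log X)
        ≤ (1 - τ) * (1 / (1 + τ)) * ((hi a b X : ℕ) / Real.log X) :=
          mul_le_mul_of_nonneg_right e3 hq
      _ = (1 - τ) * (1 / (1 + τ) * ((hi a b X : ℕ) / Real.log X)) := by ring
      _ ≤ _ := mul_le_mul_of_nonneg_left e1 (by linarith)
  have hB' : (1 + τ) * (((lo a b X : ℕ) : ℝ) / Real.log (lo a b X : ℕ)) ≤
      (1 + τ) * ((lo a b X : ℕ) / Real.log X) := by
    apply mul_le_mul_of_nonneg_left _ (by linarith)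
    exact div_le_div_of_nonneg_left hlpos.le hlog hlB
  have hfin : (1 - θ) * (a.natAbs * X / Real.log X) ≤
      (1 - 2 * τ) * ((hi a b X : ℕ) / Real.log X) - (1 + τ) * ((lo a b X : ℕ) / Real.log X) := by
    have e1 : ((hi a b X : ℕ) : ℝ) = (lo a b X : ℕ) + a.natAbs * X := by
      rw [hdiff]; push_cast; ring
    have e2 : ((hi a b X : ℕ) : ℝ) ≤ C * X := by exact_mod_cast hhi
    have e3 : (1 : ℝ) ≤ a.natAbs := by
      exact_mod_cast Nat.one_le_iff_ne_zero.2 (Int.natAbs_ne_zero.2 ha)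
    have e4 : (1 - 2 * τ) * (((hi a b X : ℕ) : ℝ) / Real.log X) -
        (1 + τ) * ((lo a b X : ℕ) / Real.log X) =
        ((1 - 2 * τ) * (hi a b X : ℕ) - (1 + τ) * (lo a b X : ℕ)) / Real.log X := by ring
    have e5 : (1 - θ) * ((a.natAbs : ℝ) * X / Real.log X) =
        ((1 - θ) * (a.natAbs * X)) / Real.log X := by ring
    rw [e4, e5]
    apply div_le_div_of_nonneg_right _ hlog.le
    have e6 : 5 * τ * (C * X) ≤ θ * (a.natAbs * X) := by
      calc 5 * τ * (C * X) = θ * (1 * X) := by rw [← mul_assoc, hτC]; ring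
        _ ≤ θ * (a.natAbs * X) := by gcongr
    have e7 : τ * (hi a b X : ℕ) ≤ τ * (C * X) := mul_le_mul_of_nonneg_left e2 hτ0.le
    have e8 : τ * (lo a b X : ℕ) ≤ τ * (C * X) := by
      apply mul_le_mul_of_nonneg_left _ hτ0.le
      exact le_trans (by exact_mod_cast hlh) e2
    have e9 : 0 ≤ τ * ((C : ℝ) * X) := by positivity
    nlinarith
  linarith

end Pool.Agent.KS6_51.CG
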