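import Pool.Agent.KS6_51.G2

/-!
# Chen's theorem for `n` and `a n + b` inside sifted sets, part 3: the second sequence
-/

set_option autoImplicit false

namespace Pool.Agent.KS6_51.CG

open Finset Filter Pool.Agent.W23.DC Pool.Agent.Y660.RP Pool.Agent.Y843.CH
open Pool.Agent.KS6_51.CH (dev wc wc_spec dev_nonneg M0 M1 PP TT JJ Om2 Tot Om2_err JJ_card M1_le_exp
  M1_le_pow M0_ge exp_step mem_TT pow_two_ev rpow_999)

theorem second_rem (K m₀ U D : ℕ) (hm₀ : 0 < m₀) (hsq : Squarefree m₀) (hD : 0 < D) :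
    ∃ N₀ : ℕ, ∀ N : ℕ, N₀ ≤ N → ∀ (u v : ℝ), v * Real.exp (1 / D) ≤ 5 * (N : ℝ) ^ 2 → ∀ (a b : ℤ)
    (z : ℕ) (w : ℝ) (E : ℕ → Finset ℕ) (c : ℕ),
    (∀ p : ℕ, p.Prime → z < p → ¬ (p : ℤ) ∣ a) →
    (∀ p : ℕ, p.Prime → z < p → (E p).card ≤ K) → c.Coprime m₀ →
    (∀ p : ℕ, p.Prime → p ∣ m₀ → p ≤ z) →
    ∑ d ∈ Lv' z ((N : ℝ) ^ (999 / 1000 : ℝ)),
      Rr ((Om2 N D u v).filter (fun x => x.1 * x.2 ≡ c [MOD m₀]))
        (fun x => V z N (c2 w a b E) (x.1 * x.2))
        (gg w a b E) (Tot N D u v / (Nat.totient m₀ : ℝ)) d ≤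
      2 * D * Real.log N * ((N : ℝ) ^ 2 / Real.log N ^ U) := by
  obtain ⟨X₀, hX₀⟩ := Pool.Agent.Y261.CH.blv m₀ (K + 1) U hm₀ (by omega)
  obtain ⟨N₁, hN₁⟩ := pow_two_ev
  refine ⟨max (max X₀ N₁) 3, ?_⟩
  intro N hN u v huv a b z w E c ha hE hcop hz
  have hb : v * Real.exp (1 / D) ≤ 5 * (N : ℝ) ^ 2 := huv
  have hNX : X₀ ≤ N := ((le_max_left _ _).trans (le_max_left _ _)).trans hN
  have hNN : N₁ ≤ N := ((le_max_right _ _).trans (le_max_left _ _)).trans hN
  have hN3 : 3 ≤ N := (le_max_right _ _).trans hN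
  have hN1 : 1 ≤ N := by omega
  have hNr : (1 : ℝ) ≤ N := by exact_mod_cast hN1
  have hD0 : (0 : ℝ) < D := by exact_mod_cast hD
  set L := (N : ℝ) ^ (999 / 1000 : ℝ) with hL
  have hL0 : 0 ≤ L := by positivity
  have hX : X₀ ≤ N ^ 2 := hNX.trans (Nat.le_self_pow (by norm_num) _)
  have hN9 := hN₁ N hNN
  -- one piece
  have piece : ∀ t ∈ JJ N D, ∑ d ∈ Lv' z L, ((K + 1 : ℕ) : ℝ) ^ d.primeFactors.card *
      dev (PP N D t) (TT N D u v t) (m₀ * d) (wc (PP N D t) (TT N D u v t) (m₀ * d)) ≤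
      (N : ℝ) ^ 2 / Real.log N ^ U := by
    intro t ht
    have he := Real.exp_pos ((t : ℝ) / D)
    have key := hX₀ (N ^ 2) hX (M0 N D t) (M1 N D t) ⌊v / Real.exp (t / D)⌋₊
      (hN9.trans M0_ge) (le_max_left _ _) (by
        refine (M1_le_pow hN1 ht).trans ?_
        have e1 : (((N ^ 2 : ℕ) : ℝ)) ^ (2 / 5 : ℝ) = (N : ℝ) ^ (4 / 5 : ℝ) := by
          push_cast
          rw [← Real.rpow_natCast, ← Real.rpow_mul (by linarith)]
          norm_num
        rw [e1]
        exact Real.rpow_le_rpow_of_exponent_le hNr (by norm_num)) (by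
        have h1 : ((M1 N D t * ⌊v / Real.exp (t / D)⌋₊ : ℕ) : ℝ) ≤ 5 * (N : ℝ) ^ 2 := by
          push_cast
          rcases le_or_gt v 0 with hb0 | hb0
          · have : ⌊v / Real.exp (t / D)⌋₊ = 0 := by
              apply Nat.floor_of_nonpos
              exact div_nonpos_of_nonpos_of_nonneg hb0 he.le
            rw [this]
            simp only [Nat.cast_zero, mul_zero]
            positivity
          · calc (M1 N D t : ℝ) * ⌊v / Real.exp (t / D)⌋₊
                ≤ Real.exp ((t + 1) / D) * (v / Real.exp (t / D)) := by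
                  apply mul_le_mul (M1_le_exp hD ht) (Nat.floor_le (by positivity))
                    (Nat.cast_nonneg _) (Real.exp_pos _).le
              _ = v * Real.exp (1 / D) := by
                  rw [exp_step]
                  field_simp
              _ ≤ _ := hb
        exact_mod_cast h1) (TT N D u v t) (by
        intro n hn
        obtain ⟨⟨h1, h2⟩, p, q, hp, hq, h3, h4, h5, -, -⟩ := mem_TT.1 hn
        refine ⟨h1, h2, ?_⟩
        intro r hr
        have hrp := Nat.prime_of_mem_primeFactors hr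
        have hrd := Nat.dvd_of_mem_primeFactors hr
        have h6 : (N : ℝ) ^ (667 / 1000 : ℝ) ≤ r := by
          have h4' : (p : ℝ) ≤ q := by exact_mod_cast h4
          rw [h5, hrp.dvd_mul] at hrd
          rcases hrd with h | h
          · rw [(Nat.prime_dvd_prime_iff_eq hrp hp).1 h]; exact h3
          · rw [(Nat.prime_dvd_prime_iff_eq hrp hq).1 h]; linarith
        refine le_trans ?_ h6
        have e1 : (((N ^ 2 : ℕ) : ℝ)) ^ (1 / 9 : ℝ) = (N : ℝ) ^ (2 / 9 : ℝ) := by
          push_cast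
          rw [← Real.rpow_natCast, ← Real.rpow_mul (by linarith)]
          norm_num
        rw [e1]
        exact Real.rpow_le_rpow_of_exponent_le hNr (by norm_num))
      (fun d => wc (PP N D t) (TT N D u v t) d)
    have hlog : 0 < Real.log N := Real.log_pos (by exact_mod_cast (by omega : 1 < N))
    have hfin : ((N ^ 2 : ℕ) : ℝ) / Real.log ((N ^ 2 : ℕ) : ℝ) ^ U ≤
        (N : ℝ) ^ 2 / Real.log N ^ U := by
      push_cast
      apply div_le_div_of_nonneg_left (by positivity) (by positivity)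
      apply pow_le_pow_left₀ hlog.le
      rw [Real.log_pow]
      push_cast
      linarith
    refine le_trans ?_ (key.trans hfin)
    -- the injection
    have hmem : ∀ d ∈ Lv' z L, (1 ≤ d ∧ (d : ℝ) ≤ L) ∧ Squarefree d ∧ ∀ p ∈ d.primeFactors, z < p := by
      intro d hd
      unfold Lv' at hd
      rw [mem_filter, mem_Icc] at hd
      exact ⟨⟨hd.1.1, (Nat.cast_le.2 hd.1.2).trans (Nat.floor_le hL0)⟩, hd.2⟩
    calc ∑ d ∈ Lv' z L, ((K + 1 : ℕ) : ℝ) ^ d.primeFactors.card *
          dev (PP N D t) (TT N D u v t) (m₀ * d) (wc (PP N D t) (TT N D u v t) (m₀ * d))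
        ≤ ∑ d ∈ Lv' z L, ((K + 1 : ℕ) : ℝ) ^ (m₀ * d).primeFactors.card *
          dev (PP N D t) (TT N D u v t) (m₀ * d) (wc (PP N D t) (TT N D u v t) (m₀ * d)) := by
          apply sum_le_sum
          intro d hd
          apply mul_le_mul_of_nonneg_right _ (dev_nonneg _ _ _ _)
          apply pow_le_pow_right₀ (by exact_mod_cast (by omega : 1 ≤ K + 1))
          apply card_le_card
          exact Nat.primeFactors_mono (dvd_mul_left _ _) (Nat.mul_pos hm₀ (hmem d hd).1.1).ne'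
      _ = ∑ q ∈ (Lv' z L).image (fun d => m₀ * d), ((K + 1 : ℕ) : ℝ) ^ q.primeFactors.card *
          dev (PP N D t) (TT N D u v t) q (wc (PP N D t) (TT N D u v t) q) := by
          rw [sum_image]
          intro x _ y _ h
          exact Nat.eq_of_mul_eq_mul_left hm₀ h
      _ ≤ _ := by
          apply sum_le_sum_of_subset_of_nonneg
          · intro q hq
            obtain ⟨d, hd, rfl⟩ := mem_image.1 hq
            obtain ⟨⟨h1, h2⟩, h3, h4⟩ := hmem d hd
            rw [mem_filter, mem_Icc]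
            refine ⟨⟨Nat.mul_pos hm₀ h1, ?_⟩, ?_, (wc_spec _ _ _ (Nat.mul_pos hm₀ h1)).1⟩
            · apply Nat.le_floor
              push_cast
              apply mul_le_mul_of_nonneg_left _ (Nat.cast_nonneg _)
              refine h2.trans ?_
              have := rpow_999 (N := N) (X := N ^ 2) (v := N ^ 2) le_rfl le_rfl
              push_cast at this
              exact this
            · have hc : Nat.Coprime m₀ d := by
                rw [Nat.coprime_iff_gcd_eq_one]
                by_contra hne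
                obtain ⟨p, hp, hpd⟩ := Nat.exists_prime_and_dvd hne
                have h5 := hz p hp (hpd.trans (Nat.gcd_dvd_left _ _))
                have h6 := h4 p (Nat.mem_primeFactors.2 ⟨hp, hpd.trans (Nat.gcd_dvd_right _ _), by omega⟩)
                omega
              exact (Nat.squarefree_mul hc).2 ⟨hsq, h3⟩
          · intro q _ _
            exact mul_nonneg (by positivity) (abs_nonneg _)
  -- the sum
  have hLN : L ≤ N := by
    have : (N : ℝ) ^ (999 / 1000 : ℝ) ≤ (N : ℝ) ^ (1 : ℝ) :=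
      Real.rpow_le_rpow_of_exponent_le hNr (by norm_num)
    rwa [Real.rpow_one] at this
  have hb1 : ∀ d ∈ Lv' z L, Rr ((Om2 N D u v).filter (fun x => x.1 * x.2 ≡ c [MOD m₀]))
        (fun x => V z N (c2 w a b E) (x.1 * x.2))
        (gg w a b E) (Tot N D u v / (Nat.totient m₀ : ℝ)) d ≤
      ((K + 1 : ℕ) : ℝ) ^ d.primeFactors.card * ∑ t ∈ JJ N D,
        dev (PP N D t) (TT N D u v t) (m₀ * d) (wc (PP N D t) (TT N D u v t) (m₀ * d)) := by
    intro d hd
    have hd1 : 1 ≤ d := by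
      unfold Lv' at hd
      rw [mem_filter, mem_Icc] at hd
      exact hd.1.1
    exact rr_gen hL0 (Om2 N D u v) (fun x => x.1 * x.2) (fun x => V z N (c2 w a b E) (x.1 * x.2))
      (c2 w a b E) (gg w a b E) (fun p hp hzp => (c2_facts ha hE p hp hzp).1)
      (fun p hp hzp => (c2_facts ha hE p hp hzp).2.1)
      (fun p hp hzp => (c2_facts ha hE p hp hzp).2.2) (by
        intro y _ p hp hzp hpD
        have h2 : p ≤ N := by exact_mod_cast hpD.trans hLN
        rw [dvd_V hp]
        exact ⟨fun h => h.2, fun h => ⟨⟨hzp, h2⟩, h⟩⟩) m₀ c hm₀ hcop hz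
      (Tot N D u v) hd _ (sum_nonneg fun t _ => dev_nonneg _ _ _ _)
      (fun r hr hrc => Om2_err (N := N) (a := u) (b := v) hD (Nat.mul_pos hm₀ hd1) hr hrc)
  have hlog : 0 < Real.log N := Real.log_pos (by exact_mod_cast (by omega : 1 < N))
  calc _ ≤ ∑ d ∈ Lv' z L, ((K + 1 : ℕ) : ℝ) ^ d.primeFactors.card * ∑ t ∈ JJ N D,
        dev (PP N D t) (TT N D u v t) (m₀ * d) (wc (PP N D t) (TT N D u v t) (m₀ * d)) :=
        sum_le_sum hb1
    _ = ∑ t ∈ JJ N D, ∑ d ∈ Lv' z L, ((K + 1 : ℕ) : ℝ) ^ d.primeFactors.card *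
        dev (PP N D t) (TT N D u v t) (m₀ * d) (wc (PP N D t) (TT N D u v t) (m₀ * d)) := by
        rw [sum_comm]
        exact sum_congr rfl fun d _ => by rw [mul_sum]
    _ ≤ ∑ _t ∈ JJ N D, (N : ℝ) ^ 2 / Real.log N ^ U := sum_le_sum piece
    _ = (JJ N D).card * ((N : ℝ) ^ 2 / Real.log N ^ U) := by rw [sum_const, nsmul_eq_mul]
    _ ≤ _ := by
        apply mul_le_mul_of_nonneg_right (JJ_card hN3 hD) (by positivity)

end Pool.Agent.KS6_51.CG
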