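import Pool.Agent.KS6_51.G3

/-!
# Chen's theorem for `n` and `a n + b` inside sifted sets, part 4: the weights
-/

set_option autoImplicit false

namespace Pool.Agent.KS6_51.CG

open Finset Filter Pool.Agent.W23.DC Pool.Agent.Y660.RP Pool.Agent.Y843.CH
open Pool.Agent.KS6_51.CH (PP TT JJ Om2 Tot mem_Om2 mem_PP mem_TT lt_iff_ceil le_ceil_sub_one
  dvd_primorial)

/-- the integer attached to the prime `y` -/
def nn (a b : ℤ) (y : ℕ) : ℕ := (((y : ℤ) - b) / a).toNat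

/-- the residue class of the primes -/
def cls1 (a b : ℤ) (m₀ a₀ : ℕ) : ℕ := ((a * a₀ + b) % ((a.natAbs * m₀ : ℕ) : ℤ)).toNat

theorem nn_spec {a b : ℤ} {C X m₀ a₀ y : ℕ} (ha : a ≠ 0) (hm₀ : 0 < m₀) (h : Sz a b C X)
    (hy : y ∈ Om1 a b X) (hc : y ≡ cls1 a b m₀ a₀ [MOD (a.natAbs * m₀)]) :
    (X ≤ nn a b y ∧ nn a b y ≤ 2 * X) ∧ (y : ℤ) = a * nn a b y + b ∧ nn a b y ≡ a₀ [MOD m₀] := by
  have hy' := mem_Om1.1 hy
  obtain ⟨⟨h1, h2⟩, h3, h4⟩ := h
  have hm₁ : (0 : ℤ) < ((a.natAbs * m₀ : ℕ) : ℤ) := by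
    exact_mod_cast Nat.mul_pos (Int.natAbs_pos.2 ha) hm₀
  -- divisibility
  have hd : ((a.natAbs * m₀ : ℕ) : ℤ) ∣ (y : ℤ) - (a * a₀ + b) := by
    have e1 : ((cls1 a b m₀ a₀ : ℕ) : ℤ) = (a * a₀ + b) % ((a.natAbs * m₀ : ℕ) : ℤ) :=
      Int.toNat_of_nonneg (Int.emod_nonneg _ hm₁.ne')
    have e2 : (cls1 a b m₀ a₀ : ℤ) ≡ y [ZMOD ((a.natAbs * m₀ : ℕ) : ℤ)] :=
      (Int.natCast_modEq_iff.2 hc).symm
    have e3 := e2.dvd
    rw [e1] at e3
    have e4 : ((a.natAbs * m₀ : ℕ) : ℤ) ∣ (a * a₀ + b) % ((a.natAbs * m₀ : ℕ) : ℤ) - (a * a₀ + b) := by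
      rw [← dvd_neg, neg_sub]
      exact Int.dvd_self_sub_emod
    have e5 := dvd_add e3 e4
    have e6 : (y : ℤ) - (a * a₀ + b) % ((a.natAbs * m₀ : ℕ) : ℤ) +
        ((a * a₀ + b) % ((a.natAbs * m₀ : ℕ) : ℤ) - (a * a₀ + b)) = y - (a * a₀ + b) := by ring
    rwa [e6] at e5
  have hd2 : a * m₀ ∣ (y : ℤ) - (a * a₀ + b) := by
    have e : ((a.natAbs * m₀ : ℕ) : ℤ) = |a * m₀| := by
      push_cast
      rw [abs_mul, Nat.abs_cast]
    rw [e, abs_dvd] at hd
    exact hd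
  obtain ⟨k, hk⟩ := hd2
  have hyn : (y : ℤ) = a * (a₀ + m₀ * k) + b := by linarith
  have hlo : ((lo a b X : ℕ) : ℤ) = min (a * X + b) (a * (2 * X) + b) := by
    unfold lo
    apply Int.toNat_of_nonneg
    rw [le_min_iff]
    constructor <;> linarith [Int.natCast_nonneg X]
  have hhi : ((hi a b X : ℕ) : ℤ) = max (a * X + b) (a * (2 * X) + b) := by
    unfold hi
    apply Int.toNat_of_nonneg
    apply le_max_of_le_left
    linarith [Int.natCast_nonneg X]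
  have g1 : ((lo a b X : ℕ) : ℤ) < y := by exact_mod_cast hy'.1.1
  have g2 : (y : ℤ) ≤ ((hi a b X : ℕ) : ℤ) := by exact_mod_cast hy'.1.2
  rw [hlo, hyn] at g1
  rw [hhi, hyn] at g2
  obtain ⟨n, hn⟩ : ∃ n : ℤ, n = a₀ + m₀ * k := ⟨_, rfl⟩
  rw [← hn] at hyn g1 g2
  have hX0 : (0 : ℤ) ≤ X := Int.natCast_nonneg X
  have hbound : (X : ℤ) ≤ n ∧ n ≤ 2 * X := by
    rcases lt_or_gt_of_ne ha with h0 | h0
    · have e1 : a * (2 * X) + b ≤ a * X + b := by nlinarith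
      rw [min_eq_right e1] at g1
      rw [max_eq_left e1] at g2
      constructor
      · by_contra hlt
        push Not at hlt
        nlinarith
      · by_contra hlt
        push Not at hlt
        nlinarith
    · have e1 : a * X + b ≤ a * (2 * X) + b := by nlinarith
      rw [min_eq_left e1] at g1
      rw [max_eq_right e1] at g2
      constructor
      · by_contra hlt
        push Not at hlt
        nlinarith
      · by_contra hlt
        push Not at hlt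
        nlinarith
  have hnn : ((nn a b y : ℕ) : ℤ) = n := by
    unfold nn
    rw [hyn, add_sub_cancel_right, Int.mul_ediv_cancel_left _ ha]
    exact Int.toNat_of_nonneg (by linarith)
  refine ⟨⟨by omega, by omega⟩, by rw [hnn]; exact hyn, ?_⟩
  rw [← Int.natCast_modEq_iff, hnn, hn]
  exact (Int.modEq_iff_dvd).2 ⟨-k, by ring⟩

theorem dvd_V1 {w : ℝ} {a b : ℤ} {E : ℕ → Finset ℕ} {z N y n p : ℕ} (hp : p.Prime)
    (hz : z < p) (hpN : p ≤ N) (hpa : ¬ (p : ℤ) ∣ a) (hy : y.Prime) (hyN : N < y)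
    (hyn : (y : ℤ) = a * n + b) : p ∣ V z N (c1 w a b E) y ↔ n % p ∈ Fb w a b E p := by
  have hpr : Prime (p : ℤ) := Nat.prime_iff_prime_int.1 hp
  have hy0 : y % p ≠ 0 := by
    intro h
    have h1 := (Nat.prime_dvd_prime_iff_eq hp hy).1 (Nat.dvd_of_mod_eq_zero h)
    omega
  have hdy : (p : ℤ) ∣ (y : ℤ) - ((y % p : ℕ) : ℤ) := by
    rw [Int.natCast_mod]
    exact Int.dvd_self_sub_emod
  have hdn : (p : ℤ) ∣ (n : ℤ) - ((n % p : ℕ) : ℤ) := by
    rw [Int.natCast_mod]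
    exact Int.dvd_self_sub_emod
  rw [dvd_V hp, mem_c1]
  constructor
  · rintro ⟨-, -, -, r, hr, hd⟩
    have h1 : (p : ℤ) ∣ a * ((r : ℤ) - n) := by
      have h2 := dvd_sub hd hdy
      have e : a * (r : ℤ) + b - ((y % p : ℕ) : ℤ) - ((y : ℤ) - ((y % p : ℕ) : ℤ)) =
          a * ((r : ℤ) - n) := by rw [hyn]; ring
      rwa [e] at h2
    rcases hpr.dvd_or_dvd h1 with h2 | h2
    · exact absurd h2 hpa
    · have h3 := dvd_add h2 hdn
      have e : (r : ℤ) - n + (n - ((n % p : ℕ) : ℤ)) = (r : ℤ) - ((n % p : ℕ) : ℤ) := by ring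
      rw [e] at h3
      have h4 := eq_of_dvd (mem_Fb.1 hr).1 (Nat.mod_lt _ hp.pos) h3
      rw [← h4]
      exact hr
  · intro h
    refine ⟨⟨hz, hpN⟩, Nat.mod_lt _ hp.pos, hy0, n % p, h, ?_⟩
    have e : a * ((n % p : ℕ) : ℤ) + b - ((y % p : ℕ) : ℤ) =
        ((y : ℤ) - ((y % p : ℕ) : ℤ)) - a * ((n : ℤ) - ((n % p : ℕ) : ℤ)) := by
      rw [hyn]; ring
    rw [e]
    exact dvd_sub hdy (dvd_mul_of_dvd_right hdn a)

theorem dvd_V2 {w : ℝ} {a b : ℤ} {E : ℕ → Finset ℕ} {z N n p : ℕ} (hp : p.Prime)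
    (hz : z < p) (hpN : p ≤ N) :
    p ∣ V z N (c2 w a b E) n ↔ n % p ∈ Fb w a b E p ∧ n % p ≠ 0 := by
  rw [dvd_V hp]
  unfold c2
  rw [mem_erase]
  tauto

/-! ### The multiples of squares -/

open Classical in
/-- the `n` divisible by a square -/
noncomputable def NS (X N : ℕ) : Finset ℕ :=
  (Icc X (2 * X)).filter (fun n => ∃ p : ℕ, p.Prime ∧ (N : ℝ) ^ (1 / 4 : ℝ) ≤ p ∧
    (p : ℝ) < (N : ℝ) ^ (667 / 1000 : ℝ) ∧ p ^ 2 ∣ n)

theorem NS_card {X N : ℕ} (hN : 1 ≤ N) (hX0 : 1 ≤ X) (hX : 2 * X ≤ 3 * N ^ 2) :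
    ((NS X N).card : ℝ) ≤ 6 * (N : ℝ) ^ (7 / 4 : ℝ) := by
  classical
  have hNr : (1 : ℝ) ≤ N := by exact_mod_cast hN
  have hy1 : 1 ≤ (N : ℝ) ^ (1 / 4 : ℝ) := Real.one_le_rpow hNr (by norm_num)
  obtain ⟨k, hk⟩ : ∃ k : ℕ, k = ⌈(N : ℝ) ^ (1 / 4 : ℝ)⌉₊ - 1 := ⟨_, rfl⟩
  have hsub : NS X N ⊆ (Ioo k (N + 1)).biUnion (fun p =>
      (Icc X (2 * X)).filter (fun n => p ^ 2 ∣ n)) := by
    intro n hn
    unfold NS at hn
    rw [mem_filter] at hn
    obtain ⟨h0, p, hp, h1, h2, h3⟩ := hn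
    rw [mem_biUnion]
    refine ⟨p, ?_, mem_filter.2 ⟨h0, h3⟩⟩
    rw [mem_Ioo]
    constructor
    · rw [hk, lt_iff_ceil hp.pos]
      exact h1
    · have h5 : (N : ℝ) ^ (667 / 1000 : ℝ) ≤ (N : ℝ) ^ (1 : ℝ) :=
        Real.rpow_le_rpow_of_exponent_le hNr (by norm_num)
      rw [Real.rpow_one] at h5
      have h6 : (p : ℝ) < N := h2.trans_le h5
      have h7 : p < N := by exact_mod_cast h6
      omega
  have hone : ∀ p ∈ Ioo k (N + 1), (((Icc X (2 * X)).filter (fun n => p ^ 2 ∣ n)).card : ℝ) ≤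
      3 * (N : ℝ) ^ 2 * ((p : ℝ) ^ 2)⁻¹ := by
    intro p _
    have h1 : ((Icc X (2 * X)).filter (fun n => p ^ 2 ∣ n)).card ≤
        ((Ioc 0 (2 * X)).filter (fun m => p ^ 2 ∣ m)).card := by
      apply card_le_card
      intro n hn
      rw [mem_filter, mem_Icc] at hn
      rw [mem_filter, mem_Ioc]
      exact ⟨⟨by omega, hn.1.2⟩, hn.2⟩
    rw [Nat.Ioc_filter_dvd_card_eq_div] at h1
    have h2 : (((2 * X) / p ^ 2 : ℕ) : ℝ) ≤ ((2 * X : ℕ) : ℝ) / ((p ^ 2 : ℕ) : ℝ) :=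
      Nat.cast_div_le
    have h3 : ((2 * X : ℕ) : ℝ) ≤ 3 * (N : ℝ) ^ 2 := by exact_mod_cast hX
    have h4 : (((Icc X (2 * X)).filter (fun n => p ^ 2 ∣ n)).card : ℝ) ≤
        (((2 * X) / p ^ 2 : ℕ) : ℝ) := by exact_mod_cast h1
    refine h4.trans (h2.trans ?_)
    rw [div_eq_mul_inv]
    push_cast
    push_cast at h3
    exact mul_le_mul_of_nonneg_right h3 (by positivity)
  have h1 : ((NS X N).card : ℝ) ≤ ∑ p ∈ Ioo k (N + 1), 3 * (N : ℝ) ^ 2 * ((p : ℝ) ^ 2)⁻¹ := by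
    have h2 : (NS X N).card ≤ ∑ p ∈ Ioo k (N + 1),
        ((Icc X (2 * X)).filter (fun n => p ^ 2 ∣ n)).card :=
      (card_le_card hsub).trans card_biUnion_le
    have h3 : ((NS X N).card : ℝ) ≤ ((∑ p ∈ Ioo k (N + 1),
        ((Icc X (2 * X)).filter (fun n => p ^ 2 ∣ n)).card : ℕ) : ℝ) := by exact_mod_cast h2
    rw [Nat.cast_sum] at h3
    exact h3.trans (sum_le_sum hone)
  refine h1.trans ?_
  rw [← mul_sum]
  have h2 := sum_Ioo_inv_sq_le (α := ℝ) k (N + 1)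
  have h3 : (N : ℝ) ^ (1 / 4 : ℝ) ≤ (k : ℝ) + 1 := by
    have := le_ceil_sub_one ((N : ℝ) ^ (1 / 4 : ℝ))
    rw [← hk] at this
    linarith
  have h4 : 2 / ((k : ℝ) + 1) ≤ 2 / (N : ℝ) ^ (1 / 4 : ℝ) :=
    div_le_div_of_nonneg_left (by norm_num) (by linarith) h3
  calc 3 * (N : ℝ) ^ 2 * ∑ p ∈ Ioo k (N + 1), ((p : ℝ) ^ 2)⁻¹
      ≤ 3 * (N : ℝ) ^ 2 * (2 / (N : ℝ) ^ (1 / 4 : ℝ)) :=
        mul_le_mul_of_nonneg_left (h2.trans h4) (by positivity)
    _ = 6 * ((N : ℝ) ^ (2 : ℝ) / (N : ℝ) ^ (1 / 4 : ℝ)) := by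
        rw [Real.rpow_two]; ring
    _ = 6 * (N : ℝ) ^ (7 / 4 : ℝ) := by
        rw [← Real.rpow_sub (by linarith)]
        norm_num

/-! ### The weights -/

open Classical in
/-- the integers to be found -/
noncomputable def GG (a b : ℤ) (X N z m₀ a₀ : ℕ) (ε : ℝ) (E : ℕ → Finset ℕ) : Finset ℕ :=
  (Icc X (2 * X)).filter (fun n => (a * n + b).toNat.Prime ∧ n ≡ a₀ [MOD m₀] ∧
    (∀ p ∈ P1 N z ε, n % p ∉ E p) ∧
    (∀ p : ℕ, p.Prime → p ∣ n → (N : ℝ) ^ (1 / 4 : ℝ) ≤ p) ∧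
    n.primeFactorsList.length ≤ 2)

open Classical in
/-- the first sifted set -/
noncomputable def S1 (a b : ℤ) (X N z m₀ a₀ : ℕ) (ε : ℝ) (E : ℕ → Finset ℕ) : Finset ℕ :=
  ((Om1 a b X).filter (fun y => y ≡ cls1 a b m₀ a₀ [MOD (a.natAbs * m₀)])).filter
    (fun y => ∀ p ∈ P1 N z ε, ¬ p ∣ V z N (c1 ((N : ℝ) ^ ε) a b E) y)

open Classical in
/-- the second sifted set -/
noncomputable def S2 (a b : ℤ) (X N D z m₀ a₀ : ℕ) (ε : ℝ) (E : ℕ → Finset ℕ) : Finset (ℕ × ℕ) :=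
  ((Om2 N D ((X - 1 : ℕ) : ℝ) ((2 * X : ℕ) : ℝ)).filter
    (fun x => x.1 * x.2 ≡ a₀ [MOD m₀])).filter
    (fun x => (∀ p ∈ P1 N z ε, ¬ p ∣ V z N (c2 ((N : ℝ) ^ ε) a b E) (x.1 * x.2)) ∧
      ∀ p ∈ pr N ε (7 / 20), ¬ p ∣ V z N (c2 ((N : ℝ) ^ ε) a b E) (x.1 * x.2))

open Classical in
/-- the exceptional primes -/
noncomputable def BB (a b : ℤ) (X N z m₀ a₀ : ℕ) (ε : ℝ) (E : ℕ → Finset ℕ) : Finset ℕ :=
  (S1 a b X N z m₀ a₀ ε E).filter (fun y => ∃ p₁ p₂ p₃ : ℕ, p₁ ∈ pr N (1 / 4) (667 / 1000) ∧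
    p₂.Prime ∧ p₃.Prime ∧ (N : ℝ) ^ (667 / 1000 : ℝ) ≤ p₂ ∧ p₂ ≤ p₃ ∧
    nn a b y = p₁ * (p₂ * p₃))

theorem BB_card {a b : ℤ} {C X N D z a₀ : ℕ} {ε : ℝ} {E : ℕ → Finset ℕ} (hN : 2 ≤ N)
    (hD : 0 < D) (hNX : N ^ 2 ≤ X) (ha : a ≠ 0)
    (haz : ∀ p : ℕ, p.Prime → z < p → ¬ (p : ℤ) ∣ a) (hsz : Sz a b C X)
    (hzε : (z : ℝ) < (N : ℝ) ^ ε) :
    (BB a b X N z (primorial z) a₀ ε E).card ≤ (S2 a b X N D z (primorial z) a₀ ε E).card := by
  classical
  have hN1 : 1 ≤ N := by omega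
  have hNr : (1 : ℝ) < N := by exact_mod_cast (by omega : 1 < N)
  have hDr : (0 : ℝ) < D := by exact_mod_cast hD
  have hNX' : N ≤ X := (Nat.le_self_pow (by norm_num) N).trans hNX
  have hsub : BB a b X N z (primorial z) a₀ ε E ⊆
      (S2 a b X N D z (primorial z) a₀ ε E).image (fun x => (a * ((x.1 * x.2 : ℕ) : ℤ) + b).toNat) := by
    intro y hy
    unfold BB at hy
    rw [mem_filter] at hy
    obtain ⟨hy1, p₁, p₂, p₃, h1, h2, h3, h4, h5, h6⟩ := hy
    unfold S1 at hy1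
    rw [mem_filter, mem_filter] at hy1
    obtain ⟨⟨hOm, hmod⟩, hsift⟩ := hy1
    obtain ⟨⟨hX1, hX2⟩, hyn, hnmod⟩ := nn_spec ha (primorial_pos z) hsz hOm hmod
    have hbig := Om1_big hsz hOm
    have hpr := (mem_Om1.1 hOm).2
    obtain ⟨n, hn⟩ : ∃ n, n = nn a b y := ⟨_, rfl⟩
    rw [← hn] at hX1 hX2 hyn hnmod h6
    rw [mem_pr] at h1
    obtain ⟨-, hp1, h7, h8⟩ := h1
    rw [le_tt_iff hN hp1] at h7
    rw [tt_lt_iff hN hp1] at h8
    rw [mem_image]
    refine ⟨(p₁, p₂ * p₃), ?_, ?_⟩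
    · -- the primes do not divide
      have hnot : ∀ p : ℕ, p.Prime → z < p → p ≤ N →
          ¬ p ∣ V z N (c2 ((N : ℝ) ^ ε) a b E) n := by
        intro p hp hzp hpN hd
        rw [dvd_V2 hp hzp hpN] at hd
        obtain ⟨hd1, hd0⟩ := hd
        rcases lt_or_ge (p : ℝ) ((N : ℝ) ^ ε) with hlt | hge
        · exact hsift p (mem_P1.2 ⟨⟨hzp, hpN⟩, hp, hlt⟩)
            ((dvd_V1 hp hzp hpN (haz p hp hzp) hpr (by omega) hyn).2 hd1)
        · rcases (mem_Fb.1 hd1).2 with h | h | h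
          · exact absurd h.1 (not_lt.2 hge)
          · exact hd0 h
          · have hdn : (p : ℤ) ∣ (n : ℤ) - ((n % p : ℕ) : ℤ) := by
              rw [Int.natCast_mod]
              exact Int.dvd_self_sub_emod
            have h9 : (p : ℤ) ∣ (y : ℤ) := by
              have e : (y : ℤ) = (a * ((n % p : ℕ) : ℤ) + b) + a * ((n : ℤ) - ((n % p : ℕ) : ℤ)) := by
                rw [hyn]; ring
              rw [e]
              exact dvd_add h (dvd_mul_of_dvd_right hdn a)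
            have h10 : p ∣ y := by exact_mod_cast h9
            have h11 := (Nat.prime_dvd_prime_iff_eq hp hpr).1 h10
            omega
      unfold S2
      rw [mem_filter, mem_filter]
      refine ⟨⟨?_, ?_⟩, ?_, ?_⟩
      · -- membership in Om2
        rw [mem_Om2]
        have hp1r : (0 : ℝ) < p₁ := by exact_mod_cast hp1.pos
        have hlog : 0 ≤ Real.log p₁ := Real.log_nonneg (by exact_mod_cast hp1.one_lt.le)
        set t := ⌊D * Real.log p₁⌋₊ with ht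
        have ht1 : (t : ℝ) ≤ D * Real.log p₁ := Nat.floor_le (by positivity)
        have ht2 : D * Real.log p₁ < t + 1 := Nat.lt_floor_add_one _
        have hb1 : Real.exp (t / D) ≤ p₁ := by
          rw [← Real.le_log_iff_exp_le hp1r, div_le_iff₀ hDr]
          linarith
        have hb2 : (p₁ : ℝ) < Real.exp ((t + 1) / D) := by
          rw [← Real.log_lt_iff_lt_exp hp1r, lt_div_iff₀ hDr]
          linarith
        have hm1 : (1 : ℝ) ≤ ((p₂ * p₃ : ℕ) : ℝ) := by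
          exact_mod_cast Nat.mul_pos h2.pos h3.pos
        have hle : Real.exp (t / D) * ((p₂ * p₃ : ℕ) : ℝ) ≤ ((2 * X : ℕ) : ℝ) := by
          calc Real.exp (t / D) * ((p₂ * p₃ : ℕ) : ℝ) ≤ p₁ * ((p₂ * p₃ : ℕ) : ℝ) := by gcongr
            _ = (n : ℝ) := by rw [h6]; push_cast; ring
            _ ≤ _ := by exact_mod_cast hX2
        refine ⟨t, ?_, ?_, ?_⟩
        · unfold JJ
          rw [mem_filter, mem_range]
          refine ⟨?_, ?_, ?_⟩
          · have h9 : (p₁ : ℝ) ≤ N := by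
              have h10 : (N : ℝ) ^ (667 / 1000 : ℝ) ≤ (N : ℝ) ^ (1 : ℝ) :=
                Real.rpow_le_rpow_of_exponent_le hNr.le (by norm_num)
              rw [Real.rpow_one] at h10
              linarith
            have h11 : t ≤ ⌊D * Real.log N⌋₊ := by
              apply Nat.floor_le_floor
              apply mul_le_mul_of_nonneg_left _ hDr.le
              exact Real.log_le_log hp1r h9
            omega
          · linarith
          · linarith
        · rw [mem_PP]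
          exact ⟨hp1, ⟨hb1, hb2⟩, h7, h8⟩
        · rw [mem_TT]
          refine ⟨⟨Nat.mul_pos h2.pos h3.pos, ?_⟩, p₂, p₃, h2, h3, h4, h5, rfl, ?_, hle⟩
          · apply Nat.le_floor
            rw [le_div_iff₀ (Real.exp_pos _), mul_comm]
            exact hle
          · calc ((X - 1 : ℕ) : ℝ) < (n : ℝ) := by exact_mod_cast (by omega : X - 1 < n)
              _ = p₁ * ((p₂ * p₃ : ℕ) : ℝ) := by rw [h6]; push_cast; ring
              _ ≤ _ := by gcongr
      · show p₁ * (p₂ * p₃) ≡ a₀ [MOD primorial z]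
        rw [← h6]
        exact hnmod
      · intro p hp
        show ¬ p ∣ V z N (c2 ((N : ℝ) ^ ε) a b E) (p₁ * (p₂ * p₃))
        rw [← h6]
        rw [mem_P1] at hp
        exact hnot p hp.2.1 hp.1.1 hp.1.2
      · intro p hp
        show ¬ p ∣ V z N (c2 ((N : ℝ) ^ ε) a b E) (p₁ * (p₂ * p₃))
        rw [← h6]
        rw [mem_pr] at hp
        have h9 := hp.2.2.1
        rw [le_tt_iff hN hp.2.1] at h9
        have h10 : z < p := by exact_mod_cast hzε.trans_le h9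
        exact hnot p hp.2.1 h10 hp.1.2
    · show (a * ((p₁ * (p₂ * p₃) : ℕ) : ℤ) + b).toNat = y
      rw [← h6, ← hyn]
      simp
  exact (card_le_card hsub).trans card_image_le

theorem weights : ∃ N₀ : ℕ, ∀ N : ℕ, N₀ ≤ N → ∀ (a b : ℤ) (C X D z a₀ : ℕ) (ε : ℝ)
    (E : ℕ → Finset ℕ), 0 < D → ε ≤ 1 / 8 → N ^ 2 ≤ X → 2 * X ≤ 3 * N ^ 2 → a ≠ 0 →
    (∀ p : ℕ, p.Prime → z < p → ¬ (p : ℤ) ∣ a) → Sz a b C X → (z : ℝ) < (N : ℝ) ^ ε →
    a₀.Coprime (primorial z) →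
    ∑ y ∈ S1 a b X N z (primorial z) a₀ ε E, II N ε (V z N (c1 ((N : ℝ) ^ ε) a b E) y) *
      (1 - 1 / 2 * ∑ q ∈ pr N (1 / 4) (667 / 1000),
        (if q ∣ V z N (c1 ((N : ℝ) ^ ε) a b E) y then 1 else 0)) ≤
    ((GG a b X N z (primorial z) a₀ ε E).card : ℝ) +
      1 / 2 * ((S2 a b X N D z (primorial z) a₀ ε E).card : ℝ) + ((NS X N).card : ℝ) := by
  classical
  obtain ⟨N₁, hN₁⟩ := Pool.Agent.Y73.CH.wt
  refine ⟨max N₁ 2, ?_⟩
  intro N hN a b C X D z a₀ ε E hD hε hNX hX3 ha haz hsz hzε hcop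
  have hNW := hN₁ N ((le_max_left _ _).trans hN)
  have hN2 : 2 ≤ N := (le_max_right _ _).trans hN
  have hN1 : 1 ≤ N := by omega
  have hNr : (1 : ℝ) ≤ N := by exact_mod_cast hN1
  have hNX' : N ≤ X := (Nat.le_self_pow (by norm_num) N).trans hNX
  have hBB := BB_card (a₀ := a₀) (E := E) hN2 hD hNX ha haz hsz hzε
  set w := (N : ℝ) ^ ε with hw
  obtain ⟨W, hW⟩ : ∃ W : ℕ → ℕ, W = V z N (c1 w a b E) := ⟨_, rfl⟩
  have hspec : ∀ y ∈ S1 a b X N z (primorial z) a₀ ε E,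
      (X ≤ nn a b y ∧ nn a b y ≤ 2 * X) ∧ (y : ℤ) = a * nn a b y + b ∧
      nn a b y ≡ a₀ [MOD primorial z] ∧ y.Prime ∧ X < y := by
    intro y hy
    unfold S1 at hy
    rw [mem_filter, mem_filter] at hy
    obtain ⟨h1, h2, h3⟩ := nn_spec ha (primorial_pos z) hsz hy.1.1 hy.1.2
    exact ⟨h1, h2, h3, (mem_Om1.1 hy.1.1).2, Om1_big hsz hy.1.1⟩
  have hterm : ∀ y ∈ S1 a b X N z (primorial z) a₀ ε E, II N ε (V z N (c1 w a b E) y) *
      (1 - 1 / 2 * ∑ q ∈ pr N (1 / 4) (667 / 1000),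
        (if q ∣ V z N (c1 w a b E) y then (1 : ℝ) else 0)) ≤
      (if nn a b y ∈ GG a b X N z (primorial z) a₀ ε E then 1 else 0) +
      1 / 2 * (if y ∈ BB a b X N z (primorial z) a₀ ε E then 1 else 0) +
      (if nn a b y ∈ NS X N then 1 else 0) := by
    intro y hy
    obtain ⟨⟨hX1, hX2⟩, hyn, hnmod, hpr, hbig⟩ := hspec y hy
    have hy' := hy
    unfold S1 at hy'
    rw [mem_filter, mem_filter] at hy'
    obtain ⟨⟨hOm, hmod⟩, hsift⟩ := hy'
    have hdV : ∀ p : ℕ, p.Prime → z < p → p ≤ N →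
        (p ∣ V z N (c1 w a b E) y ↔ nn a b y % p ∈ Fb w a b E p) := fun p hp hzp hpN =>
      dvd_V1 hp hzp hpN (haz p hp hzp) hpr (by omega) hyn
    rw [← hw] at hsift
    obtain ⟨n, hn⟩ : ∃ n, n = nn a b y := ⟨_, rfl⟩
    rw [← hn] at hX1 hX2 hyn hnmod hdV ⊢
    have hnn : (0 : ℝ) ≤ (if n ∈ GG a b X N z (primorial z) a₀ ε E then 1 else 0) +
      1 / 2 * (if y ∈ BB a b X N z (primorial z) a₀ ε E then 1 else 0) +
      (if n ∈ NS X N then 1 else 0) := by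
      have h1 : (0 : ℝ) ≤ (if n ∈ GG a b X N z (primorial z) a₀ ε E then 1 else 0) := by
        split_ifs <;> norm_num
      have h2 : (0 : ℝ) ≤ (if y ∈ BB a b X N z (primorial z) a₀ ε E then 1 else 0) := by
        split_ifs <;> norm_num
      have h3 : (0 : ℝ) ≤ (if n ∈ NS X N then 1 else 0) := by split_ifs <;> norm_num
      linarith
    unfold II
    by_cases hII : ∀ p ∈ pr N ε (1 / 4), ¬ p ∣ V z N (c1 w a b E) y
    · rw [if_pos hII, one_mul]
      -- the prime factors are large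
      have hpf : ∀ p : ℕ, p.Prime → p ∣ n → (N : ℝ) ^ (1 / 4 : ℝ) ≤ p := by
        intro p hp hd
        by_contra hlt
        push Not at hlt
        have hpN : p ≤ N := by
          have h10 : (N : ℝ) ^ (1 / 4 : ℝ) ≤ (N : ℝ) ^ (1 : ℝ) :=
            Real.rpow_le_rpow_of_exponent_le hNr (by norm_num)
          rw [Real.rpow_one] at h10
          exact_mod_cast (hlt.trans_le h10).le
        rcases le_or_gt p z with hpz | hpz
        · have h1 : p ∣ primorial z := dvd_primorial hp hpz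
          have h2 : n ≡ a₀ [MOD p] := hnmod.of_dvd h1
          have h3 : p ∣ a₀ := (h2.dvd_iff dvd_rfl).1 hd
          have h4 : p ∣ Nat.gcd a₀ (primorial z) := Nat.dvd_gcd h3 h1
          rw [hcop] at h4
          exact hp.one_lt.ne' (Nat.dvd_one.1 h4)
        · have hdv : p ∣ V z N (c1 w a b E) y := by
            rw [hdV p hp hpz hpN, mem_Fb]
            exact ⟨Nat.mod_lt _ hp.pos, Or.inr (Or.inl (Nat.mod_eq_zero_of_dvd hd))⟩
          rcases lt_or_ge (p : ℝ) ((N : ℝ) ^ ε) with h1 | h1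
          · exact hsift p (mem_P1.2 ⟨⟨hpz, hpN⟩, hp, h1⟩) hdv
          · exact hII p (mem_pr.2 ⟨⟨hp.one_lt.le, hpN⟩, hp, (le_tt_iff hN2 hp _).2 h1,
              (tt_lt_iff hN2 hp _).2 hlt⟩) hdv
      have hE : ∀ p ∈ P1 N z ε, n % p ∉ E p := by
        intro p hp hpE
        apply hsift p hp
        rw [mem_P1] at hp
        rw [hdV p hp.2.1 hp.1.1 hp.1.2, mem_Fb]
        exact ⟨Nat.mod_lt _ hp.2.1.pos, Or.inl ⟨hp.2.2, hpE⟩⟩
      have hsum : (((pr N (1 / 4) (667 / 1000)).filter (fun q => q ∣ n)).card : ℝ) ≤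
          ∑ q ∈ pr N (1 / 4) (667 / 1000), (if q ∣ V z N (c1 w a b E) y then (1 : ℝ) else 0) := by
        rw [sum_boole]
        have h1 : (pr N (1 / 4) (667 / 1000)).filter (fun q => q ∣ n) ⊆
            (pr N (1 / 4) (667 / 1000)).filter (fun q => q ∣ V z N (c1 w a b E) y) := by
          intro q hq
          rw [mem_filter] at hq ⊢
          refine ⟨hq.1, ?_⟩
          have hq1 := mem_pr.1 hq.1
          have hq2 := hq1.2.2.1
          rw [le_tt_iff hN2 hq1.2.1] at hq2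
          have h14 : w ≤ (N : ℝ) ^ (1 / 4 : ℝ) :=
            Real.rpow_le_rpow_of_exponent_le hNr (by linarith)
          have h10 : z < q := by exact_mod_cast hzε.trans_le (h14.trans hq2)
          rw [hdV q hq1.2.1 h10 hq1.1.2, mem_Fb]
          exact ⟨Nat.mod_lt _ hq1.2.1.pos, Or.inr (Or.inl (Nat.mod_eq_zero_of_dvd hq.2))⟩
        exact_mod_cast card_le_card h1
      set k := ((pr N (1 / 4) (667 / 1000)).filter (fun q => q ∣ n)).card with hk
      have hk0 : (0 : ℝ) ≤ k := Nat.cast_nonneg _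
      have hB0 : (0 : ℝ) ≤ (if y ∈ BB a b X N z (primorial z) a₀ ε E then 1 else 0) := by
        split_ifs <;> norm_num
      have hG0 : (0 : ℝ) ≤ (if n ∈ GG a b X N z (primorial z) a₀ ε E then 1 else 0) := by
        split_ifs <;> norm_num
      have hN0 : (0 : ℝ) ≤ (if n ∈ NS X N then 1 else 0) := by split_ifs <;> norm_num
      by_cases hNS : n ∈ NS X N
      · rw [if_pos hNS]
        linarith
      · have hww := hNW n (by omega) (by omega) hpf (by
          intro p hp hd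
          by_contra hlt
          push Not at hlt
          apply hNS
          unfold NS
          rw [mem_filter, mem_Icc]
          exact ⟨⟨hX1, hX2⟩, p, hp, hpf p hp ((dvd_pow_self p (by norm_num)).trans hd), hlt, hd⟩)
        rcases hww with hww | hww | hww
        · have hG : n ∈ GG a b X N z (primorial z) a₀ ε E := by
            unfold GG
            rw [mem_filter, mem_Icc]
            refine ⟨⟨hX1, hX2⟩, ?_, hnmod, hE, hpf, hww⟩
            rw [← hyn]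
            simpa using hpr
          rw [if_pos hG]
          linarith
        · have h1 : (2 : ℝ) ≤ k := by exact_mod_cast hww
          linarith
        · have h1 : (k : ℝ) = 1 := by exact_mod_cast hww.1
          have hB : y ∈ BB a b X N z (primorial z) a₀ ε E := by
            unfold BB
            rw [mem_filter, ← hn]
            exact ⟨hy, hww.2⟩
          rw [if_pos hB]
          linarith
    · rw [if_neg hII, zero_mul]
      exact hnn
  refine (sum_le_sum hterm).trans ?_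
  rw [sum_add_distrib, sum_add_distrib, ← mul_sum, sum_boole, sum_boole, sum_boole]
  have hinj : ∀ T : Finset ℕ, ((S1 a b X N z (primorial z) a₀ ε E).filter
      (fun y => nn a b y ∈ T)).card ≤ T.card := by
    intro T
    apply card_le_card_of_injOn (fun y => nn a b y)
    · intro y hy
      rw [mem_coe, mem_filter] at hy
      exact mem_coe.2 hy.2
    · intro y hy y' hy' hyy
      rw [mem_coe, mem_filter] at hy hy'
      have e1 := (hspec y hy.1).2.1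
      have e2 := (hspec y' hy'.1).2.1
      have e3 : nn a b y = nn a b y' := hyy
      rw [e3, ← e2] at e1
      exact_mod_cast e1
  have h1 := hinj (GG a b X N z (primorial z) a₀ ε E)
  have h2 : ((S1 a b X N z (primorial z) a₀ ε E).filter
      (fun y => y ∈ BB a b X N z (primorial z) a₀ ε E)).card ≤
      (S2 a b X N D z (primorial z) a₀ ε E).card :=
    (card_le_card (fun n hn => (mem_filter.1 hn).2)).trans hBB
  have h3 := hinj (NS X N)
  have h1' : (((S1 a b X N z (primorial z) a₀ ε E).filter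
      (fun y => nn a b y ∈ GG a b X N z (primorial z) a₀ ε E)).card : ℝ) ≤
      (GG a b X N z (primorial z) a₀ ε E).card := by exact_mod_cast h1
  have h2' : (((S1 a b X N z (primorial z) a₀ ε E).filter
      (fun y => y ∈ BB a b X N z (primorial z) a₀ ε E)).card : ℝ) ≤
      (S2 a b X N D z (primorial z) a₀ ε E).card := by exact_mod_cast h2
  have h3' : (((S1 a b X N z (primorial z) a₀ ε E).filter
      (fun y => nn a b y ∈ NS X N)).card : ℝ) ≤ (NS X N).card := by exact_mod_cast h3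
  linarith

end Pool.Agent.KS6_51.CG
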