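import Pool.Agent.KS6_51.G4
import Pool.Agent.KS6_51.CH8

/-!
# Chen's theorem for `n` and `a n + b` inside sifted sets, part 5: the end of the proof
-/

set_option autoImplicit false

namespace Pool.Agent.KS6_51.CG

open Finset Filter Pool.Agent.W23.DC Pool.Agent.Y660.RP Pool.Agent.Y843.CH
open Pool.Agent.KS6_51.CH (Om2 Tot Tot_le Tot_nonneg exists_D ev_pow numer prod_ge
  le_of_dvd_primorial)

theorem totient_mul_eq (u m : ℕ) (hu : 0 < u) (hm : 0 < m)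
    (h : ∀ p : ℕ, p.Prime → p ∣ u → p ∣ m) : Nat.totient (u * m) = u * Nat.totient m := by
  have h1 := Nat.totient_eq_mul_prod_factors (u * m)
  have h2 := Nat.totient_eq_mul_prod_factors m
  have e : (u * m).primeFactors = m.primeFactors := by
    rw [Nat.primeFactors_mul hu.ne' hm.ne']
    apply union_eq_right.2
    intro p hp
    rw [Nat.mem_primeFactors] at hp ⊢
    exact ⟨hp.1, h p hp.1 hp.2.1, hm.ne'⟩
  rw [e] at h1
  have h3 : ((Nat.totient (u * m) : ℕ) : ℚ) = ((u * Nat.totient m : ℕ) : ℚ) := by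
    rw [h1]
    push_cast
    rw [h2]
    ring
  exact_mod_cast h3

theorem natAbs_le {a b : ℤ} {C X : ℕ} (h : Sz a b C X) : b.natAbs ≤ (C + a.natAbs) * X := by
  obtain ⟨⟨h1, h2⟩, -, -⟩ := h
  have hX : (0 : ℤ) ≤ X := Int.natCast_nonneg X
  have e1 := le_abs_self a
  have e2 := neg_abs_le a
  have e3 : a * X ≤ |a| * X := mul_le_mul_of_nonneg_right e1 hX
  have e4 : -(|a| * X) ≤ a * X := by
    have := mul_le_mul_of_nonneg_right e2 hX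
    linarith
  have hC : (0 : ℤ) ≤ C * X := by positivity
  have hb : |b| ≤ (C + |a|) * X := by
    rw [abs_le]
    constructor
    · nlinarith
    · nlinarith
  have e5 : ((b.natAbs : ℕ) : ℤ) = |b| := Int.natCast_natAbs b
  have e6 : ((a.natAbs : ℕ) : ℤ) = |a| := Int.natCast_natAbs a
  have e7 : ((b.natAbs : ℕ) : ℤ) ≤ (((C + a.natAbs) * X : ℕ) : ℤ) := by
    push_cast
    linarith
  exact_mod_cast e7

theorem chenN (K C : ℕ) (hC1 : 1 ≤ C) (a : ℤ) (ha : a ≠ 0) : ∃ z₀ : ℕ, ∀ z : ℕ, z₀ ≤ z →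
    ∃ (ε c : ℝ) (N₀ : ℕ), 0 < ε ∧ ε ≤ 1 / 8 ∧ 0 < c ∧ ∀ N : ℕ, N₀ ≤ N → (z : ℝ) < (N : ℝ) ^ ε ∧
    ∀ X : ℕ, N ^ 2 ≤ X →
    X ≤ N ^ 2 + 2 * N → ∀ b : ℤ, b ≠ 0 → Sz a b C X →
    ∀ (E : ℕ → Finset ℕ) (a₀ : ℕ), (∀ p : ℕ, p.Prime → z < p → (E p).card ≤ K) →
    (∀ p : ℕ, p.Prime → p ≤ z → ¬ p ∣ a₀ ∧ ¬ (p : ℤ) ∣ a * a₀ + b) →
    c * (X / Real.log N * ∏ p ∈ P1 N z ε, (1 - gg ((N : ℝ) ^ ε) a b E p)) ≤
      ((GG a b X N z (primorial z) a₀ ε E).card : ℝ) := by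
  classical
  obtain ⟨A0, C0, hA0, hcore⟩ := Pool.Agent.Y261.CH.core (K + 1) (by omega)
  obtain ⟨D, hD0, hD1, hexp1, hexp2⟩ := exists_D
  refine ⟨max (max C0 (2 * (K + 1) + 2)) a.natAbs, ?_⟩
  intro z hz
  have hzC : C0 ≤ z := ((le_max_left _ _).trans (le_max_left _ _)).trans hz
  have hzK : 2 * (K + 1) + 2 ≤ z := ((le_max_right _ _).trans (le_max_left _ _)).trans hz
  have hza : a.natAbs ≤ z := (le_max_right _ _).trans hz
  have ha0 : 0 < a.natAbs := Int.natAbs_pos.2 ha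
  have haz : ∀ p : ℕ, p.Prime → z < p → ¬ (p : ℤ) ∣ a := by
    intro p hp hzp hd
    have h1 : p ∣ a.natAbs := by
      rw [← Int.natCast_dvd_natCast, Int.dvd_natAbs]
      exact hd
    have h2 := Nat.le_of_dvd ha0 h1
    omega
  obtain ⟨ε, hε0, hε8, Nc, hNc2, hcoreN⟩ := hcore z hzC (A0 / 2000) (by positivity)
  have hm₀ : 0 < primorial z := primorial_pos z
  have hmz : ∀ p : ℕ, p.Prime → p ∣ primorial z → p ≤ z := fun p hp h => le_of_dvd_primorial hp h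
  set m₀ := primorial z with hm₀d
  have hm₁ : 0 < a.natAbs * m₀ := Nat.mul_pos ha0 hm₀
  have hm₁z : ∀ p : ℕ, p.Prime → p ∣ a.natAbs * m₀ → p ≤ z := by
    intro p hp hd
    rcases (hp.dvd_mul).1 hd with h | h
    · exact (Nat.le_of_dvd ha0 h).trans hza
    · exact hmz p hp h
  obtain ⟨φ, hφd⟩ : ∃ φ : ℝ, φ = (Nat.totient m₀ : ℝ) := ⟨_, rfl⟩
  have hφ : 0 < φ := by rw [hφd]; exact_mod_cast Nat.totient_pos.2 hm₀
  obtain ⟨ar, hard⟩ : ∃ ar : ℝ, ar = (a.natAbs : ℝ) := ⟨_, rfl⟩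
  have har : 0 < ar := by rw [hard]; exact_mod_cast ha0
  have hφ1 : (Nat.totient (a.natAbs * m₀) : ℝ) = ar * φ := by
    rw [totient_mul_eq a.natAbs m₀ ha0 hm₀ (fun p hp h =>
      CH.dvd_primorial hp ((Nat.le_of_dvd ha0 h).trans hza)), hard, hφd]
    push_cast
    ring
  obtain ⟨X₁, hX₁⟩ := first_rem K C (a.natAbs * m₀) (K + 5) hm₁ hC1
  obtain ⟨N₂, hN₂⟩ := second_rem K m₀ (K + 5) D hm₀ (CH.squarefree_primorial z) hD0
  obtain ⟨N₃, hN₃⟩ := Tot_le (1 / 10000) (by norm_num)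
  obtain ⟨X₄, hX₄⟩ := Om1_ge (7 / 100000) (by norm_num) (by norm_num) C hC1
  obtain ⟨c₁, hc₁, hprod⟩ := prod_ge (K + 1) (by omega)
  obtain ⟨N₅, hN₅⟩ := weights
  obtain ⟨c', hc'⟩ : ∃ c' : ℝ, c' = A0 / 2000 * (ε * c₁ / φ) := ⟨_, rfl⟩
  have hc'0 : 0 < c' := by rw [hc']; positivity
  obtain ⟨N₆, hN₆⟩   := CH.ev_log (max (100000 * Real.log 3) (max 1 (4 * (10000 + 2 * C) / c')))
  obtain ⟨N₇, hN₇⟩ := ev_pow (K + 2) (c' / 24) (by positivity)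
  refine ⟨ε, A0 / 4000 * (ε / φ), max (max (max Nc X₁) (max N₂ N₃))
    (max (max X₄ N₅) (max (max N₆ N₇) (max 2000 (3 * (C + a.natAbs))))),
    hε0, hε8, by positivity, ?_⟩
  intro N hN
  obtain ⟨⟨⟨hNc, hNX1⟩, hN2, hN3⟩, ⟨hNX4, hN5⟩, ⟨hN6, hN7⟩, hNj, hNC⟩ :
    ((Nc ≤ N ∧ X₁ ≤ N) ∧ N₂ ≤ N ∧ N₃ ≤ N) ∧ (X₄ ≤ N ∧ N₅ ≤ N) ∧ (N₆ ≤ N ∧ N₇ ≤ N) ∧
      2000 ≤ N ∧ 3 * (C + a.natAbs) ≤ N := by
    simpa only [max_le_iff] using hN
  obtain ⟨hzN, hCr⟩ := hcoreN N hNc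
  refine ⟨hzN, ?_⟩
  intro X hNX hXN b hb hsz E a₀ hE hres
  have hNsq : N ≤ N ^ 2 := Nat.le_self_pow (by norm_num) N
  have hNXX : N ≤ X := hNsq.trans hNX
  have hN1 : 1 ≤ N := by omega
  have hNr : (1 : ℝ) ≤ N := by exact_mod_cast hN1
  have h5N : 5 * N ≤ N ^ 2 := by nlinarith
  have hX3 : 2 * X ≤ 3 * N ^ 2 := by omega
  have hXr : (0 : ℝ) < X := by exact_mod_cast (by omega : 0 < X)
  have hX2000 : (2000 : ℝ) ≤ X := by exact_mod_cast (by omega : 2000 ≤ X)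
  obtain ⟨L, hL⟩ : ∃ L : ℝ, L = Real.log N := ⟨_, rfl⟩
  have hLm := hN₆ N hN6
  rw [← hL, max_le_iff, max_le_iff] at hLm
  obtain ⟨hL3, hL1, hLc⟩ := hLm
  have hL0 : 0 < L := by linarith
  have hLX : L ≤ Real.log X := by
    rw [hL]
    exact Real.log_le_log (by linarith) (by exact_mod_cast hNXX)
  have hXL : Real.log X ≤ 2 * (1 + 1 / 100000) * L := by
    have h1 : Real.log X ≤ Real.log (3 * (N : ℝ) ^ 2) := by
      apply Real.log_le_log hXr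
      exact_mod_cast (by omega : X ≤ 3 * N ^ 2)
    rw [Real.log_mul (by norm_num) (by positivity), Real.log_pow, ← hL] at h1
    push_cast at h1
    have : Real.log 3 ≤ 1 / 100000 * L := by linarith
    linarith
  have hcop : a₀.Coprime m₀ := by
    rw [Nat.coprime_iff_gcd_eq_one]
    by_contra hne
    obtain ⟨p, hp, hpd⟩ := Nat.exists_prime_and_dvd hne
    exact (hres p hp (hmz p hp (hpd.trans (Nat.gcd_dvd_right _ _)))).1
      (hpd.trans (Nat.gcd_dvd_left _ _))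
  have hcop1 : (cls1 a b m₀ a₀).Coprime (a.natAbs * m₀) := by
    rw [Nat.coprime_iff_gcd_eq_one]
    by_contra hne
    obtain ⟨p, hp, hpd⟩ := Nat.exists_prime_and_dvd hne
    have h1 : p ∣ a.natAbs * m₀ := hpd.trans (Nat.gcd_dvd_right _ _)
    have h2 : p ∣ cls1 a b m₀ a₀ := hpd.trans (Nat.gcd_dvd_left _ _)
    apply (hres p hp (hm₁z p hp h1)).2
    have h3 : ((cls1 a b m₀ a₀ : ℕ) : ℤ) = (a * a₀ + b) % ((a.natAbs * m₀ : ℕ) : ℤ) :=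
      Int.toNat_of_nonneg (Int.emod_nonneg _ (by exact_mod_cast hm₁.ne'))
    have h4 : (p : ℤ) ∣ (a * a₀ + b) % ((a.natAbs * m₀ : ℕ) : ℤ) := by
      rw [← h3]
      exact_mod_cast h2
    have h5 : (p : ℤ) ∣ ((a.natAbs * m₀ : ℕ) : ℤ) := by exact_mod_cast h1
    exact (Int.dvd_iff_dvd_of_dvd_sub (dvd_trans h5 Int.dvd_self_sub_emod)).2 h4
  obtain ⟨w, hwd⟩ : ∃ w : ℝ, w = (N : ℝ) ^ ε := ⟨_, rfl⟩
  obtain ⟨g, hg⟩ : ∃ g, g = gg w a b E := ⟨_, rfl⟩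
  have hDg : Dg (K + 1) z ((N : ℝ) ^ ε) b.natAbs g := by
    rw [hg, hwd]
    exact Dg_gg haz hzN hE
  have hDg' : ∀ p : ℕ, p.Prime → z < p → 0 ≤ g p ∧ g p ≤ ((K + 1 : ℕ) : ℝ) / ((p : ℝ) - 1) := by
    intro p hp hzp
    exact hDg.1 p hp hzp
  have hPge := hprod z N hzK (by omega) ε g hDg'
  rw [← hwd, ← hg]
  obtain ⟨P, hPd⟩ : ∃ P, P = ∏ p ∈ P1 N z ε, (1 - g p) := ⟨_, rfl⟩
  rw [← hPd, ← hL] at hPge
  have hP0 : 0 ≤ P := le_trans (by positivity) hPge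
  have hbN3 : b.natAbs ≤ N ^ 3 := by
    have h1 := natAbs_le hsz
    have h2 : (C + a.natAbs) * X ≤ N ^ 3 := by
      have h3 : X ≤ 3 * N ^ 2 := by omega
      calc (C + a.natAbs) * X ≤ (C + a.natAbs) * (3 * N ^ 2) := Nat.mul_le_mul_left _ h3
        _ = (3 * (C + a.natAbs)) * N ^ 2 := by ring
        _ ≤ N * N ^ 2 := Nat.mul_le_mul_right _ hNC
        _ = N ^ 3 := by ring
    exact h1.trans h2
  -- the two parts
  obtain ⟨T1, hT1⟩ : ∃ T1 : ℝ, T1 = ((Om1 a b X).card : ℝ) := ⟨_, rfl⟩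
  obtain ⟨T2, hT2⟩ : ∃ T2 : ℝ, T2 = Tot N D ((X - 1 : ℕ) : ℝ) ((2 * X : ℕ) : ℝ) := ⟨_, rfl⟩
  have hT10 : 0 ≤ T1 := by rw [hT1]; exact Nat.cast_nonneg _
  have hT20 : 0 ≤ T2 := by rw [hT2]; exact Tot_nonneg _ _ _ _
  have core1 := (hCr ℕ ((Om1 a b X).filter (fun y => y ≡ cls1 a b m₀ a₀ [MOD (a.natAbs * m₀)]))
    (fun y => V z N (c1 w a b E) y) g
    (T1 / (ar * φ)) b.natAbs (by positivity) (Int.natAbs_ne_zero.2 hb) hbN3 hDg).1
  have core2 := (hCr (ℕ × ℕ) ((Om2 N D ((X - 1 : ℕ) : ℝ) ((2 * X : ℕ) : ℝ)).filter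
    (fun x => x.1 * x.2 ≡ a₀ [MOD m₀])) (fun x => V z N (c2 w a b E) (x.1 * x.2)) g
    (T2 / φ) b.natAbs (by positivity) (Int.natAbs_ne_zero.2 hb) hbN3 hDg).2
  have hw := hN₅ N hN5 a b C X D z a₀ ε E hD0 hε8 hNX hX3 ha haz hsz hzN hcop
  rw [← hwd] at hw
  have hR1 := hX₁ X (hNX1.trans hNXX) N hN1 hNX a b hsz z w E (cls1 a b m₀ a₀) haz hE hcop1 hm₁z
  have hbb : ((2 * X : ℕ) : ℝ) ≤ 3 * (N : ℝ) ^ 2 := by exact_mod_cast hX3
  have hbe : ((2 * X : ℕ) : ℝ) * Real.exp (1 / (D : ℝ)) ≤ 4 * (N : ℝ) ^ 2 := by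
    have h1 : ((2 * X : ℕ) : ℝ) * Real.exp (1 / (D : ℝ)) ≤
        (3 * (N : ℝ) ^ 2) * (1 + 2 / 10000) :=
      mul_le_mul hbb hexp1 (Real.exp_pos _).le (by positivity)
    nlinarith [sq_nonneg (N : ℝ)]
  have hR2 := hN₂ N hN2 ((X - 1 : ℕ) : ℝ) ((2 * X : ℕ) : ℝ) (by
      nlinarith [sq_nonneg (N : ℝ)]) a b z w E a₀ haz hE hcop hmz
  have hX1r : ((X - 1 : ℕ) : ℝ) = X - 1 := by
    rw [Nat.cast_sub (by omega)]
    simp
  have hT := hN₃ N hN3 D ((X - 1 : ℕ) : ℝ) ((2 * X : ℕ) : ℝ) hD0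
    (by positivity) (by exact_mod_cast (by omega : X - 1 ≤ 2 * X)) (by
      have : (N : ℝ) ^ 2 ≤ ((2 * X : ℕ) : ℝ) := by
        exact_mod_cast (by omega : N ^ 2 ≤ 2 * X)
      linarith [sq_nonneg (N : ℝ)]) hbe
  have hOm := hX₄ X (hNX4.trans hNXX) a b ha hsz
  have hNS := NS_card (X := X) (N := N) hN1 (by omega) hX3
  rw [← hT2, ← hL] at hT
  rw [← hT1, ← hard] at hOm
  rw [← hT1, hφ1, ← hg] at hR1
  rw [← hT2, ← hφd, ← hg, ← hL] at hR2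
  rw [← hPd, ← hL] at core1 core2
  -- the sizes
  have hQ0 : 0 ≤ (X : ℝ) / L := by positivity
  have hN2X : (N : ℝ) ^ 2 ≤ X := by exact_mod_cast hNX
  have hTe : T1 / (ar * φ) = T1 / ar / φ := by rw [div_div]
  have ha1 : (1 / 2 - 1 / 10000) * ((X : ℝ) / L) ≤ T1 / ar := by
    rw [le_div_iff₀ har]
    have hlX : 0 < Real.log X := by linarith
    have h1 : (X : ℝ) / (2 * (1 + 1 / 100000) * L) ≤ X / Real.log X :=
      div_le_div_of_nonneg_left hXr.le hlX hXL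
    have h2 : (X : ℝ) / (2 * (1 + 1 / 100000) * L) = 1 / (2 * (1 + 1 / 100000)) * (X / L) := by
      field_simp
    rw [h2] at h1
    have h4 : (1 / 2 - 1 / 10000) * ((X : ℝ) / L) ≤ (1 - 7 / 100000) * (X / Real.log X) := by
      nlinarith
    calc (1 / 2 - 1 / 10000) * ((X : ℝ) / L) * ar ≤ (1 - 7 / 100000) * (X / Real.log X) * ar :=
          mul_le_mul_of_nonneg_right h4 har.le
      _ = (1 - 7 / 100000) * (ar * X / Real.log X) := by ring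
      _ ≤ T1 := hOm
  have ha2 : T2 ≤ 1953 / 10000 * ((X : ℝ) / L) := by
    refine hT.trans ?_
    rw [← mul_div_assoc]
    apply div_le_div_of_nonneg_right _ hL0.le
    have h1 : ((2 * X : ℕ) : ℝ) * Real.exp (1 / (D : ℝ)) ≤
        ((2 * X : ℕ) : ℝ) * (1 + 2 / 10000) :=
      mul_le_mul_of_nonneg_left hexp1 (by positivity)
    have h2 : ((X - 1 : ℕ) : ℝ) * (1 - 1 / 10000) ≤
        ((X - 1 : ℕ) : ℝ) * Real.exp (-(1 / (D : ℝ))) :=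
      mul_le_mul_of_nonneg_left hexp2 (by positivity)
    rw [hX1r] at h2 ⊢
    push_cast at h1 h2 ⊢
    linarith
  have hmain := numer hA0 Pool.Agent.Y484.CH.num.1 hε0 hP0 hQ0 hφ rfl ha1 ha2
  -- the combination
  have hLp : 0 < L ^ (K + 2) := by positivity
  have hA : c' * (X / L ^ (K + 2)) ≤ A0 / 2000 * (ε * (P * (X / L)) / φ) := by
    have h1 : c₁ / L ^ (K + 1) * (X / L) ≤ P * (X / L) := mul_le_mul_of_nonneg_right hPge hQ0
    have h2 : c₁ / L ^ (K + 1) * (X / L) = c₁ * (X / L ^ (K + 2)) := by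
      rw [pow_succ L (K + 1)]
      field_simp
    rw [h2] at h1
    calc c' * (X / L ^ (K + 2)) = A0 / 2000 * (ε * (c₁ * (X / L ^ (K + 2))) / φ) := by
          rw [hc']; ring
      _ ≤ _ := by gcongr
  have hB1 : L * (2 * C * X / Real.log X ^ (K + 5)) ≤ 2 * C / L * (X / L ^ (K + 2)) := by
    have h1 : L ^ (K + 5) ≤ Real.log X ^ (K + 5) := pow_le_pow_left₀ hL0.le hLX _
    have h2 : 2 * C * (X : ℝ) / Real.log X ^ (K + 5) ≤ 2 * C * X / L ^ (K + 5) :=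
      div_le_div_of_nonneg_left (by positivity) (by positivity) h1
    have h3 : L * (2 * C * X / L ^ (K + 5)) = 2 * C / L ^ 2 * (X / L ^ (K + 2)) := by
      rw [show K + 5 = (K + 2) + 3 from rfl, pow_add L (K + 2) 3]
      field_simp
    have h4 : 2 * (C : ℝ) / L ^ 2 ≤ 2 * C / L := by
      apply div_le_div_of_nonneg_left (by positivity) hL0
      nlinarith
    calc L * (2 * C * X / Real.log X ^ (K + 5)) ≤ L * (2 * C * X / L ^ (K + 5)) :=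
          mul_le_mul_of_nonneg_left h2 hL0.le
      _ = 2 * C / L ^ 2 * (X / L ^ (K + 2)) := h3
      _ ≤ _ := mul_le_mul_of_nonneg_right h4 (by positivity)
  have hB2 : 1 / 2 * (L * (2 * D * L * ((N : ℝ) ^ 2 / L ^ (K + 5)))) ≤
      10000 / L * (X / L ^ (K + 2)) := by
    have hDr : (D : ℝ) ≤ 10000 := by exact_mod_cast hD1
    have h1 : 1 / 2 * (L * (2 * D * L * ((N : ℝ) ^ 2 / L ^ (K + 5)))) =
        D / L * ((N : ℝ) ^ 2 / L ^ (K + 2)) := by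
      rw [show K + 5 = (K + 2) + 3 from rfl, pow_add L (K + 2) 3]
      field_simp
    rw [h1]
    gcongr
  have hB3 : 6 * (N : ℝ) ^ (7 / 4 : ℝ) ≤ c' / 4 * (X / L ^ (K + 2)) := by
    have h1 := hN₇ N hN7
    rw [← hL] at h1
    have h2 : (N : ℝ) ^ (7 / 4 : ℝ) * (N : ℝ) ^ (1 / 4 : ℝ) = (N : ℝ) ^ 2 := by
      rw [← Real.rpow_add (by linarith), ← Real.rpow_natCast]
      norm_num
    rw [← mul_div_assoc, le_div_iff₀ hLp]
    calc 6 * (N : ℝ) ^ (7 / 4 : ℝ) * L ^ (K + 2) ≤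
        6 * (N : ℝ) ^ (7 / 4 : ℝ) * (c' / 24 * (N : ℝ) ^ (1 / 4 : ℝ)) := by gcongr
      _ = c' / 4 * ((N : ℝ) ^ (7 / 4 : ℝ) * (N : ℝ) ^ (1 / 4 : ℝ)) := by ring
      _ = c' / 4 * (N : ℝ) ^ 2 := by rw [h2]
      _ ≤ _ := by gcongr
  have hB4 : (10000 + 2 * C) / L ≤ c' / 4 := by
    rw [div_le_iff₀ hL0]
    rw [div_le_iff₀ hc'0] at hLc
    linarith
  have hR1' := mul_le_mul_of_nonneg_left hR1 hL0.le
  have hR2' := mul_le_mul_of_nonneg_left hR2 hL0.le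
  have hS2 : ((S2 a b X N D z m₀ a₀ ε E).card : ℝ) ≤
      ε * (T2 / φ * P) * (1000 / 998 * A0 + A0 / 2000) +
      L * (2 * D * L * ((N : ℝ) ^ 2 / L ^ (K + 5))) := by
    refine le_trans ?_ (add_le_add_right hR2' _)
    refine le_trans (le_of_eq ?_) core2
    unfold S2
    rw [← hwd]
    congr!
  have hS1 : ε * (T1 / ar / φ * P) * (A0 * (1000 / 998 * LBc) - A0 / 2000) -
      L * (2 * C * X / Real.log X ^ (K + 5)) ≤
      ((GG a b X N z m₀ a₀ ε E).card : ℝ) + 1 / 2 * ((S2 a b X N D z m₀ a₀ ε E).card : ℝ) +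
      ((NS X N).card : ℝ) := by
    rw [← hTe]
    refine le_trans (sub_le_sub_left hR1' _) ?_
    refine le_trans core1 ?_
    refine le_trans (le_of_eq ?_) hw
    unfold S1
    rw [← hwd]
  have hfin : A0 / 2000 * (ε * (P * (X / L)) / φ) -
      (2 * C / L * (X / L ^ (K + 2)) + 10000 / L * (X / L ^ (K + 2))) -
      c' / 4 * (X / L ^ (K + 2)) ≤ ((GG a b X N z m₀ a₀ ε E).card : ℝ) := by
    linarith
  have hlast : (2 * C / L * (X / L ^ (K + 2)) + 10000 / L * (X / L ^ (K + 2))) ≤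
      c' / 4 * (X / L ^ (K + 2)) := by
    have e : (2 * C / L * (X / L ^ (K + 2)) + 10000 / L * ((X : ℝ) / L ^ (K + 2))) =
        (10000 + 2 * C) / L * (X / L ^ (K + 2)) := by ring
    rw [e]
    exact mul_le_mul_of_nonneg_right hB4 (by positivity)
  rw [← hPd, ← hL]
  have e3 : A0 / 4000 * (ε / φ) * (X / L * P) = 1 / 2 * (A0 / 2000 * (ε * (P * (X / L)) / φ)) := by
    ring
  rw [e3]
  linarith

end Pool.Agent.KS6_51.CG
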