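import Pool.Agent.KS6_51.G5

/-!
# Chen's theorem for `n` and `a n + b` inside sifted sets, part 6: the final form
-/

set_option autoImplicit false

namespace Pool.Agent.KS6_51.CG

open Finset Filter Pool.Agent.W23.DC Pool.Agent.Y660.RP Pool.Agent.Y843.CH
open Pool.Agent.KS6_51.CH (exists_crt dvd_primorial mem_P1_iff)

open Classical in
/-- the `n` in `[X, 2 X]` such that `a n + b` is a prime, `n` has at most two prime factors
(counted with multiplicity), all of them at least `X ^ (1 / 9)`, and `n` avoids the classes of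
`E p` modulo `p` for all the primes `p < X ^ δ` -/
noncomputable def Good (a b : ℤ) (X : ℕ) (δ : ℝ) (E : ℕ → Finset ℕ) : Finset ℕ :=
  (Icc X (2 * X)).filter (fun n => (a * n + b).toNat.Prime ∧ n.primeFactorsList.length ≤ 2 ∧
    (∀ p : ℕ, p.Prime → p ∣ n → (X : ℝ) ^ (1 / 9 : ℝ) ≤ p) ∧
    ∀ p : ℕ, p.Prime → (p : ℝ) < (X : ℝ) ^ δ → n % p ∉ E p)

open Classical in
/-- the number of the residues `c` modulo `p` which are forbidden: `c ∈ E p`, or `p ∣ c`, or
`p ∣ a c + b` -/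
noncomputable def nu (a b : ℤ) (E : ℕ → Finset ℕ) (p : ℕ) : ℕ :=
  ((range p).filter (fun c => c ∈ E p ∨ c = 0 ∨ (p : ℤ) ∣ a * c + b)).card

theorem nu_bounds {a b : ℤ} {E : ℕ → Finset ℕ} {p : ℕ} (hp : 0 < p) :
    1 ≤ nu a b E p ∧ nu a b E p ≤ p := by
  classical
  unfold nu
  constructor
  · apply card_pos.2
    exact ⟨0, by rw [mem_filter, mem_range]; exact ⟨hp, Or.inr (Or.inl rfl)⟩⟩
  · refine (card_filter_le _ _).trans ?_
    rw [card_range]

theorem factor_bounds {a b : ℤ} {E : ℕ → Finset ℕ} {p : ℕ} (hp : p.Prime) :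
    0 ≤ 1 - ((nu a b E p : ℝ) - 1) / ((p : ℝ) - 1) ∧
    1 - ((nu a b E p : ℝ) - 1) / ((p : ℝ) - 1) ≤ 1 := by
  obtain ⟨h1, h2⟩ := nu_bounds (a := a) (b := b) (E := E) hp.pos
  have h3 : (0 : ℝ) < (p : ℝ) - 1 := by
    have : (1 : ℝ) < p := by exact_mod_cast hp.one_lt
    linarith
  have h1' : (1 : ℝ) ≤ nu a b E p := by exact_mod_cast h1
  have h2' : (nu a b E p : ℝ) ≤ p := by exact_mod_cast h2
  constructor
  · rw [sub_nonneg, div_le_one h3]
    linarith
  · have : 0 ≤ ((nu a b E p : ℝ) - 1) / ((p : ℝ) - 1) := div_nonneg (by linarith) h3.le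
    linarith

theorem gg_eq_nu {w : ℝ} {a b : ℤ} {E : ℕ → Finset ℕ} {p : ℕ} (hw : (p : ℝ) < w) :
    gg w a b E p = ((nu a b E p : ℝ) - 1) / ((p : ℝ) - 1) := by
  classical
  unfold gg nu Fb
  congr 4
  apply filter_congr
  intro c _
  tauto

theorem chen (K C : ℕ) (hC : 1 ≤ C) (a : ℤ) (ha : a ≠ 0) : ∃ z₀ : ℕ, ∀ z : ℕ, z₀ ≤ z →
    ∃ (δ c : ℝ) (X₀ : ℕ), 0 < δ ∧ 0 < c ∧ ∀ X : ℕ, X₀ ≤ X → ∀ b : ℤ, b ≠ 0 → Sz a b C X →
    ∀ E : ℕ → Finset ℕ,
    (∀ p : ℕ, p.Prime → z < p → (E p).card ≤ K) →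
    (∀ p : ℕ, p.Prime → p ≤ z → ∃ r : ℕ, r % p ∉ E p ∧ ¬ p ∣ r ∧ ¬ (p : ℤ) ∣ a * r + b) →
    c * (X / Real.log X * ∏ p ∈ (Ioc z X).filter Nat.Prime,
      (1 - ((nu a b E p : ℝ) - 1) / ((p : ℝ) - 1))) ≤ ((Good a b X δ E).card : ℝ) := by
  classical
  obtain ⟨z₀, hz₀⟩ := chenN K C hC a ha
  refine ⟨z₀, fun z hz => ?_⟩
  obtain ⟨ε, c, N₀, hε0, hε8, hc, h⟩ := hz₀ z hz
  refine ⟨ε / 3, c, (max N₀ 16) ^ 2, by positivity, hc, ?_⟩
  intro X hX b hb hsz E hE hA
  obtain ⟨N, hN⟩ : ∃ N : ℕ, N = Nat.sqrt X := ⟨_, rfl⟩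
  have hN0 : max N₀ 16 ≤ N := by rw [hN]; exact Nat.le_sqrt'.2 hX
  rw [max_le_iff] at hN0
  obtain ⟨h0, h5⟩ := hN0
  have hNX : N ^ 2 ≤ X := by rw [hN]; exact Nat.sqrt_le' X
  have hXN : X ≤ N ^ 2 + 2 * N := by
    have := Nat.lt_succ_sqrt' X
    rw [← hN] at this
    have e : (Nat.succ N) ^ 2 = N ^ 2 + 2 * N + 1 := by rw [Nat.succ_eq_add_one]; ring
    omega
  have hNr : (16 : ℝ) ≤ N := by exact_mod_cast h5
  have hN1 : 1 ≤ N := by omega
  have h5N : 5 * N ≤ N ^ 2 := by nlinarith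
  have hNX' : N ≤ X := (Nat.le_self_pow (by norm_num) N).trans hNX
  -- the class modulo the small primes
  choose! f hf using hA
  obtain ⟨a₀, ha₀⟩ := exists_crt z f
  have hres : ∀ p : ℕ, p.Prime → p ≤ z → ¬ p ∣ a₀ ∧ ¬ (p : ℤ) ∣ a * a₀ + b := by
    intro p hp hpz
    obtain ⟨-, h2, h3⟩ := hf p hp hpz
    have h4 := ha₀ p hp hpz
    constructor
    · intro hd
      exact h2 ((h4.dvd_iff dvd_rfl).1 hd)
    · intro hd
      apply h3
      have h5 : (p : ℤ) ∣ (f p : ℤ) - a₀ := (Int.natCast_modEq_iff.2 h4).dvd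
      have e : a * (f p : ℤ) + b = (a * a₀ + b) + a * ((f p : ℤ) - a₀) := by ring
      rw [e]
      exact dvd_add hd (dvd_mul_of_dvd_right h5 a)
  obtain ⟨hzN, hkey⟩ := h N h0
  have key := hkey X hNX hXN b hb hsz E a₀ hE hres
  have hL : 0 < Real.log N := Real.log_pos (by linarith)
  have hLX : Real.log N ≤ Real.log X := by
    apply Real.log_le_log (by linarith)
    exact_mod_cast hNX'
  -- the products
  have hprod : ∏ p ∈ (Ioc z X).filter Nat.Prime, (1 - ((nu a b E p : ℝ) - 1) / ((p : ℝ) - 1)) ≤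
      ∏ p ∈ P1 N z ε, (1 - gg ((N : ℝ) ^ ε) a b E p) := by
    have hsub : P1 N z ε ⊆ (Ioc z X).filter Nat.Prime := by
      intro p hp
      rw [mem_P1] at hp
      rw [mem_filter, mem_Ioc]
      exact ⟨⟨hp.1.1, by omega⟩, hp.2.1⟩
    have e1 : ∏ p ∈ P1 N z ε, (1 - gg ((N : ℝ) ^ ε) a b E p) =
        ∏ p ∈ P1 N z ε, (1 - ((nu a b E p : ℝ) - 1) / ((p : ℝ) - 1)) := by
      apply prod_congr rfl
      intro p hp
      rw [mem_P1] at hp
      rw [gg_eq_nu hp.2.2]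
    rw [e1, ← prod_sdiff hsub]
    have h1 : ∏ p ∈ (Ioc z X).filter Nat.Prime \ P1 N z ε,
        (1 - ((nu a b E p : ℝ) - 1) / ((p : ℝ) - 1)) ≤ 1 := by
      apply prod_le_one
      · intro p hp
        rw [Finset.mem_sdiff, mem_filter] at hp
        exact (factor_bounds hp.1.2).1
      · intro p hp
        rw [Finset.mem_sdiff, mem_filter] at hp
        exact (factor_bounds hp.1.2).2
    have h2 : 0 ≤ ∏ p ∈ P1 N z ε, (1 - ((nu a b E p : ℝ) - 1) / ((p : ℝ) - 1)) := by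
      apply prod_nonneg
      intro p hp
      rw [mem_P1] at hp
      exact (factor_bounds hp.2.1).1
    exact mul_le_of_le_one_left h2 h1
  have hprod0 : 0 ≤ ∏ p ∈ (Ioc z X).filter Nat.Prime,
      (1 - ((nu a b E p : ℝ) - 1) / ((p : ℝ) - 1)) := by
    apply prod_nonneg
    intro p hp
    rw [mem_filter] at hp
    exact (factor_bounds hp.2).1
  have hle : c * (X / Real.log X * ∏ p ∈ (Ioc z X).filter Nat.Prime,
      (1 - ((nu a b E p : ℝ) - 1) / ((p : ℝ) - 1))) ≤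
      c * (X / Real.log N * ∏ p ∈ P1 N z ε, (1 - gg ((N : ℝ) ^ ε) a b E p)) := by
    apply mul_le_mul_of_nonneg_left _ hc.le
    apply mul_le_mul _ hprod hprod0 (by positivity)
    exact div_le_div_of_nonneg_left (by positivity) hL hLX
  refine hle.trans (key.trans ?_)
  have hsub : GG a b X N z (primorial z) a₀ ε E ⊆ Good a b X (ε / 3) E := by
    intro n hn
    unfold GG at hn
    rw [mem_filter, mem_Icc] at hn
    obtain ⟨hnX, hpr, hmod, hP, hpf, hlen⟩ := hn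
    unfold Good
    rw [mem_filter, mem_Icc]
    refine ⟨hnX, hpr, hlen, ?_, ?_⟩
    · intro p hp hd
      refine le_trans ?_ (hpf p hp hd)
      have h16 : (2 : ℝ) ≤ (N : ℝ) ^ (1 / 4 : ℝ) := by
        have e : (2 : ℝ) = ((16 : ℝ)) ^ (1 / 4 : ℝ) := by
          rw [show (16 : ℝ) = 2 ^ (4 : ℝ) by norm_num, ← Real.rpow_mul (by norm_num)]
          norm_num
        rw [e]
        exact Real.rpow_le_rpow (by norm_num) (by exact_mod_cast h5) (by norm_num)
      have h3 : (X : ℝ) ≤ (N : ℝ) ^ (9 / 4 : ℝ) := by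
        have h2 : (X : ℝ) ≤ 2 * (N : ℝ) ^ 2 := by
          have : X ≤ 2 * N ^ 2 := by omega
          exact_mod_cast this
        have e : (N : ℝ) ^ (9 / 4 : ℝ) = (N : ℝ) ^ (1 / 4 : ℝ) * (N : ℝ) ^ 2 := by
          rw [← Real.rpow_natCast, ← Real.rpow_add (by linarith)]
          norm_num
        rw [e]
        refine h2.trans ?_
        exact mul_le_mul_of_nonneg_right h16 (by positivity)
      calc (X : ℝ) ^ (1 / 9 : ℝ) ≤ ((N : ℝ) ^ (9 / 4 : ℝ)) ^ (1 / 9 : ℝ) :=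
            Real.rpow_le_rpow (by positivity) h3 (by norm_num)
        _ = (N : ℝ) ^ (1 / 4 : ℝ) := by
            rw [← Real.rpow_mul (by linarith)]
            norm_num
    · intro p hp hpX
      rcases le_or_gt p z with hpz | hpz
      · have h2 : n ≡ f p [MOD p] := (hmod.of_dvd (dvd_primorial hp hpz)).trans (ha₀ p hp hpz)
        have h3 : n % p = f p % p := h2
        rw [h3]
        exact (hf p hp hpz).1
      · apply hP
        rw [mem_P1_iff hN1 (by linarith) hp hpz]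
        refine hpX.trans_le ?_
        have h2 : (X : ℝ) ≤ (N : ℝ) ^ (3 : ℕ) := by
          have : X ≤ N ^ 3 := by nlinarith
          exact_mod_cast this
        calc (X : ℝ) ^ (ε / 3) ≤ ((N : ℝ) ^ (3 : ℕ)) ^ (ε / 3) :=
              Real.rpow_le_rpow (by positivity) h2 (by positivity)
          _ = (N : ℝ) ^ ε := by
              rw [← Real.rpow_natCast, ← Real.rpow_mul (by linarith)]
              congr 1
              push_cast
              ring
  exact_mod_cast card_le_card hsub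

end Pool.Agent.KS6_51.CG
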