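import Pool.Graph.R_seed8.TH685.TI.Rom

set_option autoImplicit false
set_option maxHeartbeats 1000000

/-! # Sums of an element of a large set of almost missing integers and an element of a set of density `1 / log` -/

namespace Pool.Agent.KS6_51.Rom

open Finset Filter Pool.Agent.H373R2.T7 Pool.Agent.W123.RP Pool.Agent.TH685.TI
open Pool.Agent.Results.MP_3509fd_nt.NeighboursOfAlmostMissing (AlmostMissing not_Q many)

open Classical in
/-- **Sums of an element of a large set of almost missing integers and an element of a set of density `1 / log`.** -/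
theorem romanoff2 : ∃ r0 : ℕ, 2 ≤ r0 ∧ ∀ r : ℕ, r0 ≤ r → ∀ (Kf : ℕ → Finset ℕ) (κ : ℝ), 0 < κ →
    (∀ X : ℕ, ∀ k ∈ Kf X, (X < k ∧ k ≤ 2 * X) ∧ AlmostMissing r X k) →
    (∀ᶠ X : ℕ in atTop, κ * X / Real.log X ^ 2 ≤ ((Kf X).card : ℝ)) →
    ∀ (M : Set ℕ) (C₁ : ℝ), 0 < C₁ →
    (∃ y0 : ℕ, ∀ y : ℕ, y0 ≤ y → ∃ S : Finset ℕ, S ⊆ Icc 1 y ∧ (∀ a ∈ S, a ∈ M) ∧
      (y : ℝ) ≤ C₁ * #S * Real.log y) →
    ∃ c : ℝ, 0 < c ∧ ∃ A : ℝ, ∃ X₀ : ℕ, ∀ X : ℕ, X₀ ≤ X → ∃ I : Finset ℕ, I ⊆ Ioc X (3 * X) ∧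
      (∀ n ∈ I, ∃ k m : ℕ, k + m = n ∧ m ∈ M ∧ 1 ≤ m ∧
        (m : ℝ) ≤ A * (Real.log X ^ 2 * Real.log (Real.log X)) ∧ k ∈ Kf X) ∧
      c * X / Real.log (Real.log (Real.log (Real.log X))) ^ 2 ≤ #I := by
  obtain ⟨r1, hr1, hpair⟩ := pair_bound
  refine ⟨r1, hr1, fun r hr Kf κ hκ hKf hmany M C₁ hC₁ hM => ?_⟩
  obtain ⟨C, hC, X₁, hpair⟩ := hpair r hr
  obtain ⟨y0, hM⟩ := hM
  obtain ⟨A, hA⟩ : ∃ A : ℝ, A = 6 * C₁ + 1 := ⟨_, rfl⟩
  have hA1 : 1 ≤ A := by rw [hA]; linarith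
  obtain ⟨E, hE⟩ : ∃ E : ℝ, E = Real.exp (C₁ + 6) := ⟨_, rfl⟩
  have hE0 : 0 < E := by rw [hE]; exact Real.exp_pos _
  obtain ⟨D, hD⟩ : ∃ D : ℝ, D = 1 / κ + 4 * C * E / κ ^ 2 := ⟨_, rfl⟩
  have hD0 : 0 < D := by rw [hD]; positivity
  refine ⟨1 / D, by positivity, A, ?_⟩
  have hlogt : Tendsto (fun x : ℕ => Real.log (x : ℝ)) atTop atTop :=
    Real.tendsto_log_atTop.comp tendsto_natCast_atTop_atTop
  have hl1 := Real.tendsto_log_atTop
  have hloglog : Tendsto (fun L : ℝ => Real.log (Real.log L)) atTop atTop := hl1.comp hl1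
  have hlogloglog : Tendsto (fun L : ℝ => Real.log (Real.log (Real.log L))) atTop atTop :=
    hl1.comp hloglog
  have ev : ∀ᶠ L : ℝ in atTop, (A * Real.log L ≤ L ∧ L ^ 3 ≤ Real.exp L) ∧
      2 ≤ Real.log L ∧ 10 ≤ Real.log (Real.log L) ∧
      1 ≤ Real.log (Real.log (Real.log L)) ∧ (y0 : ℝ) + 3 ≤ L := by
    filter_upwards [ev_L 1, hl1.eventually_ge_atTop (A + 2), hloglog.eventually_ge_atTop 10,
      hlogloglog.eventually_ge_atTop 1, eventually_ge_atTop ((y0 : ℝ) + 3)] with L h1 h2 h3 h4 h5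
    refine ⟨⟨?_, h1.2⟩, by linarith, h3, h4, h5⟩
    calc A * Real.log L ≤ Real.log L * Real.log L :=
          mul_le_mul_of_nonneg_right (by linarith) (by linarith)
      _ = Real.log L ^ (1 + 1) := by ring
      _ ≤ L := h1.1
  obtain ⟨X₀, hX₀⟩ := eventually_atTop.mp ((hlogt.eventually ev).and (hmany.and
    ((eventually_ge_atTop X₁).and (eventually_ge_atTop 10))))
  refine ⟨X₀, fun X hX => ?_⟩
  obtain ⟨⟨⟨f1, f1'⟩, f2, f3, f4, f5⟩, hK, hXX₁, hX10⟩ := hX₀ X hX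
  have hXr : (10 : ℝ) ≤ X := by exact_mod_cast hX10
  have hXpos : (0 : ℝ) < X := by linarith
  have hexp : Real.exp (Real.log X) = X := Real.exp_log hXpos
  rw [hexp] at f1'
  have hpairX := hpair X hXX₁
  obtain ⟨L, hL⟩ : ∃ L : ℝ, L = Real.log (X : ℝ) := ⟨_, rfl⟩
  rw [← hL] at f1 f1' f2 f3 f4 f5 hK hpairX ⊢
  have hy00 : (0 : ℝ) ≤ y0 := Nat.cast_nonneg _
  have hL3 : (3 : ℝ) ≤ L := by linarith
  have hl2 : 2 ≤ Real.log L := f2
  obtain ⟨T, hT⟩ : ∃ T : ℕ, T = ⌊A * (L ^ 2 * Real.log L)⌋₊ := ⟨_, rfl⟩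
  have hTle : (T : ℝ) ≤ A * (L ^ 2 * Real.log L) := by
    rw [hT]; exact Nat.floor_le (by positivity)
  have hL9 : (9 : ℝ) ≤ L ^ 2 := by
    calc (9 : ℝ) = 3 ^ 2 := by norm_num
      _ ≤ L ^ 2 := pow_le_pow_left₀ (by norm_num) hL3 2
  have hbig0 : L ^ 2 * 2 ≤ A * (L ^ 2 * Real.log L) := by
    calc L ^ 2 * 2 ≤ L ^ 2 * Real.log L := mul_le_mul_of_nonneg_left hl2 (by positivity)
      _ ≤ A * (L ^ 2 * Real.log L) := le_mul_of_one_le_left (by positivity) hA1
  have hbig : (9 : ℝ) ≤ A * (L ^ 2 * Real.log L) := by linarith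
  have hTge : A * (L ^ 2 * Real.log L) / 2 ≤ T := by
    have := Nat.lt_floor_add_one (A * (L ^ 2 * Real.log L))
    rw [← hT] at this
    linarith
  have hTL3 : (T : ℝ) ≤ L ^ 3 := by
    calc (T : ℝ) ≤ A * (L ^ 2 * Real.log L) := hTle
      _ = L ^ 2 * (A * Real.log L) := by ring
      _ ≤ L ^ 2 * L := by gcongr
      _ = L ^ 3 := by ring
  have hTL : L ≤ T := by
    have h1 : L * 2 ≤ L * L := mul_le_mul_of_nonneg_left (by linarith) (by linarith)
    have h2 : L * L = L ^ 2 := by ring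
    linarith
  have hTX : T ≤ X := by
    have : (T : ℝ) ≤ X := hTL3.trans f1'
    exact_mod_cast this
  have hTy0 : y0 ≤ T := by
    have : (y0 : ℝ) ≤ T := by linarith
    exact_mod_cast this
  have hT0 : (0 : ℝ) < T := by linarith
  obtain ⟨S, hST, hSM, hSc⟩ := hM T hTy0
  -- logarithms of `T`
  have hlogT : Real.log T ≤ 3 * Real.log L := by
    have : Real.log T ≤ Real.log (L ^ 3) := Real.log_le_log hT0 hTL3
    rw [Real.log_pow] at this
    exact_mod_cast this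
  have hlogT1 : Real.log L ≤ Real.log T := Real.log_le_log (by linarith) hTL
  have hlogT0 : 0 < Real.log T := by linarith
  have hSL : L ^ 2 ≤ #S := by
    have h2 : A * (L ^ 2 * Real.log L) / 2 ≤ C₁ * #S * (3 * Real.log L) :=
      hTge.trans (hSc.trans (mul_le_mul_of_nonneg_left hlogT (by positivity)))
    have hlL : 0 < Real.log L := by linarith
    have h3 : A * L ^ 2 ≤ 6 * C₁ * #S := by
      have h4 : (A * L ^ 2) * Real.log L ≤ (6 * C₁ * #S) * Real.log L := by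
        calc (A * L ^ 2) * Real.log L = 2 * (A * (L ^ 2 * Real.log L) / 2) := by ring
          _ ≤ 2 * (C₁ * #S * (3 * Real.log L)) := by linarith
          _ = _ := by ring
      exact le_of_mul_le_mul_right h4 hlL
    have h5 : 6 * C₁ * L ^ 2 ≤ A * L ^ 2 := by
      apply mul_le_mul_of_nonneg_right _ (by positivity)
      rw [hA]
      linarith
    exact le_of_mul_le_mul_left (h5.trans h3) (by positivity)
  have hS0 : (0 : ℝ) < #S := lt_of_lt_of_le (by positivity) hSL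
  -- the exponent
  have hllT : Real.log (Real.log T) ≤ 2 + Real.log (Real.log L) := by
    have h1 : Real.log (Real.log T) ≤ Real.log (3 * Real.log L) := Real.log_le_log hlogT0 hlogT
    rw [Real.log_mul (by norm_num) (by linarith)] at h1
    have h2 : Real.log 3 ≤ 2 := by
      have := Real.log_le_sub_one_of_pos (by norm_num : (0 : ℝ) < 3)
      linarith
    linarith
  have hllT0 : 0 ≤ Real.log (Real.log T) := by
    have : Real.log (Real.log L) ≤ Real.log (Real.log T) := Real.log_le_log (by linarith) hlogT1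
    linarith
  obtain ⟨q, hq⟩ : ∃ q : ℕ, q = ⌈Real.log (Real.log T)⌉₊ + 1 := ⟨_, rfl⟩
  have hq1 : 1 ≤ q := by omega
  have hqge : Real.log (Real.log T) ≤ q := by
    have := Nat.le_ceil (Real.log (Real.log T))
    rw [hq]
    push_cast
    linarith
  have hqle : (q : ℝ) ≤ Real.log (Real.log L) + 4 := by
    have := Nat.ceil_lt_add_one hllT0
    rw [hq]
    push_cast
    linarith
  have hq1r : (1 : ℝ) ≤ q := by exact_mod_cast hq1
  obtain ⟨w, hw⟩ : ∃ w : ℕ, w = 6 * q := ⟨_, rfl⟩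
  have hw3 : 3 ≤ w := by omega
  have hlogw : Real.log w ≤ 2 * Real.log (Real.log (Real.log L)) := by
    have h1 : (w : ℝ) ≤ Real.log (Real.log L) ^ 2 := by
      rw [hw]
      push_cast
      calc (6 : ℝ) * q ≤ 10 * Real.log (Real.log L) := by linarith
        _ ≤ Real.log (Real.log L) * Real.log (Real.log L) :=
          mul_le_mul_of_nonneg_right f3 (by linarith)
        _ = Real.log (Real.log L) ^ 2 := by ring
    have hw0 : (0 : ℝ) < w := by exact_mod_cast (by omega : 0 < w)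
    have h2 : Real.log w ≤ Real.log (Real.log (Real.log L) ^ 2) := Real.log_le_log hw0 h1
    rw [Real.log_pow] at h2
    exact_mod_cast h2
  have hlogw0 : 0 ≤ Real.log w := Real.log_nonneg (by exact_mod_cast (by omega : 1 ≤ w))
  have hEq : 64 * (T : ℝ) ≤ E ^ q * #S := by
    have h1 : Real.log T ≤ Real.exp (1 * q) := by
      calc Real.log T = Real.exp (Real.log (Real.log T)) := (Real.exp_log hlogT0).symm
        _ ≤ Real.exp (1 * q) := by
            apply Real.exp_le_exp.mpr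
            linarith
    have h2 : (64 : ℝ) ≤ Real.exp (5 * q) := by
      have h3 : (64 : ℝ) ≤ Real.exp 5 := by
        have h4 := Real.exp_one_gt_d9
        have h5 : Real.exp 5 = Real.exp 1 ^ 5 := by
          rw [← Real.exp_nat_mul]; norm_num
        rw [h5]
        calc (64 : ℝ) ≤ 2.7 ^ 5 := by norm_num
          _ ≤ Real.exp 1 ^ 5 := pow_le_pow_left₀ (by norm_num) (by linarith) 5
      exact h3.trans (Real.exp_le_exp.2 (by linarith))
    have h6 : C₁ ≤ Real.exp (C₁ * q) := by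
      have h7 : C₁ ≤ Real.exp C₁ := by
        have := Real.add_one_le_exp C₁
        linarith
      refine h7.trans (Real.exp_le_exp.2 ?_)
      exact le_mul_of_one_le_right hC₁.le hq1r
    have h3 : E ^ q = Real.exp (5 * q) * (Real.exp (C₁ * q) * Real.exp (1 * q)) := by
      rw [hE, ← Real.exp_nat_mul, ← Real.exp_add, ← Real.exp_add]
      congr 1
      ring
    calc 64 * (T : ℝ) ≤ 64 * (C₁ * #S * Real.log T) := by gcongr
      _ = 64 * (C₁ * Real.log T) * #S := by ring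
      _ ≤ Real.exp (5 * q) * (Real.exp (C₁ * q) * Real.exp (1 * q)) * #S := by gcongr
      _ = E ^ q * #S := by rw [h3]
  have havg := avg_g3 w q T S E hq1 (by omega) hST hE0.le hEq
  -- the count
  obtain ⟨K, hKd⟩ : ∃ K : Finset ℕ, K = Kf X := ⟨_, rfl⟩
  rw [← hKd] at hK
  have hcs := cs K S
  obtain ⟨I, hI⟩ : ∃ I : Finset ℕ, I = (S ×ˢ K).image (fun z => z.1 + z.2) := ⟨_, rfl⟩
  rw [← hI] at hcs
  obtain ⟨l, hl⟩ : ∃ l : ℝ, l = Real.log (Real.log (Real.log L)) := ⟨_, rfl⟩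
  rw [← hl] at f4 hlogw ⊢
  have hlw2 : Real.log w ^ 2 ≤ 4 * l ^ 2 := by
    have := pow_le_pow_left₀ hlogw0 hlogw 2
    calc Real.log w ^ 2 ≤ (2 * l) ^ 2 := this
      _ = 4 * l ^ 2 := by ring
  have hsum : ∑ z ∈ S.offDiag, (#(K.filter (fun k => k + Nat.dist z.1 z.2 ∈ K)) : ℝ) ≤
      C * (X / L ^ 4) * (4 * l ^ 2 * (E * (#S : ℝ) ^ 2)) := by
    have h1 : ∀ z ∈ S.offDiag, (#(K.filter (fun k => k + Nat.dist z.1 z.2 ∈ K)) : ℝ) ≤
        C * (X / L ^ 4) * (Real.log w ^ 2 * g3 w (Nat.dist z.1 z.2)) := by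
      intro z hz
      rw [mem_offDiag] at hz
      have hd : 1 ≤ Nat.dist z.1 z.2 := Nat.dist_pos_of_ne hz.2.2
      refine le_trans ?_ (hpairX w (Nat.dist z.1 z.2) hw3 hd)
      have : #(K.filter (fun k => k + Nat.dist z.1 z.2 ∈ K)) ≤ ((Ioc X (2 * X)).filter
          (fun k => AlmostMissing r X k ∧ AlmostMissing r X (k + Nat.dist z.1 z.2))).card := by
        apply card_le_card
        intro k hk
        rw [mem_filter, hKd] at hk
        rw [mem_filter, mem_Ioc]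
        exact ⟨(hKf X _ hk.1).1, (hKf X _ hk.1).2, (hKf X _ hk.2).2⟩
      exact_mod_cast this
    refine (Finset.sum_le_sum h1).trans ?_
    rw [← Finset.mul_sum, ← Finset.mul_sum]
    apply mul_le_mul_of_nonneg_left _ (by positivity)
    apply mul_le_mul hlw2 havg
    · exact Finset.sum_nonneg fun z _ => by linarith [one_le_g3 w (Nat.dist z.1 z.2)]
    · positivity
  obtain ⟨t, ht⟩ : ∃ t : ℝ, t = (#S : ℝ) * #K := ⟨_, rfl⟩
  rw [← ht] at hcs
  have ht1 : (#S : ℝ) * (κ * X / L ^ 2) ≤ t := by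
    rw [ht]
    exact mul_le_mul_of_nonneg_left hK hS0.le
  have ht2 : κ * X ≤ t := by
    refine le_trans ?_ ht1
    calc κ * X = L ^ 2 * (κ * X / L ^ 2) := by field_simp
      _ ≤ _ := by
        apply mul_le_mul_of_nonneg_right hSL
        positivity
  have htpos : 0 < t := lt_of_lt_of_le (by positivity) ht2
  have ht3 : t ≤ t ^ 2 / X * (1 / κ) := by
    rw [div_mul_div_comm, mul_one, le_div_iff₀ (by positivity)]
    calc t * (X * κ) = t * (κ * X) := by ring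
      _ ≤ t * t := mul_le_mul_of_nonneg_left ht2 htpos.le
      _ = t ^ 2 := by ring
  have ht4 : C * (X / L ^ 4) * (4 * l ^ 2 * (E * (#S : ℝ) ^ 2)) ≤
      t ^ 2 / X * (l ^ 2 * (4 * C * E / κ ^ 2)) := by
    have h1 : ((#S : ℝ) * (κ * X / L ^ 2)) ^ 2 ≤ t ^ 2 := pow_le_pow_left₀ (by positivity) ht1 2
    have h2 : C * (X / L ^ 4) * (4 * l ^ 2 * (E * (#S : ℝ) ^ 2)) =
        ((#S : ℝ) * (κ * X / L ^ 2)) ^ 2 / X * (l ^ 2 * (4 * C * E / κ ^ 2)) := by
      field_simp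
    rw [h2]
    gcongr
  have hfin : (X : ℝ) ≤ #I * (D * l ^ 2) := by
    have h1 : t ^ 2 ≤ #I * (t ^ 2 / X * (D * l ^ 2)) := by
      refine hcs.trans ?_
      apply mul_le_mul_of_nonneg_left _ (Nat.cast_nonneg _)
      have h2 : t ^ 2 / X * (1 / κ) ≤ t ^ 2 / X * (l ^ 2 * (1 / κ)) := by
        have h3 : 1 / κ ≤ l ^ 2 * (1 / κ) := by
          have h4 : 1 ≤ l ^ 2 := one_le_pow₀ f4
          exact le_mul_of_one_le_left (by positivity) h4
        exact mul_le_mul_of_nonneg_left h3 (by positivity)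
      calc t + ∑ z ∈ S.offDiag, (#(K.filter (fun k => k + Nat.dist z.1 z.2 ∈ K)) : ℝ)
          ≤ t ^ 2 / X * (l ^ 2 * (1 / κ)) + t ^ 2 / X * (l ^ 2 * (4 * C * E / κ ^ 2)) := by linarith
        _ = t ^ 2 / X * (D * l ^ 2) := by rw [hD]; ring
    have h3 : t ^ 2 * X ≤ t ^ 2 * (#I * (D * l ^ 2)) := by
      calc t ^ 2 * X ≤ (#I * (t ^ 2 / X * (D * l ^ 2))) * X := by gcongr
        _ = t ^ 2 * (#I * (D * l ^ 2)) := by field_simp
    exact le_of_mul_le_mul_left h3 (by positivity)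
  refine ⟨I, ?_, ?_, ?_⟩
  · intro n hn
    rw [hI, mem_image] at hn
    obtain ⟨z, hz, rfl⟩ := hn
    rw [mem_product, hKd] at hz
    have h1 := mem_Icc.1 (hST hz.1)
    have h2 := (hKf X _ hz.2).1
    rw [mem_Ioc]
    omega
  · intro n hn
    rw [hI, mem_image] at hn
    obtain ⟨z, hz, rfl⟩ := hn
    rw [mem_product, hKd] at hz
    have h1 := mem_Icc.1 (hST hz.1)
    refine ⟨z.2, z.1, by omega, hSM _ hz.1, h1.1, ?_, hz.2⟩
    have h2 : (z.1 : ℝ) ≤ T := by exact_mod_cast h1.2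
    exact h2.trans hTle
  · rw [div_le_iff₀ (by positivity), one_div, inv_mul_le_iff₀ hD0]
    calc (X : ℝ) ≤ #I * (D * l ^ 2) := hfin
      _ = D * (#I * l ^ 2) := by ring

end Pool.Agent.KS6_51.Rom
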